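import Pool.Agent.L0h17.KU.Pt4
import Pool.Agent.N162.GP.Facts
import Pool.Agent.N162.GP.Def

/-!
The data for smooth complete intersections.
-/

set_option autoImplicit false
set_option linter.overlappingInstances false
set_option linter.unusedSectionVars false

open FF IntermediateField MvPolynomial Pool.Agent.Y172
open Pool.Agent.W603.LV (Ge)
open Pool.Agent.W602.GT (Divisorial RegAt IsPluri DerReg)
open Pool.Agent.N162.GP (Adj CutBy LowDegree fINX fTRS)

namespace Pool.Agent.L0h17.KU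

section

variable {E : Type} [Field E] [Algebra ℂ E] {M n m k : ℕ} {x : Fin (M + 2) → E}
  {ω₀ : (Fin n → Derivation ℂ E E) → E}

theorem adj_mono (hx : x 0 = 1) (h : Adj m n x ω₀) (hk : k ≤ m) : Adj k n x ω₀ := by
  refine ⟨h.pl, h.ne, fun P hP => ?_⟩
  have h1 := h.reg (P * X 0 ^ (m - k)) (by
    have h2 := hP.mul ((isHomogeneous_X ℂ (0 : Fin (M + 2))).pow (m - k))
    have h3 : k + 1 * (m - k) = m := by omega
    rwa [h3] at h2)
  have h2 : aeval x (P * X 0 ^ (m - k)) = aeval x P := by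
    rw [map_mul, map_pow, aeval_X, hx, one_pow, mul_one]
  rwa [h2] at h1

/-- the monomials of degree at most `k` -/
def mon (x : Fin (M + 2) → E) (k : ℕ) (s : {s : Fin (M + 2) → Fin (k + 1) // ∑ j, (s j : ℕ) ≤ k}) :
    E := ∏ j, x j ^ (s.1 j : ℕ)

theorem mon_reg (hx : x 0 = 1) (h : Adj m n x ω₀) (hk : 2 * k + 1 ≤ m)
    (s : {s : Fin (M + 2) → Fin (k + 1) // ∑ j, (s j : ℕ) ≤ k}) (r : ℕ) (hr : r ≤ 1)
    (i : Fin (M + 2)) {P : Place ℂ E} (hP : Divisorial n P) {D : Fin n → Derivation ℂ E E}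
    (hD : ∀ l, DerReg P (D l)) : Ge P 0 (mon x k s ^ 2 * (x i ^ r * ω₀ D)) := by
  have hs := s.2
  obtain ⟨q, hq⟩ : ∃ q, q = ∑ j, (s.1 j : ℕ) := ⟨_, rfl⟩
  rw [← hq] at hs
  have h1 := h.reg ((∏ j, X j ^ (s.1 j : ℕ)) ^ 2 * X i ^ r * X 0 ^ (m - (q * 2 + r))) (by
    have h2 : IsHomogeneous (∏ j, (X j : MvPolynomial (Fin (M + 2)) ℂ) ^ (s.1 j : ℕ)) q := by
      have h3 := IsHomogeneous.prod Finset.univ
        (fun j => (X j : MvPolynomial (Fin (M + 2)) ℂ) ^ (s.1 j : ℕ)) (fun j => (s.1 j : ℕ))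
        (fun j _ => by
          have h4 := (isHomogeneous_X ℂ j).pow (s.1 j : ℕ)
          rwa [one_mul] at h4)
      rw [← hq] at h3
      exact h3
    have h3 := ((h2.pow 2).mul ((isHomogeneous_X ℂ i).pow r)).mul
      ((isHomogeneous_X ℂ (0 : Fin (M + 2))).pow (m - (q * 2 + r)))
    have h4 : q * 2 + 1 * r + 1 * (m - (q * 2 + r)) = m := by omega
    rwa [h4] at h3)
  have h2 : aeval x ((∏ j, X j ^ (s.1 j : ℕ)) ^ 2 * X i ^ r * X 0 ^ (m - (q * 2 + r)) :
      MvPolynomial (Fin (M + 2)) ℂ) = mon x k s ^ 2 * x i ^ r := by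
    rw [map_mul, map_mul, map_pow, map_pow, map_pow, aeval_X, aeval_X, hx, one_pow, mul_one,
      map_prod]
    congr 2
    unfold mon
    exact Finset.prod_congr rfl fun j _ => by rw [map_pow, aeval_X]
  rw [h2] at h1
  have h3 : P.Reg (mon x k s ^ 2 * x i ^ r * ω₀ D) := h1.2 P hP D hD
  rw [mul_assoc] at h3
  exact h3

end

section

variable {K : Type} [Field K] [Algebra ℂ K] {E : IntermediateField ℂ K} {L : Type}
  [Field L] [Algebra ℂ L] [Algebra L K] [IsScalarTower ℂ L K] [FiniteDimensional L K]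
  {M n m k N D : ℕ} {x : Fin (M + 2) → E}

theorem mon_span (h : LowDegree n m D x) (hM : 1 ≤ M) (hk : 7 * N + 4 ≤ k)
    (hN : (M + 1) * N < k + M + 2) (hD : D + N ≤ k + 2) (hkm : k ≤ m)
    (hd : Module.finrank L K < (N + 1) * (k + 2 - N))
    (hE : IntermediateField.adjoin L (E : Set K) = ⊤) :
    Submodule.span L (Set.range fun s => ((mon x k s : E) : K)) = ⊤ := by
  classical
  have hcL : CharZero L := charZero_of_injective_algebraMap (algebraMap ℂ L).injective
  by_contra hne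
  obtain ⟨ω₀, hω⟩ := h.forms
  obtain ⟨f, hf, hfV⟩ := Submodule.exists_le_ker_of_lt_top _ (lt_top_iff_ne_top.2 hne)
  obtain ⟨u, hu⟩ : ∃ u : K, ∀ z : K, f z = Algebra.trace L K (u * z) := by
    refine ⟨((Algebra.traceForm L K).toDual (traceForm_nondegenerate L K)).symm f, fun z => ?_⟩
    have h1 := LinearMap.BilinForm.toDual_def (B := Algebra.traceForm L K)
      (traceForm_nondegenerate L K)
      (m := ((Algebra.traceForm L K).toDual (traceForm_nondegenerate L K)).symm f) (n := z)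
    rw [LinearEquiv.apply_symm_apply] at h1
    rw [h1, Algebra.traceForm_apply]
  have hu0 : u ≠ 0 := by
    rintro rfl
    apply hf
    ext z
    rw [hu, zero_mul, map_zero]
    rfl
  have hmem : u ∈ IntermediateField.adjoin L (Set.range (algebraMap E K)) := by
    have h1 : Set.range (algebraMap E K) = (E : Set K) := Subtype.range_coe
    rw [h1, hE]
    trivial
  obtain ⟨S, κ, hS, hSc, hκ, hsum⟩ := fTRS L E K (AlgebraicClosure L) u hu0 hmem
    (IsScalarTower.toAlgHom ℂ L (AlgebraicClosure L))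
  refine fINX M n k N D E (AlgebraicClosure L) x ω₀ hM hk hN hD h.one h.gen h.dim h.cut
    (adj_mono h.one hω hkm) S κ hS (fun ρ hρ => (hκ ρ hρ).1) (lt_of_le_of_lt hSc hd)
    fun P hP => ?_
  rw [← hsum]
  have h1 : Algebra.trace L K (algebraMap E K (aeval x P) * u) = 0 := by
    have h2 : algebraMap E K (aeval x P) = ∑ s ∈ P.support, algebraMap ℂ K (P.coeff s) *
        ∏ j, (x j : K) ^ s j := by
      rw [aeval_def, eval₂_eq', map_sum]
      refine Finset.sum_congr rfl fun s _ => ?_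
      rw [map_mul, map_prod, ← IsScalarTower.algebraMap_apply]
      congr 1
    rw [h2, Finset.sum_mul, map_sum]
    refine Finset.sum_eq_zero fun s hs => ?_
    have hsum : ∑ j, s j = k := by
      have h3 := hP (mem_support_iff.1 hs)
      rw [Finsupp.weight_apply, Finsupp.sum_fintype _ _ (fun i => by simp)] at h3
      simpa using h3
    have hle : ∀ j, s j < k + 1 := fun j => by
      have := Finset.single_le_sum (f := fun j => s j) (fun _ _ => Nat.zero_le _)
        (Finset.mem_univ j)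
      omega
    obtain ⟨s', hs'⟩ : ∃ s' : {s : Fin (M + 2) → Fin (k + 1) // ∑ j, (s j : ℕ) ≤ k},
        ∀ j, (s'.1 j : ℕ) = s j := ⟨⟨fun j => ⟨s j, hle j⟩, hsum.le⟩, fun j => rfl⟩
    have h3 : ∏ j, (x j : K) ^ s j = ((mon x k s' : E) : K) := by
      unfold mon
      change _ = E.val (∏ j, x j ^ (s'.1 j : ℕ))
      rw [map_prod]
      refine Finset.prod_congr rfl fun j _ => ?_
      rw [hs', map_pow]
      rfl
    have h4 : f ((mon x k s' : E) : K) = 0 := hfV (Submodule.subset_span ⟨s', rfl⟩)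
    rw [hu] at h4
    have h5 : algebraMap ℂ K (P.coeff s) * (∏ j, (x j : K) ^ s j) * u =
        algebraMap ℂ L (P.coeff s) • (u * ((mon x k s' : E) : K)) := by
      rw [h3, Algebra.smul_def, ← IsScalarTower.algebraMap_apply]
      ring
    rw [h5, map_smul, h4, smul_zero]
  rw [h1, map_zero]

/-- **The data for complete intersections.** -/
theorem ci_dat {S : IntermediateField ℂ K} {b : ℕ} (h : LowDegree n m D x) (hn : 1 ≤ n)
    (hM : 1 ≤ M) (hk : 7 * N + 4 ≤ k) (hN : (M + 1) * N < k + M + 2) (hD : D + N ≤ k + 2)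
    (hkm : 2 * k + 1 ≤ m) (hd : Module.finrank L K < (N + 1) * (k + 2 - N))
    (hE : IntermediateField.adjoin L (E : Set K) = ⊤) (hs : S ⊔ E = ⊤)
    (hb : Algebra.trdeg ℂ S = b) (hab : Algebra.trdeg ℂ K = (n + b : ℕ)) :
    ∃ (η : (Fin n → Derivation ℂ E E) → E) (g : Fin n → E),
      Dat L E S n b 1 η g (mon x k) := by
  classical
  obtain ⟨ω₀, hω⟩ := h.forms
  obtain ⟨f, -, hf, -⟩ := exists_crd (k := ℂ) h.dim
  obtain ⟨g, hg, hgi⟩ := Pool.Agent.L0h17.DN.exists_indep (k := ℂ) (K := E) (L := E)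
    (Set.range x) f hf.1 fun i => by
      rw [h.gen]
      exact isAlgebraic_algebraMap (⟨f i, trivial⟩ : (⊤ : IntermediateField ℂ E))
  choose σ hσ using hg
  refine ⟨ω₀, g, ⟨h.dim, hb, hab, hs, hn, le_rfl, hω.pl, hω.ne, hgi,
    mon_span h hM hk hN hD (by omega) hd hE, fun s P hP D hD => ?_⟩⟩
  have h1 := mon_reg h.one hω hkm s 0 (by omega) 0 hP hD
  rw [pow_zero, one_mul] at h1
  refine ⟨by rw [mul_one]; exact h1, fun j => ?_⟩
  have h2 := mon_reg h.one hω hkm s 1 le_rfl (σ j) hP hD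
  rw [pow_one, hσ] at h2
  rw [mul_one]
  exact h2

end

end Pool.Agent.L0h17.KU
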