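import Pool.Agent.L0h17.KU.Tn2

/-!
Transfer of sections: the count.
-/

set_option autoImplicit false
set_option linter.overlappingInstances false
set_option linter.unusedSectionVars false

open FF Polynomial Pool.Agent.W602.GT Pool.Agent.W603.LV Pool.Agent.W619.PQ Pool.Agent.Y172
open Pool.Agent.W619.TW (IsPairSec PairNumLe PairKodGe HasIndep)
open Pool.Agent.L0h17.DN

namespace Pool.Agent.L0h17.KU

section

variable {k L K : Type} [Field k] [CharZero k] [Field L] [Field K] [Algebra k L] [Algebra k K]
  [Algebra L K] [IsScalarTower k L K] [FiniteDimensional L K] {ι : Type}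

/-- the trace maps have large rank -/
theorem rank_trace [Fintype ι] [Nonempty ι] (a : Module.Basis ι L K)
    (V : Submodule k K) [FiniteDimensional k V] {x₀ : K} (hx₀ : x₀ ≠ 0) :
    ∃ (j : ι) (N : ℕ) (v : Fin N → V), Module.finrank k V ≤ Fintype.card ι * N ∧
      LinearIndependent k fun r => Algebra.trace L K (a j * (v r : K) / x₀) := by
  classical
  have hL0 : CharZero L := charZero_of_injective_algebraMap (algebraMap k L).injective
  let Ψ : ι → V →ₗ[k] L := fun j =>
    { toFun := fun v => Algebra.trace L K (a j * (v : K) / x₀)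
      map_add' := fun v w => by
        rw [← map_add]
        congr 1
        push_cast
        ring
      map_smul' := fun c v => by
        have h1 : a j * ((c • v : V) : K) / x₀ = algebraMap k L c • (a j * (v : K) / x₀) := by
          rw [SetLike.val_smul, Algebra.smul_def, Algebra.smul_def,
            ← IsScalarTower.algebraMap_apply]
          ring
        rw [h1, map_smul, RingHom.id_apply, smul_eq_mul, Algebra.smul_def c] }
  have hΨ : ∀ j v, Ψ j v = Algebra.trace L K (a j * (v : K) / x₀) := fun _ _ => rfl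
  let Θ : V →ₗ[k] ((j : ι) → LinearMap.range (Ψ j)) := LinearMap.pi fun j => (Ψ j).rangeRestrict
  have hinj : Function.Injective Θ := by
    rw [injective_iff_map_eq_zero]
    intro v hv
    have h1 : ∀ j, Algebra.trace L K (a j * ((v : K) / x₀)) = 0 := by
      intro j
      have h2 := congrFun hv j
      have h3 : Ψ j v = 0 := congrArg Subtype.val h2
      rw [hΨ, mul_div_assoc] at h3
      exact h3
    have h2 : (v : K) / x₀ = 0 := by
      refine (traceForm_nondegenerate L K).1 _ fun u => ?_
      rw [Algebra.traceForm_apply, ← a.sum_repr u, Finset.mul_sum, map_sum]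
      refine Finset.sum_eq_zero fun j _ => ?_
      rw [mul_smul_comm, map_smul, mul_comm, h1, smul_zero]
    have h3 := (div_eq_zero_iff.1 h2).resolve_right hx₀
    exact Subtype.ext h3
  have h1 := LinearMap.finrank_le_finrank_of_injective hinj
  rw [Module.finrank_pi_fintype] at h1
  obtain ⟨j, hj⟩ := Finite.exists_max fun j => Module.finrank k (LinearMap.range (Ψ j))
  have h2 : ∑ i, Module.finrank k (LinearMap.range (Ψ i)) ≤
      Fintype.card ι * Module.finrank k (LinearMap.range (Ψ j)) := by
    have h3 := Finset.sum_le_card_nsmul Finset.univ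
      (fun i => Module.finrank k (LinearMap.range (Ψ i))) _ fun i _ => hj i
    rwa [Finset.card_univ, smul_eq_mul] at h3
  obtain ⟨B, hB⟩ : ∃ B, B = Module.finBasis k (LinearMap.range (Ψ j)) := ⟨_, rfl⟩
  choose v hv using fun r => (B r).2
  refine ⟨j, _, v, h1.trans h2, ?_⟩
  have h3 := B.linearIndependent.map' (LinearMap.range (Ψ j)).subtype (Submodule.ker_subtype _)
  have h4 : (fun r => Algebra.trace L K (a j * (v r : K) / x₀)) =
      (LinearMap.range (Ψ j)).subtype ∘ B := by
    funext r
    exact hv r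
  rw [h4]
  exact h3

variable [Algebra.EssFiniteType k L] [Algebra.EssFiniteType k K] {n : ℕ}

/-- **Transfer of sections.** -/
theorem tn (hn : Algebra.trdeg k L = n) [Fintype ι] (a : Module.Basis ι L K)
    (δ : Place k L → ℚ) {z : Fin n → L} (hz : IsTranscendenceBasis k z) {S : Finset K}
    (hS : (1 : K) ∈ S) : ∃ T : Finset L, ∀ w, 1 ≤ w → ∀ V : Submodule k K,
      FiniteDimensional k V → V ≤ adm δ a (fun j => algebraMap L K (z j)) S hS w →
      ∃ N : ℕ, Module.finrank k V ≤ Module.finrank L K * N ∧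
        HasIndep k L n N (IsPairSec k L n δ T (w * Module.finrank L K) 1) := by
  classical
  have hcard := Module.finrank_eq_card_basis a
  have hpos : 0 < Module.finrank L K := Module.finrank_pos
  have hne : Nonempty ι := by
    rw [hcard] at hpos
    exact Fintype.card_pos_iff.1 hpos
  obtain ⟨T, hT1, hT0, hT⟩ := lower_fin (k := k) (L := L)
    (S ∪ Finset.image₂ (fun s j => s * a j) S Finset.univ)
  refine ⟨T.image (· ^ Module.finrank L K), fun w hw V hVf hV => ?_⟩
  by_cases hbot : V = ⊥
  · refine ⟨0, ?_, fun l => l.elim0, linearIndependent_empty_type, fun l => l.elim0⟩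
    rw [hbot, finrank_bot]
    omega
  obtain ⟨x₀, hx₀V, hx₀⟩ := (Submodule.ne_bot_iff _).1 hbot
  obtain ⟨j, N, v, hN, hli⟩ := rank_trace a V hx₀
  rw [hcard]
  refine ⟨N, hN, ?_⟩
  rw [← hcard]
  have hL0 : CharZero L := charZero_of_injective_algebraMap (algebraMap k L).injective
  have hc0 : Algebra.discr L a ^ w * Algebra.norm L x₀ ≠ 0 :=
    mul_ne_zero (pow_ne_zero _ (Algebra.discr_not_zero_of_basis L a)) (by
      rw [Ne, Algebra.norm_eq_zero_iff]
      exact hx₀)
  have hsec : ∀ r, IsPairSec k L n δ (T.image (· ^ Module.finrank L K))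
      (w * Module.finrank L K) 1 (cf z (w * Module.finrank L K) (Algebra.discr L a ^ w *
        (Algebra.norm L x₀ * Algebra.trace L K (a j * (v r : K) / x₀)))) := by
    intro r
    refine ⟨cf_pluri _ _ _, fun P hP G hG => ?_⟩
    obtain ⟨t, ht, h1⟩ := tn_ord hn a hS hw hx₀ (hV hx₀V) (hV (v r).2) (β := a j) (a.ne_zero j) hT1
      (fun Q s hs hs0 => ⟨hT Q s (Finset.mem_union_left _ hs) hs0,
        hT Q (s * a j) (Finset.mem_union_right _ (Finset.mem_image₂_of_mem hs
          (Finset.mem_univ j))) (mul_ne_zero hs0 (a.ne_zero j))⟩) hP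
    rcases h1 G hG with h2 | h2
    · exact Or.inl h2
    · refine Or.inr ⟨t ^ Module.finrank L K, Finset.mem_image_of_mem _ ht,
        pow_ne_zero _ (hT0 t ht), ?_⟩
      rw [Nat.cast_one, one_mul]
      exact h2
  refine ⟨fun r => cf z (w * Module.finrank L K) (Algebra.discr L a ^ w *
        (Algebra.norm L x₀ * Algebra.trace L K (a j * (v r : K) / x₀))), ?_, hsec⟩
  refine cf_indep hz _ ?_
  have h1 : (fun r => Algebra.discr L a ^ w *
      (Algebra.norm L x₀ * Algebra.trace L K (a j * (v r : K) / x₀))) =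
      fun r => (LinearMap.mulLeft k (Algebra.discr L a ^ w * Algebra.norm L x₀))
        (Algebra.trace L K (a j * (v r : K) / x₀)) := by
    funext r
    rw [LinearMap.mulLeft_apply, mul_assoc]
  rw [h1]
  refine hli.map' _ ?_
  rw [LinearMap.ker_eq_bot]
  intro u u' h
  exact mul_left_cancel₀ hc0 h

/-- **The numerical dimension of the image is at least that of `K_V - 2 A`.** -/
theorem num_low (hn : Algebra.trdeg k L = n) [Fintype ι] (a : Module.Basis ι L K)
    {δ : Place k L → ℚ} {z : Fin n → L} (hz : IsTranscendenceBasis k z) {h : ℕ}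
    (hnum : PairNumLe k L n δ h) {S : Finset K} (hS : (1 : K) ∈ S) : ∃ C : ℕ, ∀ w, 1 ≤ w →
      ∀ V : Submodule k K, FiniteDimensional k V →
        V ≤ adm δ a (fun j => algebraMap L K (z j)) S hS w → Module.finrank k V ≤ C * w ^ h := by
  obtain ⟨T, hT⟩ := tn hn a δ hz hS
  obtain ⟨C, hC⟩ := hnum T
  refine ⟨Module.finrank L K * (C * Module.finrank L K ^ h), fun w hw V hVf hV => ?_⟩
  obtain ⟨N, hN, hI⟩ := hT w hw V hVf hV
  have h1 := hC (w * Module.finrank L K) N (Nat.mul_pos hw Module.finrank_pos) hI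
  calc Module.finrank k V ≤ Module.finrank L K * N := hN
    _ ≤ Module.finrank L K * (C * (w * Module.finrank L K) ^ h) := Nat.mul_le_mul_left _ h1
    _ = _ := by rw [mul_pow]; ring

/-- the case `ν = -∞` -/
theorem neg_low (hn : Algebra.trdeg k L = n) [Fintype ι] (a : Module.Basis ι L K)
    {δ : Place k L → ℚ} {z : Fin n → L} (hz : IsTranscendenceBasis k z)
    (hneg : PairNumNeg k L n δ) {S : Finset K} (hS : (1 : K) ∈ S) : ∃ w₀ : ℕ, ∀ w, w₀ ≤ w →
      ∀ x ∈ adm δ a (fun j => algebraMap L K (z j)) S hS w, x = 0 := by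
  obtain ⟨T, hT⟩ := tn hn a δ hz hS
  obtain ⟨w₁, hw₁⟩ := hneg T
  refine ⟨max 1 w₁, fun w hw x hx => ?_⟩
  by_contra hx0
  have hw1 : 1 ≤ w := le_of_max_le_left hw
  obtain ⟨N, hN, ω, hω, hsec⟩ := hT w hw1 (Submodule.span k {x}) inferInstance (by
    rw [Submodule.span_singleton_le_iff_mem]
    exact hx)
  rw [finrank_span_singleton hx0] at hN
  have hN0 : 0 < N := by
    rcases Nat.eq_zero_or_pos N with h0 | h0
    · rw [h0] at hN
      omega
    · exact h0
  refine hw₁ (w * Module.finrank L K) ?_ ⟨fun _ => ω ⟨0, hN0⟩, ?_, fun _ => hsec _⟩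
  · calc w₁ ≤ w := le_of_max_le_right hw
      _ ≤ w * Module.finrank L K := Nat.le_mul_of_pos_right _ Module.finrank_pos
  · exact LinearIndependent.of_subsingleton (0 : Fin 1) (hω.ne_zero ⟨0, hN0⟩)

end

end Pool.Agent.L0h17.KU
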