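import Pool.Agent.L0h17.KU.Prd2
import Pool.Agent.L0h17.KU.Tn3

/-!
Products: independence, multipliers, and the adjustment of the weight.
-/

set_option autoImplicit false
set_option linter.overlappingInstances false
set_option linter.unusedSectionVars false

open FF IntermediateField Pool.Agent.W619.PQ Pool.Agent.W619.PL Pool.Agent.W619.TW
  Pool.Agent.W603.LV MvPolynomial Pool.Agent.Y172
open Pool.Agent.W602.GT (Divisorial RegAt IsPluri DerReg)

namespace Pool.Agent.L0h17.KU

section

variable {k K : Type} [Field k] [CharZero k] [Field K] [Algebra k K]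
  {M F : IntermediateField k K}

theorem indep_over (h : Pr M F) {q : ℕ} {r : Fin q → M} (hr : AlgebraicIndependent k r) :
    AlgebraicIndependent F fun j => (r j : K) := by
  classical
  have h1 := h.symm.ldr _ (linInd_mono hr)
  rw [algebraicIndependent_iff]
  intro p hp
  rw [MvPolynomial.aeval_def, MvPolynomial.eval₂_eq'] at hp
  have h2 := linearIndependent_iff'.1 h1 p.support (fun α => p.coeff α) (by
    rw [← hp]
    refine Finset.sum_congr rfl fun α _ => ?_
    rw [Algebra.smul_def]
    congr 1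
    change M.val (∏ i, r i ^ α i) = _
    rw [map_prod]
    refine Finset.prod_congr rfl fun i _ => ?_
    rw [map_pow]
    rfl)
  refine MvPolynomial.ext _ _ fun α => ?_
  rw [MvPolynomial.coeff_zero]
  by_cases hα : α ∈ p.support
  · exact h2 α hα
  · exact MvPolynomial.notMem_support_iff.1 hα

theorem indep_append (h : Pr M F) {a q : ℕ} {g : Fin a → F} (hg : AlgebraicIndependent k g)
    {r : Fin q → M} (hr : AlgebraicIndependent k r) :
    AlgebraicIndependent k (Fin.append (fun i => (g i : K)) fun j => (r j : K)) := by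
  have h1 := AlgebraicIndependent.sumElim_comp hg (indep_over h hr)
  have h2 := h1.comp (fun i : Fin (a + q) => Sum.swap (finSumFinEquiv.symm i))
    ((Sum.swap_leftInverse.injective).comp finSumFinEquiv.symm.injective)
  have h3 : (Fin.append (fun i => (g i : K)) fun j => (r j : K)) =
      (Sum.elim (fun j => (r j : K)) (algebraMap F K ∘ g)) ∘
        fun i : Fin (a + q) => Sum.swap (finSumFinEquiv.symm i) := by
    funext i
    refine Fin.addCases (fun i => ?_) (fun i => ?_) i
    · rw [Fin.append_left, Function.comp_apply, finSumFinEquiv_symm_apply_castAdd]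
      rfl
    · rw [Fin.append_right, Function.comp_apply, finSumFinEquiv_symm_apply_natAdd]
      rfl
  rw [h3]
  exact h2

theorem lin_mul (h : Pr M F) {κ ι : Type} {u : κ → F} {v : ι → M} (hu : LinearIndependent k u)
    (hv : LinearIndependent k v) :
    LinearIndependent k fun p : κ × ι => (u p.1 : K) * (v p.2 : K) :=
  h.symm.ld.linearIndependent_mul hu hv

end

section

variable {k K : Type} [Field k] [CharZero k] [Field K] [Algebra k K]

/-- products of multipliers -/
theorem mono_ge {P : Place k K} {p J a : ℕ} {c e : K} {g : Fin a → K}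
    (h0 : Ge P 0 (c ^ (2 * p) * e)) (hg : ∀ j, Ge P 0 (c ^ (2 * p) * (g j * e)))
    (γ : Fin a → ℕ) (hγ : ∑ i, γ i ≤ J) :
    Ge P 0 (c ^ (2 * (p * J)) * ((∏ i, g i ^ γ i) * e ^ J)) := by
  have h1 : c ^ (2 * (p * J)) * ((∏ i, g i ^ γ i) * e ^ J) =
      (c ^ (2 * p) * e) ^ (J - ∑ i, γ i) * ∏ i, (c ^ (2 * p) * (g i * e)) ^ γ i := by
    obtain ⟨r, hr⟩ : ∃ r, J = r + ∑ i, γ i := ⟨J - ∑ i, γ i, by omega⟩
    have h2 : J - ∑ i, γ i = r := by omega
    rw [h2]
    have h3 : ∏ i, (c ^ (2 * p) * (g i * e)) ^ γ i =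
        (c ^ (2 * p) * e) ^ (∑ i, γ i) * ∏ i, g i ^ γ i := by
      rw [← Finset.prod_pow_eq_pow_sum, ← Finset.prod_mul_distrib]
      refine Finset.prod_congr rfl fun i _ => ?_
      rw [← mul_pow]
      ring
    have h5 : (c ^ (2 * p) * e) ^ r * ((c ^ (2 * p) * e) ^ (∑ i, γ i) * ∏ i, g i ^ γ i) =
        (c ^ (2 * p) * e) ^ J * ∏ i, g i ^ γ i := by
      rw [← mul_assoc, ← pow_add, ← hr]
    rw [h3, h5, mul_pow, ← pow_mul, mul_assoc 2 p J]
    ring
  rw [h1]
  have h4 : ∀ s : Finset (Fin a), Ge P 0 (∏ i ∈ s, (c ^ (2 * p) * (g i * e)) ^ γ i) := by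
    classical
    intro s
    induction s using Finset.induction_on with
    | empty => right; rw [Finset.prod_empty, P.ord_one]
    | insert i s hi ih =>
      rw [Finset.prod_insert hi]
      have h5 := ((hg i).pow (γ i)).mul ih
      rwa [mul_zero, zero_add] at h5
  have h6 := (h0.pow (J - ∑ i, γ i)).mul (h4 Finset.univ)
  rwa [mul_zero, zero_add] at h6

variable {n : ℕ}

theorem ge_prod' {P : Place k K} {ι : Type} (s : Finset ι) {c : ι → ℤ} {f : ι → K}
    (h : ∀ i ∈ s, Ge P (c i) (f i)) : Ge P (∑ i ∈ s, c i) (∏ i ∈ s, f i) := by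
  classical
  induction s using Finset.induction_on with
  | empty =>
    right
    rw [Finset.prod_empty, P.ord_one]
    simp
  | insert a s ha ih =>
    rw [Finset.prod_insert ha, Finset.sum_insert ha]
    exact (h a (Finset.mem_insert_self _ _)).mul (ih fun i hi => h i (Finset.mem_insert_of_mem hi))

/-- the poles of a rational canonical form -/
theorem det_poles (t : Fin n → K) (ht : ∀ i, t i ≠ 0) : ∃ T : Finset K, ∀ P : Place k K,
    ∃ u ∈ T, u ≠ 0 ∧ P.ord u ≤ 0 ∧ ∀ D : Fin n → Derivation k K K, (∀ i, DerReg P (D i)) →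
      Ge P (P.ord u) (Matrix.of fun i j => D i (t j)).det := by
  classical
  refine ⟨Finset.univ.image fun B : Fin n → Bool => ∏ j, if B j then t j ^ 2 else 1,
    fun P => ?_⟩
  let B : Fin n → Bool := fun j => decide (P.ord (t j) < 0)
  have hs0 : ∀ j, (if B j then t j ^ 2 else 1 : K) ≠ 0 := by
    intro j
    split_ifs
    · exact pow_ne_zero _ (ht j)
    · exact one_ne_zero
  have hord : ∀ j, P.ord (if B j then t j ^ 2 else 1 : K) ≤ 0 := by
    intro j
    split_ifs with h
    · rw [P.ord_pow]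
      have h1 : P.ord (t j) < 0 := of_decide_eq_true h
      push_cast
      linarith
    · rw [P.ord_one]
  have hprod : P.ord (∏ j, if B j then t j ^ 2 else 1 : K) =
      ∑ j, P.ord (if B j then t j ^ 2 else 1 : K) := by
    have h1 : ∀ s : Finset (Fin n), (∏ j ∈ s, if B j then t j ^ 2 else 1 : K) ≠ 0 ∧
        P.ord (∏ j ∈ s, if B j then t j ^ 2 else 1 : K) =
        ∑ j ∈ s, P.ord (if B j then t j ^ 2 else 1 : K) := by
      intro s
      induction s using Finset.induction_on with
      | empty => exact ⟨by rw [Finset.prod_empty]; exact one_ne_zero,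
          by rw [Finset.prod_empty, Finset.sum_empty, P.ord_one]⟩
      | insert i s hi ih =>
        rw [Finset.prod_insert hi, Finset.sum_insert hi]
        exact ⟨mul_ne_zero (hs0 i) ih.1, by rw [P.ord_mul (hs0 i) ih.1, ih.2]⟩
    exact (h1 Finset.univ).2
  refine ⟨_, Finset.mem_image_of_mem _ (Finset.mem_univ B),
    Finset.prod_ne_zero_iff.2 fun j _ => hs0 j, ?_, fun D hD => ?_⟩
  · rw [hprod]
    exact Finset.sum_nonpos fun j _ => hord j
  · have hent : ∀ i j, Ge P (P.ord (if B j then t j ^ 2 else 1 : K)) (D i (t j)) := by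
      intro i j
      by_cases h : P.ord (t j) < 0
      · have h1 : B j = true := decide_eq_true h
        rw [if_pos h1, P.ord_pow]
        refine (ge_der_reg (hD i) (t j)).mono ?_
        push_cast
        omega
      · have h1 : ¬ (B j = true) := fun h2 => h (of_decide_eq_true h2)
        rw [if_neg h1, P.ord_one]
        exact hD i (t j) (Or.inr (not_lt.1 h))
    rw [hprod, Matrix.det_apply]
    refine Ge.sum _ _ fun σ _ => ?_
    have h1 : Ge P (∑ j, P.ord (if B j then t j ^ 2 else 1 : K))
        (∏ j, (Matrix.of fun i j => D i (t j)) (σ j) j) :=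
      ge_prod' Finset.univ fun j _ => hent (σ j) j
    rcases Int.units_eq_one_or (Equiv.Perm.sign σ) with h | h
    · rw [h, one_smul]
      exact h1
    · rw [h, Units.neg_smul, one_smul]
      exact h1.neg

/-- the adjustment of the weight -/
theorem adjust {t : Fin n → K} (ht : IsTranscendenceBasis k t) {E : Fin n → Derivation k K K}
    (hE : ∀ i j, E i (t j) = if i = j then 1 else 0) (S : Finset K) (q : ℕ) :
    ∃ S' : Finset K, (1 : K) ∈ S' ∧ ∀ (m r : ℕ), r ≤ q →
      ∀ ω : (Fin n → Derivation k K K) → K, IsSec k K n (fun _ => False) S m 1 ω →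
        IsSec k K n (fun _ => False) S' (m + r) 1 (cf (k := k) t (m + r) (ω E)) := by
  classical
  obtain ⟨T, hT⟩ := det_poles (k := k) t fun i => ht.1.ne_zero i
  refine ⟨insert 1 (Finset.image₂ (fun s u => s * u ^ q) (insert 1 S) T),
    Finset.mem_insert_self _ _, fun m r hr ω hω => ⟨cf_pluri _ _ _, fun P hP _ D hD => ?_,
      fun v _ h => absurd h (fun h => h)⟩⟩
  obtain ⟨u, hu, hu0, huP, hdet⟩ := hT P
  have h1 : cf (k := k) t (m + r) (ω E) D = ω D * (Matrix.of fun i j => D i (t j)).det ^ r := by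
    have h2 : ω D = cf t m (ω E) D := congrFun (cf_of ht hE (w := m) hω.1) D
    rw [h2]
    unfold cf
    rw [pow_add]
    ring
  rw [h1]
  obtain ⟨s, hs, hs0, h3⟩ : ∃ s ∈ insert 1 S, s ≠ 0 ∧ Ge P (P.ord s) (ω D) := by
    rcases hω.2.1 P hP (fun h => h) D hD with h | ⟨s, hs, hs0, h⟩
    · exact ⟨1, Finset.mem_insert_self _ _, one_ne_zero, Or.inl h⟩
    · refine ⟨s, Finset.mem_insert_of_mem hs, hs0, Or.inr ?_⟩
      push_cast at h
      linarith
  have h4 := h3.mul ((hdet D hD).pow r)
  rcases h4 with h4 | h4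
  · exact Or.inl h4
  · refine Or.inr ⟨s * u ^ q, Finset.mem_insert_of_mem (Finset.mem_image₂_of_mem hs hu),
      mul_ne_zero hs0 (pow_ne_zero _ hu0), ?_⟩
    rw [P.ord_mul hs0 (pow_ne_zero _ hu0), P.ord_pow]
    have h5 : (r : ℤ) ≤ q := by exact_mod_cast hr
    have h6 : (q : ℤ) * P.ord u ≤ r * P.ord u := mul_le_mul_of_nonpos_right h5 huP
    push_cast
    linarith

end

end Pool.Agent.L0h17.KU
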