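import Pool.Agent.W619.TW.Cur
import Pool.Agent.Y172.Alg
import Mathlib.FieldTheory.LinearDisjoint

/-!
Two function fields over an algebraically closed field `k` which generate `K` and have independent
transcendence bases are linearly disjoint over `k`.
-/

set_option autoImplicit false
set_option linter.overlappingInstances false
set_option linter.unusedSectionVars false

open scoped TensorProduct
open Module

namespace Pool.Agent.L0h17.KU

section

variable {k A B : Type} [Field k] [IsAlgClosed k] [Field A] [Field B] [Algebra k A] [Algebra k B]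

/-- Specialization of a finitely generated algebra. -/
theorem exists_spec (S : Finset A) :
    Nonempty (Algebra.adjoin k (S : Set A) →ₐ[k] k) := by
  have hft : Algebra.FiniteType k (Algebra.adjoin k (S : Set A)) :=
    (Subalgebra.fg_iff_finiteType _).1 (Subalgebra.fg_adjoin_finset S)
  obtain ⟨m, hm⟩ := Ideal.exists_maximal (Algebra.adjoin k (S : Set A))
  let := Ideal.Quotient.field m
  have hfin : Module.Finite k (Algebra.adjoin k (S : Set A) ⧸ m) :=
    finite_of_finite_type_of_isJacobsonRing k _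
  have hb : Function.Bijective (algebraMap k (Algebra.adjoin k (S : Set A) ⧸ m)) :=
    IsAlgClosed.algebraMap_bijective_of_isIntegral
  let e : k ≃ₐ[k] (Algebra.adjoin k (S : Set A) ⧸ m) :=
    AlgEquiv.ofBijective (Algebra.ofId k _) hb
  exact ⟨AlgHom.comp (AlgEquiv.toAlgHom e.symm) (Ideal.Quotient.mkₐ k m)⟩

/-- The tensor product of two fields over an algebraically closed field has no zero divisors. -/
theorem tensor_nzd (x x' : A ⊗[k] B) (hx : x ≠ 0) (hx' : x' ≠ 0) : x * x' ≠ 0 := by
  classical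
  intro hxx
  let b := Module.Basis.ofVectorSpace k B
  let bA := Algebra.TensorProduct.basis A b
  obtain ⟨i, hi⟩ : ∃ i, bA.repr x i ≠ 0 := by
    by_contra hcon
    push Not at hcon
    exact hx (bA.repr.map_eq_zero_iff.1 (Finsupp.ext hcon))
  obtain ⟨i', hi'⟩ : ∃ i, bA.repr x' i ≠ 0 := by
    by_contra hcon
    push Not at hcon
    exact hx' (bA.repr.map_eq_zero_iff.1 (Finsupp.ext hcon))
  set S : Finset A := (bA.repr x).support.image (bA.repr x) ∪
    (bA.repr x').support.image (bA.repr x') ∪ {(bA.repr x i)⁻¹, (bA.repr x' i')⁻¹} with hS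
  let R := Algebra.adjoin k (S : Set A)
  have hmem : ∀ j, bA.repr x j ∈ R := by
    intro j
    by_cases h0 : bA.repr x j = 0
    · rw [h0]; exact zero_mem _
    · refine Algebra.subset_adjoin (Finset.mem_coe.2 ?_)
      rw [hS]
      refine Finset.mem_union_left _ (Finset.mem_union_left _ ?_)
      exact Finset.mem_image_of_mem _ (Finsupp.mem_support_iff.2 h0)
  have hmem' : ∀ j, bA.repr x' j ∈ R := by
    intro j
    by_cases h0 : bA.repr x' j = 0
    · rw [h0]; exact zero_mem _
    · refine Algebra.subset_adjoin (Finset.mem_coe.2 ?_)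
      rw [hS]
      refine Finset.mem_union_left _ (Finset.mem_union_right _ ?_)
      exact Finset.mem_image_of_mem _ (Finsupp.mem_support_iff.2 h0)
  have hinv : (bA.repr x i)⁻¹ ∈ R := by
    refine Algebra.subset_adjoin (Finset.mem_coe.2 ?_)
    rw [hS]
    exact Finset.mem_union_right _ (Finset.mem_insert_self _ _)
  have hinv' : (bA.repr x' i')⁻¹ ∈ R := by
    refine Algebra.subset_adjoin (Finset.mem_coe.2 ?_)
    rw [hS]
    exact Finset.mem_union_right _ (Finset.mem_insert_of_mem (Finset.mem_singleton_self _))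
  obtain ⟨φ⟩ := exists_spec (k := k) S
  -- lifts to the subring
  let X : R ⊗[k] B := ∑ j ∈ (bA.repr x).support, (⟨bA.repr x j, hmem j⟩ : R) ⊗ₜ[k] b j
  let X' : R ⊗[k] B := ∑ j ∈ (bA.repr x').support, (⟨bA.repr x' j, hmem' j⟩ : R) ⊗ₜ[k] b j
  let ι : R ⊗[k] B →ₐ[k] A ⊗[k] B := Algebra.TensorProduct.map R.val (AlgHom.id k B)
  have hι : Function.Injective ι := by
    have h1 := Module.Flat.rTensor_preserves_injective_linearMap (M := B) R.val.toLinearMap
      Subtype.val_injective
    exact h1
  have hexp : ∀ z : A ⊗[k] B, z = ∑ j ∈ (bA.repr z).support, (bA.repr z j) ⊗ₜ[k] b j := by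
    intro z
    conv_lhs => rw [← bA.linearCombination_repr z, Finsupp.linearCombination_apply, Finsupp.sum]
    refine Finset.sum_congr rfl fun j _ => ?_
    rw [Algebra.TensorProduct.basis_apply, TensorProduct.smul_tmul', smul_eq_mul, mul_one]
  have hX : ι X = x := by
    rw [map_sum]
    exact (hexp x).symm
  have hX' : ι X' = x' := by
    rw [map_sum]
    exact (hexp x').symm
  have hXX : X * X' = 0 := by
    apply hι
    rw [map_mul, hX, hX', hxx, map_zero]
  -- specialize
  let ψ : R ⊗[k] B →ₐ[k] B := Algebra.TensorProduct.lift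
    ((Algebra.ofId k B).comp φ) (AlgHom.id k B) (fun _ _ => Commute.all _ _)
  have hψ : ∀ (r : R) (c : B), ψ (r ⊗ₜ[k] c) = φ r • c := by
    intro r c
    show algebraMap k B (φ r) * c = _
    rw [Algebra.smul_def]
  have h0 : ψ X * ψ X' = 0 := by rw [← map_mul, hXX, map_zero]
  have hne : ∀ (s : Finset _) (f : _ → R) (i0 : _), i0 ∈ s → φ (f i0) ≠ 0 →
      ψ (∑ j ∈ s, f j ⊗ₜ[k] b j) ≠ 0 := by
    intro s f i0 hi0 hφ h
    rw [map_sum] at h
    simp only [hψ] at h
    exact hφ (linearIndependent_iff'.1 b.linearIndependent s _ h i0 hi0)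
  have hu : ∀ (a : A) (ha : a ∈ R) (_ : a⁻¹ ∈ R), a ≠ 0 → φ ⟨a, ha⟩ ≠ 0 := by
    intro a ha ha' h0 hc
    have h1 : (⟨a, ha⟩ : R) * ⟨a⁻¹, ha'⟩ = 1 := Subtype.ext (mul_inv_cancel₀ h0)
    have h2 := congrArg φ h1
    rw [map_mul, hc, zero_mul, map_one] at h2
    exact zero_ne_one h2
  rcases mul_eq_zero.1 h0 with h | h
  · exact hne _ (fun j => ⟨bA.repr x j, hmem j⟩) i (Finsupp.mem_support_iff.2 hi)
      (hu _ (hmem i) hinv hi) h
  · exact hne _ (fun j => ⟨bA.repr x' j, hmem' j⟩) i' (Finsupp.mem_support_iff.2 hi')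
      (hu _ (hmem' i') hinv' hi') h

end

section

variable {k A1 A2 B K : Type} [Field k] [Field A1] [Field A2] [CommRing B] [IsDomain B] [Field K]
  [Algebra k A1] [Algebra k A2] [Algebra k B] [Algebra k K]

theorem alg_of {κ : Type} {t : κ → A1} (ht : IsTranscendenceBasis k t) (g1 : A1 →ₐ[k] B)
    (A0 : Subalgebra k B) (h : ∀ i, g1 (t i) ∈ A0) (m : A1) : IsAlgebraic A0 (g1 m) := by
  have h1 := ht.isAlgebraic.isAlgebraic m
  have hle : Algebra.adjoin k (Set.range t) ≤ A0.comap g1 := by
    refine Algebra.adjoin_le_iff.2 ?_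
    rintro _ ⟨i, rfl⟩
    exact h i
  let j : Algebra.adjoin k (Set.range t) →ₐ[k] A0 :=
    (g1.comp (Algebra.adjoin k (Set.range t)).val).codRestrict A0 (fun z => hle z.2)
  refine h1.ringHom_of_comp_eq (j : _ →+* _) (g1 : A1 →+* B) ?_ rfl
  intro a b hab
  have h3 : g1 (a : A1) = g1 (b : A1) := congrArg Subtype.val hab
  exact Subtype.ext ((RingHom.injective (g1 : A1 →+* B)) h3)

theorem inj_of {ι κ : Type} {t : ι → A1} {y : κ → A2} (ht : IsTranscendenceBasis k t)
    (hy : IsTranscendenceBasis k y) (g1 : A1 →ₐ[k] B) (g2 : A2 →ₐ[k] B)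
    (hgen : ∀ S : Subalgebra k B, (∀ a, g1 a ∈ S) → (∀ a, g2 a ∈ S) → ∀ b, b ∈ S)
    (μ : B →ₐ[k] K)
    (h : AlgebraicIndependent k (Sum.elim (fun i => μ (g1 (t i))) fun j => μ (g2 (y j)))) :
    Function.Injective μ := by
  classical
  rw [injective_iff_map_eq_zero]
  intro x hx
  by_contra hx0
  let g : ι ⊕ κ → B := Sum.elim (fun i => g1 (t i)) fun j => g2 (y j)
  let A0 := Algebra.adjoin k (Set.range g)
  have hμg : ∀ i, μ (g i) = Sum.elim (fun i => μ (g1 (t i))) (fun j => μ (g2 (y j))) i := by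
    rintro (i | j) <;> rfl
  have hinj : ∀ c ∈ A0, μ c = 0 → c = 0 := by
    intro c hc h0
    have hc' : c ∈ (MvPolynomial.aeval (R := k) g).range := by
      rw [← Algebra.adjoin_range_eq_range_aeval]; exact hc
    obtain ⟨P, rfl⟩ := hc'
    have h1 : μ (MvPolynomial.aeval g P) = MvPolynomial.aeval (Sum.elim (fun i => μ (g1 (t i)))
        fun j => μ (g2 (y j))) P := by
      rw [← AlgHom.comp_apply, MvPolynomial.comp_aeval]
      congr 1
      congr 1
      funext i
      exact hμg i
    have h2 : P = 0 := by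
      apply h
      rw [map_zero]
      rw [← h1]
      exact h0
    show MvPolynomial.aeval g P = 0
    rw [h2, map_zero]
  have hM : ∀ m : A1, IsAlgebraic A0 (g1 m) := alg_of ht g1 A0 fun i =>
    Algebra.subset_adjoin ⟨Sum.inl i, rfl⟩
  have hF : ∀ m : A2, IsAlgebraic A0 (g2 m) := alg_of hy g2 A0 fun i =>
    Algebra.subset_adjoin ⟨Sum.inr i, rfl⟩
  have hall : ∀ z : B, IsAlgebraic A0 z := fun z =>
    hgen ((Subalgebra.algebraicClosure A0 B).restrictScalars k) hM hF z
  obtain ⟨q, hq0, hq⟩ := (hall x).exists_nonzero_coeff_and_aeval_eq_zero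
    (mem_nonZeroDivisors_of_ne_zero hx0)
  have h1 : μ (Polynomial.aeval x q) = 0 := by rw [hq, map_zero]
  rw [Polynomial.aeval_eq_sum_range, map_sum, Finset.sum_range_succ'] at h1
  have h2 : ∀ i, μ (q.coeff (i + 1) • x ^ (i + 1)) = 0 := by
    intro i
    rw [Algebra.smul_def, map_mul, map_pow, hx, pow_succ, mul_zero, mul_zero]
  rw [Finset.sum_eq_zero (fun i _ => h2 i), zero_add, pow_zero, Algebra.smul_def, mul_one] at h1
  exact hq0 (Subtype.ext (hinj _ (q.coeff 0).2 h1))

end

section

variable {k K : Type} [Field k] [IsAlgClosed k] [Field K] [Algebra k K]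
  {M F : IntermediateField k K}

open IntermediateField

/-- Fields with independent transcendence bases are linearly disjoint. -/
theorem linDisjoint_of {ι κ : Type} {t : ι → M} {y : κ → F} (ht : IsTranscendenceBasis k t)
    (hy : IsTranscendenceBasis k y)
    (h : AlgebraicIndependent k (Sum.elim (fun i => (t i : K)) fun j => (y j : K))) :
    M.LinearDisjoint F := by
  classical
  rw [linearDisjoint_iff', Subalgebra.linearDisjoint_iff_injective]
  have hnz : NoZeroDivisors (M ⊗[k] F) := ⟨fun {a b} hab => by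
    by_contra hcon
    push Not at hcon
    exact tensor_nzd a b hcon.1 hcon.2 hab⟩
  have hdom : IsDomain (M ⊗[k] F) := NoZeroDivisors.to_isDomain (M ⊗[k] F)
  refine inj_of (B := M ⊗[k] F) ht hy Algebra.TensorProduct.includeLeft
    Algebra.TensorProduct.includeRight ?_ (M.toSubalgebra.mulMap F.toSubalgebra) ?_
  · intro S h1 h2 b
    induction b using TensorProduct.induction_on with
    | zero => exact zero_mem _
    | add a b ha hb => exact add_mem ha hb
    | tmul m f =>
      have h3 := mul_mem (h1 m) (h2 f)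
      simpa using h3
  · have h4 : (Sum.elim (fun i => (t i : K)) fun j => (y j : K)) =
      (Sum.elim (fun i => (M.toSubalgebra.mulMap F.toSubalgebra)
          ((Algebra.TensorProduct.includeLeft : M →ₐ[k] M ⊗[k] F) (t i)))
        fun j => (M.toSubalgebra.mulMap F.toSubalgebra)
          ((Algebra.TensorProduct.includeRight : F →ₐ[k] M ⊗[k] F) (y j))) := by
      funext i
      rcases i with i | j
      · show (t i : K) = (t i : K) * ((1 : F) : K)
        simp
      · show (y j : K) = ((1 : M) : K) * (y j : K)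
        simp
    rw [← h4]
    exact h

end

end Pool.Agent.L0h17.KU
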