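import Pool.Agent.L0h17.KU.Pt1
import Pool.Agent.L0h17.KU.Ld

/-!
Products: the set-up.
-/

set_option autoImplicit false
set_option linter.overlappingInstances false
set_option linter.unusedSectionVars false

open FF IntermediateField Pool.Agent.W619.PQ Pool.Agent.W619.PL Pool.Agent.W619.TW
  Pool.Agent.W603.LV MvPolynomial Pool.Agent.Y172
open Pool.Agent.W602.GT (Divisorial RegAt IsPluri DerReg)

namespace Pool.Agent.L0h17.KU

section

variable {k K : Type} [Field k] [CharZero k] [Field K] [Algebra k K]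
  {M F : IntermediateField k K} {a b : ℕ}

/-- a basis of the product -/
theorem zz_basis (hab : Algebra.trdeg k K = (a + b : ℕ)) (hs : M ⊔ F = ⊤) {y : Fin a → F}
    (hy : IsTranscendenceBasis k y) {t : Fin b → M} (ht : IsTranscendenceBasis k t) :
    IsTranscendenceBasis k (ZZ y t) := by
  classical
  obtain ⟨f, -, hf, -⟩ := exists_crd (k := k) hab
  obtain ⟨S, hS⟩ : ∃ S : Set K, S = Set.range (ZZ y t) := ⟨_, rfl⟩
  obtain ⟨A0, hA0⟩ : ∃ A0, A0 = IntermediateField.adjoin k S := ⟨_, rfl⟩
  have hmem : ∀ i, ZZ y t i ∈ A0 := fun i => by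
    rw [hA0, hS]
    exact IntermediateField.subset_adjoin _ _ ⟨i, rfl⟩
  have hF : ∀ x : F, IsAlgebraic A0 (x : K) := by
    intro x
    refine alg_of hy F.val A0.toSubalgebra (fun i => ?_) x
    have h1 := hmem (Fin.castAdd b i)
    rw [ZZ_left] at h1
    exact h1
  have hM : ∀ x : M, IsAlgebraic A0 (x : K) := by
    intro x
    refine alg_of ht M.val A0.toSubalgebra (fun i => ?_) x
    have h1 := hmem (Fin.natAdd a i)
    rw [ZZ_right] at h1
    exact h1
  have hall : ∀ x : K, IsAlgebraic A0 x := by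
    have h1 : (⊤ : IntermediateField k K) ≤ (algebraicClosure A0 K).restrictScalars k := by
      rw [← hs, sup_le_iff]
      constructor
      · intro x hx
        exact mem_algebraicClosure_iff.2 (hM ⟨x, hx⟩)
      · intro x hx
        exact mem_algebraicClosure_iff.2 (hF ⟨x, hx⟩)
    intro x
    exact mem_algebraicClosure_iff.1 (h1 (show x ∈ (⊤ : IntermediateField k K) from trivial))
  obtain ⟨b', hb'S, hb'⟩ := Pool.Agent.L0h17.DN.exists_indep (k := k) (K := K) (L := K) S f hf.1
    (fun i => by rw [← hA0]; exact hall _)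
  rw [hS] at hb'S
  choose σ hσ using hb'S
  have hinj : Function.Injective σ := by
    intro i j hij
    refine hb'.injective ?_
    rw [← hσ i, ← hσ j, hij]
  have hbij := Finite.injective_iff_bijective.1 hinj
  let e := Equiv.ofBijective σ hbij
  have hind : AlgebraicIndependent k (ZZ y t) := by
    have h1 := hb'.comp e.symm e.symm.injective
    have h2 : b' ∘ e.symm = ZZ y t := by
      funext i
      rw [Function.comp_apply, ← hσ]
      exact congrArg (ZZ y t) (e.apply_symm_apply i)
    rwa [h2] at h1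
  rw [hind.isTranscendenceBasis_iff_isAlgebraic]
  rw [← IntermediateField.isAlgebraic_adjoin_iff_top]
  rw [hS] at hA0
  rw [← hA0]
  exact ⟨fun x => hall x⟩

/-- the set-up for products -/
theorem setup [IsAlgClosed k] (ha : Algebra.trdeg k F = a) (hb : Algebra.trdeg k M = b)
    (hab : Algebra.trdeg k K = (a + b : ℕ)) (hs : M ⊔ F = ⊤) :
    ∃ (y : Fin a → F) (t : Fin b → M) (Ey : Fin a → Derivation k K K)
      (Et : Fin b → Derivation k K K), IsTranscendenceBasis k (ZZ y t) ∧ Frm M F y t Ey Et ∧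
        Pr M F := by
  obtain ⟨y, -, hy, -⟩ := exists_crd (k := k) ha
  obtain ⟨t, -, ht, -⟩ := exists_crd (k := k) hb
  have hZ := zz_basis hab hs hy ht
  obtain ⟨E, hE⟩ := Pool.Agent.Y173.QA.exists_duals hZ
  have h1 : AlgebraicIndependent k (Sum.elim (fun i => (t i : K)) fun j => (y j : K)) := by
    have h2 := hZ.1.comp (fun i : Fin b ⊕ Fin a => finSumFinEquiv (Sum.swap i))
      (finSumFinEquiv.injective.comp (Sum.swap_leftInverse.injective))
    have h3 : (ZZ y t) ∘ (fun i : Fin b ⊕ Fin a => finSumFinEquiv (Sum.swap i)) =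
        Sum.elim (fun i => (t i : K)) fun j => (y j : K) := by
      funext i
      rcases i with i | i
      · exact ZZ_right i
      · exact ZZ_left i
    rwa [h3] at h2
  refine ⟨y, t, fun i => E (Fin.castAdd b i), fun j => E (Fin.natAdd a j), hZ,
    ⟨ht, hy, fun i j => ?_, fun i j => ?_, fun i j => ?_, fun i j => ?_⟩,
    ⟨linDisjoint_of ht hy h1, hs⟩⟩
  · have h2 := hE (Fin.castAdd b i) (Fin.castAdd b j)
    rw [ZZ_left] at h2
    rw [h2]
    simp
  · have h2 := hE (Fin.castAdd b i) (Fin.natAdd a j)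
    rw [ZZ_right] at h2
    rw [h2, if_neg (castAdd_ne i j)]
  · have h2 := hE (Fin.natAdd a i) (Fin.castAdd b j)
    rw [ZZ_left] at h2
    rw [h2, if_neg (castAdd_ne j i).symm]
  · have h2 := hE (Fin.natAdd a i) (Fin.natAdd a j)
    rw [ZZ_right] at h2
    rw [h2]
    simp

end

end Pool.Agent.L0h17.KU
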