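import Pool.Agent.L0h17.KU.Mix3
import Pool.Agent.W735.PG.DESCJ

/-!
Sections of `m K + j A` on a product and their components.
-/

set_option autoImplicit false
set_option linter.overlappingInstances false
set_option linter.unusedSectionVars false

open FF IntermediateField Pool.Agent.W619.PQ Pool.Agent.W619.PL Pool.Agent.W619.TW
  Pool.Agent.W603.LV Pool.Agent.Y173.QA MvPolynomial Pool.Agent.TH122.AB

namespace Pool.Agent.L0h17.KU

section

variable {k K : Type} [Field k] [CharZero k] [Field K] [Algebra k K]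
  {M F : IntermediateField k K} {a b : ℕ}
  {y : Fin a → F} {t : Fin b → M} {Ey : Fin a → Derivation k K K}
  {Et : Fin b → Derivation k K K}

/-- the frame of the product -/
def fr (Ey : Fin a → Derivation k K K) (Et : Fin b → Derivation k K K) :
    Fin (a + b) → Derivation k K K := Fin.append Ey Et

theorem Frm.ring' (f : Frm M F y t Ey Et) (i : Fin a) {z : K} (hz : z ∈ RR M F) :
    Ey i z ∈ RR M F := RR.swap (f.symm.ring i (RR.swap hz))

theorem fr_dual (f : Frm M F y t Ey Et) (i j : Fin (a + b)) :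
    fr Ey Et i (ZZ y t j) = if i = j then 1 else 0 := by
  refine Fin.addCases (fun i => ?_) (fun i => ?_) i <;>
    refine Fin.addCases (fun j => ?_) (fun j => ?_) j
  · rw [ZZ_left]
    show Fin.append Ey Et _ _ = _
    rw [Fin.append_left, f.yy]
    by_cases h : i = j
    · subst h; simp
    · rw [if_neg h, if_neg fun h' => h (Fin.castAdd_injective a b h')]
  · rw [ZZ_right]
    show Fin.append Ey Et _ _ = _
    rw [Fin.append_left, f.yt, if_neg (castAdd_ne i j)]
  · rw [ZZ_left]
    show Fin.append Ey Et _ _ = _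
    rw [Fin.append_right, f.ty, if_neg fun h => castAdd_ne j i h.symm]
  · rw [ZZ_right]
    show Fin.append Ey Et _ _ = _
    rw [Fin.append_right, f.tt]
    by_cases h : i = j
    · subst h; simp
    · rw [if_neg h, if_neg fun h' => h (Fin.natAdd_injective b a h')]

variable (h : Pr M F) (f : Frm M F y t Ey Et) (hZ : IsTranscendenceBasis k (ZZ y t))
  (hfd : FiniteDimensional (IntermediateField.adjoin k (Set.range (ZZ y t))) K)

include h f hZ hfd in
theorem dom_mx {S : Finset K} {m j : ℕ} {ω : (Fin (a + b) → Derivation k K K) → K}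
    (hω : IsSec k K (a + b) (fun _ => False) S m j ω)
    {p : MvPolynomial (Fin (a + b)) k} (hp : Irreducible p) (hm : Mx p)
    {P : Place k K} (hP : Adic (ZZ y t) p P) : Dom P S j (ω (fr Ey Et)) := by
  refine hω.2.1 P (adic_div hZ.1 hp hP) (fun h => h) _ fun l => ?_
  refine Fin.addCases (fun i => ?_) (fun i => ?_) l
  · show Pres P (Fin.append Ey Et _)
    rw [Fin.append_left]
    exact pres_mx' h f hZ hfd hp hm hP fun _ hz => f.ring' i hz
  · show Pres P (Fin.append Ey Et _)
    rw [Fin.append_right]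
    exact pres_mx h f hZ hfd hp hm hP i

/-- After multiplication by a fixed function the values of the sections on the frame are sums of
products of functions on the factors. -/
theorem sec_mem [IsAlgClosed k] (h : Pr M F) (f : Frm M F y t Ey Et)
    (hZ : IsTranscendenceBasis k (ZZ y t))
    (hfd : FiniteDimensional (IntermediateField.adjoin k (Set.range (ZZ y t))) K) (S : Finset K) :
    ∃ c : K, c ≠ 0 ∧ (∀ j : ℕ, j = 0 → c ^ j = 1) ∧
      ∀ (m j : ℕ) (ω : (Fin (a + b) → Derivation k K K) → K),
      IsSec k K (a + b) (fun _ => False) S m j ω → c ^ j * ω (fr Ey Et) ∈ RR M F := by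
  obtain ⟨c, hc, hc0, hcS⟩ := exists_den h S
  refine ⟨c, hc0, fun j hj => by rw [hj, pow_zero], fun m j ω hω => ?_⟩
  refine good_mem h f hZ hfd fun p hp hm P hP => ?_
  rcases dom_mx h f hZ hfd hω hp hm hP with h1 | ⟨s, hs, hs0, h1⟩
  · rw [h1, mul_zero]; exact P.reg_zero
  · by_cases h0 : ω (fr Ey Et) = 0
    · rw [h0, mul_zero]; exact P.reg_zero
    right
    have h2 : P.Reg (c * s) := ring_reg f hm hP (hcS s hs)
    have h3 := h2.resolve_left (mul_ne_zero hc0 hs0)
    rw [P.ord_mul hc0 hs0] at h3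
    rw [P.ord_mul (pow_ne_zero _ hc0) h0, P.ord_pow]
    have h4 : (0 : ℤ) ≤ j * (P.ord c + P.ord s) := mul_nonneg (by positivity) h3
    rw [mul_add] at h4
    linarith

/-- The order of a function along the Gauss extensions is at least the order of one of finitely
many functions. -/
theorem exists_lower [IsAlgClosed k] (h : Pr M F) {z : K} (hz : z ≠ 0) : ∃ T : Finset M,
    ∀ u : Place k M, ∃ s ∈ T, s ≠ 0 ∧ u.ord s ≤ (UU h u).ord z := by
  classical
  obtain ⟨r, hr, s, hs, hs0, rfl⟩ := h.frac z
  have hr0 : r ≠ 0 := by rintro rfl; exact hz (zero_div _)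
  let bF := Module.Basis.ofVectorSpace k F
  obtain ⟨I, μ, hI⟩ := RR.expand (RR.swap hr)
  obtain ⟨J, ν, hJ⟩ := RR.expand (RR.swap hs)
  obtain ⟨j0, hj0, hj0'⟩ : ∃ j ∈ J, ν j ≠ 0 := by
    by_contra hcon
    push Not at hcon
    apply hs0
    rw [hJ]
    refine Finset.sum_eq_zero fun i hi => ?_
    rw [hcon i hi]; simp
  refine ⟨(I.filter fun i => μ i ≠ 0).image fun i => μ i / ν j0, fun u => ?_⟩
  have h1 : (UU h u).ord s ≤ u.ord (ν j0) := by
    have h2 : Ge (UU h u) ((UU h u).ord s) (∑ j ∈ J, (bF j : K) * (ν j : K)) := by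
      rw [← hJ]; exact Or.inr le_rfl
    have h3 := UU_fin h u J bF ν _ bF.linearIndependent h2 j0 hj0
    exact h3.resolve_left hj0'
  obtain ⟨i0, hi0, hi0'⟩ : ∃ i ∈ I.filter fun i => μ i ≠ 0, u.ord (μ i) ≤ (UU h u).ord r := by
    by_contra hcon
    push Not at hcon
    have h2 : Ge (UU h u) ((UU h u).ord r + 1) r := by
      conv_rhs => rw [hI]
      refine Ge.sum _ _ fun i hi => ?_
      by_cases h0 : μ i = 0
      · left; rw [h0]; simp
      · have h3 := hcon i (Finset.mem_filter.2 ⟨hi, h0⟩)
        have h4 : Ge (UU h u) ((UU h u).ord r + 1) ((μ i : M) : K) := by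
          right
          rw [UU_M]; omega
        have h5 : Ge (UU h u) 0 ((bF i : F) : K) := Or.inr (UU_F h u _).ge
        have h6 := h5.mul h4
        rwa [zero_add] at h6
    have := h2.resolve_left hr0
    omega
  have hi1 := (Finset.mem_filter.1 hi0).2
  refine ⟨μ i0 / ν j0, Finset.mem_image_of_mem _ hi0, div_ne_zero hi1 hj0', ?_⟩
  rw [u.ord_div hi1 hj0', (UU h u).ord_div hr0 hs0]
  omega

/-- The matrix of the vector fields `(Ey, D)`. -/
theorem value_split {m : ℕ}
    {ω : (Fin (a + b) → Derivation k K K) → K} (hω : IsPluriForm k K (a + b) m ω)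
    (D : Fin b → Derivation k M M) :
    ω (Fin.append Ey fun l => ∑ c, ((D l (t c) : M) : K) • Et c) =
      (((Matrix.of fun p q => D p (t q)).det : M) : K) ^ m * ω (fr Ey Et) := by
  classical
  obtain ⟨A, hA⟩ : ∃ A : Matrix (Fin (a + b)) (Fin (a + b)) K,
      A = Matrix.reindex finSumFinEquiv finSumFinEquiv
        (Matrix.fromBlocks (1 : Matrix (Fin a) (Fin a) K) 0 0
          (Matrix.of fun p q => ((D p (t q) : M) : K))) := ⟨_, rfl⟩
  have hdet : A.det = (((Matrix.of fun p q => D p (t q)).det : M) : K) := by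
    rw [hA, Matrix.det_reindex_self, Matrix.det_fromBlocks_zero₂₁, Matrix.det_one, one_mul]
    have h6 := (algebraMap M K).map_det (Matrix.of fun p q => D p (t q))
    exact h6.symm
  have h1 := hω A (fr Ey Et)
  rw [hdet] at h1
  rw [← h1]
  congr 1
  funext i
  rw [Fin.sum_univ_add]
  refine Fin.addCases (fun i => ?_) (fun i => ?_) i
  · have e1 : ∑ j : Fin a, A (Fin.castAdd b i) (Fin.castAdd b j) •
        fr Ey Et (Fin.castAdd b j) = Ey i := by
      rw [Finset.sum_eq_single i]
      · simp [hA, fr]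
      · intro j _ hj
        simp [hA, Matrix.one_apply_ne (Ne.symm hj)]
      · intro hi
        exact absurd (Finset.mem_univ _) hi
    have e2 : ∑ l : Fin b, A (Fin.castAdd b i) (Fin.natAdd a l) •
        fr Ey Et (Fin.natAdd a l) = 0 := by
      refine Finset.sum_eq_zero fun l _ => ?_
      simp [hA]
    rw [e1, e2, Fin.append_left, add_zero]
  · have e1 : ∑ j : Fin a, A (Fin.natAdd a i) (Fin.castAdd b j) •
        fr Ey Et (Fin.castAdd b j) = 0 := by
      refine Finset.sum_eq_zero fun j _ => ?_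
      simp [hA]
    rw [e1, Fin.append_right, zero_add]
    refine Finset.sum_congr rfl fun l _ => ?_
    simp [hA, fr]

theorem pos_of_place {u : Place k M} (ht : IsTranscendenceBasis k t) : 1 ≤ b := by
  rcases Nat.eq_zero_or_pos b with rfl | hb
  · exfalso
    obtain ⟨s, hs0, hs⟩ := u.surj
    have h1 : Transcendental k s := u.transcendental_of_ord_ne (by omega)
    have h2 : Algebra.IsAlgebraic k M := by
      have := ht.isEmpty_iff_isAlgebraic.1 inferInstance
      exact this
    exact h1 (h2.isAlgebraic s)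
  · exact hb

/-- **The components of a section are sections.** -/
theorem desc [IsAlgClosed k] (h : Pr M F) (f : Frm M F y t Ey Et) (S : Finset K) {c0 : K}
    (hc0 : c0 ≠ 0) : ∃ S' : Finset M, ∀ (m j : ℕ) (ω : (Fin (a + b) → Derivation k K K) → K),
      IsSec k K (a + b) (fun _ => False) S m j ω →
      ∀ {ι : Type} (s : Finset ι) (β : ι → F) (μ : ι → M), LinearIndependent k β →
        c0 ^ j * ω (fr Ey Et) = ∑ i ∈ s, (β i : K) * (μ i : K) →
        ∀ i ∈ s, IsSec k M b (fun _ => False) S' m j
          (fun D => μ i * (Matrix.of fun p q => D p (t q)).det ^ m) := by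
  classical
  have hT : ∀ s : K, s ≠ 0 → ∃ T : Finset M, ∀ u : Place k M,
      ∃ s' ∈ T, s' ≠ 0 ∧ u.ord s' ≤ (UU h u).ord (c0 * s) :=
    fun s hs => exists_lower h (mul_ne_zero hc0 hs)
  choose! T hT using hT
  refine ⟨S.biUnion T, ?_⟩
  intro m j ω hω ι s β μ hβ hsum i hi
  obtain ⟨dF, -, hdF⟩ := f.symm.pres
  refine ⟨?_, ?_, fun u hu hBY => absurd hBY (fun h => h)⟩
  · intro A D
    have h2 : (Matrix.of fun p q => (∑ c, A p c • D c) (t q)) =
        A * Matrix.of fun p q => D p (t q) := by
      ext p q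
      rw [Matrix.of_apply, Matrix.mul_apply]
      simp only [Matrix.of_apply]
      congr 1
      exact Pool.Agent.W735.PG.DESCJ.der_sum (k := k) (L := M) _ _ _ _
    show μ i * (Matrix.of fun p q => (∑ c, A p c • D c) (t q)).det ^ m = _
    rw [h2, Matrix.det_mul]
    ring
  · intro u hu _ D hD
    have hb : 1 ≤ b := pos_of_place (u := u) f.ht
    have hdiv : IsDivisorial (UU h u) (a + b) := UU_div h u hb (Nat.add_comm a b) f.hy.1 hu
    -- the vector fields
    let D2 : Fin b → Derivation k K K := fun l => ∑ c, ((D l (t c) : M) : K) • Et c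
    have hD2M : ∀ l (z : M), D2 l (z : K) = ((D l z : M) : K) := by
      intro l z
      refine der_comp (K := M) (L := K) (D l) (D2 l) t f.ht (fun c => ?_) z
      show (∑ b, ((D l (t b) : M) : K) • Et b) ((t c : M) : K) = ((D l (t c) : M) : K)
      rw [Pool.Agent.W735.PG.DESCJ.der_sum]
      simp only [f.tt]
      simp
    have hD2F : ∀ l (β : F), D2 l (β : K) = 0 := by
      intro l β
      show (∑ b, ((D l (t b) : M) : K) • Et b) (β : K) = 0
      rw [Pool.Agent.W735.PG.DESCJ.der_sum]
      refine Finset.sum_eq_zero fun c _ => ?_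
      rw [f.kill, mul_zero]
    have hpres : ∀ l, Pres (UU h u) ((Fin.append Ey D2 : Fin (a + b) → Derivation k K K) l) := by
      intro l
      refine Fin.addCases (fun i => ?_) (fun l => ?_) l
      · rw [Fin.append_left]
        exact UU_pres h u _ (fun z _ => ⟨0, by rw [f.symm.kill]; rfl, u.reg_zero⟩)
          (fun β => ⟨dF i β, hdF i β⟩)
      · rw [Fin.append_right]
        exact UU_pres h u _ (fun z hz => ⟨D l z, hD2M l z, hD l z hz⟩)
          (fun β => ⟨0, by rw [hD2F]; rfl⟩)
    have hdom := hω.2.1 (UU h u) hdiv (fun h => h) _ hpres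
    rw [value_split (t := t) hω.1 D] at hdom
    set δ : M := (Matrix.of fun p q => D p (t q)).det with hδ
    have hexp : c0 ^ j * ((δ : K) ^ m * ω (fr Ey Et)) =
        ∑ i ∈ s, (β i : K) * ((μ i * δ ^ m : M) : K) := by
      calc c0 ^ j * ((δ : K) ^ m * ω (fr Ey Et)) = (δ : K) ^ m * (c0 ^ j * ω (fr Ey Et)) := by ring
        _ = _ := by
          rw [hsum, Finset.mul_sum]
          refine Finset.sum_congr rfl fun i _ => ?_
          push_cast; ring
    rcases hdom with h0 | ⟨s1, hs, hs0, hsU⟩
    · left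
      by_contra hne
      have h9 := UU_fin h u s β (fun i => μ i * δ ^ m) (u.ord (μ i * δ ^ m) + 1) hβ
        (by rw [← hexp, h0, mul_zero]; exact Ge.zero) i hi
      have := h9.resolve_left hne
      omega
    · obtain ⟨s', hs', hs'0, hle⟩ := hT s1 hs0 u
      have h9 : Ge (UU h u) ((j : ℤ) * u.ord s') (c0 ^ j * ((δ : K) ^ m * ω (fr Ey Et))) := by
        have h10 : Ge (UU h u) ((j : ℤ) * (UU h u).ord s1) ((δ : K) ^ m * ω (fr Ey Et)) :=
          Or.inr hsU
        have h11 : Ge (UU h u) ((j : ℤ) * (UU h u).ord c0) (c0 ^ j) :=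
          Or.inr (by rw [(UU h u).ord_pow])
        refine (h11.mul h10).mono ?_
        rw [(UU h u).ord_mul hc0 hs0] at hle
        rw [← mul_add]
        exact mul_le_mul_of_nonneg_left hle (by positivity)
      rw [hexp] at h9
      rcases UU_fin h u s β (fun i => μ i * δ ^ m) _ hβ h9 i hi with h12 | h12
      · left; exact h12
      · right
        exact ⟨s', Finset.mem_biUnion.2 ⟨s1, hs, hs'⟩, hs'0, h12⟩

end

end Pool.Agent.L0h17.KU
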