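import Pool.Agent.L0h17.DN.Kod
import Pool.Agent.Y173.QA.Str1

/-!
Forms given by a value on a frame.
-/

set_option autoImplicit false
set_option linter.overlappingInstances false
set_option linter.unusedSectionVars false

open FF Polynomial Pool.Agent.W602.GT Pool.Agent.W603.LV Pool.Agent.W619.PQ Pool.Agent.Y172
open Pool.Agent.L0h17.DN

namespace Pool.Agent.L0h17.KU

section

variable {k K : Type} [Field k] [Field K] [Algebra k K] {n : ℕ}

/-- the form with value `μ` on the frame dual to `Z` -/
def cf (Z : Fin n → K) (w : ℕ) (μ : K) (D : Fin n → Derivation k K K) : K :=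
  (Matrix.of fun p q => D p (Z q)).det ^ w * μ

theorem cf_pluri [CharZero k] (Z : Fin n → K) (w : ℕ) (μ : K) :
    IsPluri w (cf (k := k) Z w μ) := by
  intro A D
  unfold cf
  have e1 : (Matrix.of fun a b => (∑ j, A a j • D j : Derivation k K K) (Z b)) =
      A * Matrix.of fun a b => D a (Z b) := by
    ext a b
    rw [Matrix.of_apply, Matrix.mul_apply, Pool.Agent.L0h17.DN.sum_smul]
    rfl
  rw [e1, Matrix.det_mul, mul_pow, mul_assoc]

theorem cf_frame {Z : Fin n → K} {E : Fin n → Derivation k K K}
    (hE : ∀ i j, E i (Z j) = if i = j then 1 else 0) (w : ℕ) (μ : K) : cf Z w μ E = μ := by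
  classical
  unfold cf
  have h2 : (Matrix.of fun i j => E i (Z j)) = 1 := by
    ext i j
    rw [Matrix.of_apply, hE, Matrix.one_apply]
  rw [h2, Matrix.det_one, one_pow, one_mul]

theorem cf_of [CharZero k] {Z : Fin n → K} (hZ : IsTranscendenceBasis k Z)
    {E : Fin n → Derivation k K K} (hE : ∀ i j, E i (Z j) = if i = j then 1 else 0) {w : ℕ}
    {ω : (Fin n → Derivation k K K) → K} (hω : IsPluri w ω) : ω = cf Z w (ω E) := by
  funext D
  exact pluri_coord hZ hE hω D

theorem cf_indep [CharZero k] {Z : Fin n → K} (hZ : IsTranscendenceBasis k Z) (w : ℕ) {N : ℕ}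
    {x : Fin N → K} (hx : LinearIndependent k x) :
    LinearIndependent k fun l => cf (k := k) Z w (x l) := by
  obtain ⟨E, hE⟩ := Pool.Agent.Y173.QA.exists_duals hZ
  rw [Fintype.linearIndependent_iff] at hx ⊢
  intro g hg
  refine hx g ?_
  have h1 := congrFun hg E
  rw [Finset.sum_apply, Pi.zero_apply] at h1
  rw [← h1]
  refine Finset.sum_congr rfl fun l _ => ?_
  rw [Pi.smul_apply, cf_frame hE]

end

end Pool.Agent.L0h17.KU
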