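import Pool.Agent.L0h17.KU.Pt4

/-!
Assembly.
-/

set_option autoImplicit false
set_option linter.overlappingInstances false
set_option linter.unusedSectionVars false

open FF IntermediateField Pool.Agent.W619.PQ Pool.Agent.W619.PL Pool.Agent.W619.TW
  Pool.Agent.W603.LV MvPolynomial Pool.Agent.Y172
open Pool.Agent.W602.GT (Divisorial RegAt IsPluri DerReg)
open Pool.Agent.L0h17.DN (GeQ OrdAt PairNumNeg geQ_int ne_frame ratio_eq)

namespace Pool.Agent.L0h17.KU

section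

variable {k L K : Type} [Field k] [CharZero k] [Field L] [Field K] [Algebra k L] [Algebra k K]
  [Algebra L K] [IsScalarTower k L K] [FiniteDimensional L K] [Algebra.EssFiniteType k L]
  [Algebra.EssFiniteType k K] {n : ℕ} {ι : Type}

/-- `θ` is a section of `w (K_V + f^* Δ - 2 A) + A_S`, where `A` is spanned by the `a i`. -/
def Tw (δ : Place k L → ℚ) (a : ι → K) (S : Finset K) (w : ℕ)
    (θ : (Fin n → Derivation k K K) → K) : Prop :=
  IsPluri w θ ∧ ∀ (Q : Place k K) (P : Place k L) (e : ℕ), Divisorial n Q → Over Q P e →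
    ∀ (i : ι) (D : Fin n → Derivation k K K), (∀ l, DerReg Q (D l)) →
      a i ^ (2 * w) * θ D = 0 ∨
        ∃ s ∈ S, s ≠ 0 ∧ (Q.ord s : ℚ) - w * e * δ P ≤ Q.ord (a i ^ (2 * w) * θ D)

theorem basis_of' [Finite ι] {a : ι → K} (ha : Submodule.span L (Set.range a) = ⊤) :
    ∃ (κ : Type) (_ : Fintype κ) (bs : Module.Basis κ L K), ∀ i, ∃ j, bs i = a j := by
  classical
  obtain ⟨s, hs, hs2, hs3⟩ := exists_linearIndependent L (Set.range a)
  rw [ha] at hs2
  have hfin : Finite s := (Set.finite_range a).subset hs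
  refine ⟨s, Fintype.ofFinite s, Module.Basis.mk hs3 ?_, fun i => ?_⟩
  · rw [Subtype.range_coe_subtype, Set.ofPred_mem_eq, hs2]
  · obtain ⟨j, hj⟩ := hs i.2
    exact ⟨j, by rw [Module.Basis.mk_apply]; exact hj.symm⟩

theorem tw_adm {κ : Type} {δ : Place k L → ℚ} {a : ι → K} {bs : κ → K}
    (hbs : ∀ i, ∃ j, bs i = a j) {Z : Fin n → K} (hZ : IsTranscendenceBasis k Z)
    {EZ : Fin n → Derivation k K K} (hEZ : ∀ i j, EZ i (Z j) = if i = j then 1 else 0)
    {S S' : Finset K} (h1 : (1 : K) ∈ S') (hS : ∀ s ∈ S, s ∈ S') {w : ℕ}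
    {θ : (Fin n → Derivation k K K) → K} (hθ : Tw δ a S w θ) :
    θ EZ ∈ adm δ bs Z S' h1 w := by
  intro Q P e hQP hQ i G hG
  obtain ⟨j, hj⟩ := hbs i
  rw [← congrFun (cf_of hZ hEZ hθ.1) G, hj]
  rcases hθ.2 Q P e hQ hQP j G hG with h | ⟨s, hs, hs0, h⟩
  · exact ⟨1, h1, one_ne_zero, Or.inl h⟩
  · exact ⟨s, hS s hs, hs0, Or.inr h⟩

/-- **The numerical dimension of the image of `V` is at least that of `K_V + f^* Δ - 2 A`.** -/
theorem part1 (hn : Algebra.trdeg k L = n) [Finite ι] (δ : Place k L → ℚ) {a : ι → K}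
    (ha : Submodule.span L (Set.range a) = ⊤) {h : ℕ} (hnum : PairNumLe k L n δ h)
    (S : Finset K) : ∃ C : ℕ, ∀ w N : ℕ, 1 ≤ w → HasIndep k K n N (Tw δ a S w) →
      N ≤ C * w ^ h := by
  classical
  obtain ⟨κ, iκ, bs, hbs⟩ := basis_of' ha
  obtain ⟨z, -, hz, -⟩ := exists_crd (k := k) hn
  have hzK : IsTranscendenceBasis k (fun j => algebraMap L K (z j)) := hz.algebraMap_comp
  obtain ⟨EZ, hEZ⟩ := Pool.Agent.Y173.QA.exists_duals hzK
  obtain ⟨C, hC⟩ := num_low hn bs hz hnum (S := insert 1 S) (Finset.mem_insert_self _ _)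
  refine ⟨C, fun w N hw hI => ?_⟩
  obtain ⟨θ, hθ, hsec⟩ := hI
  have hli := val_indep hzK hEZ hθ fun l => (hsec l).1
  have h1 := hC w hw (Submodule.span k (Set.range fun l => θ l EZ))
    (FiniteDimensional.span_of_finite k (Set.finite_range _)) (by
      rw [Submodule.span_le]
      rintro _ ⟨l, rfl⟩
      exact tw_adm hbs hzK hEZ _ (fun s hs => Finset.mem_insert_of_mem hs) (hsec l))
  rwa [finrank_span_eq_card hli, Fintype.card_fin] at h1

theorem part1_neg (hn : Algebra.trdeg k L = n) [Finite ι] (δ : Place k L → ℚ) {a : ι → K}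
    (ha : Submodule.span L (Set.range a) = ⊤) (hneg : PairNumNeg k L n δ)
    (S : Finset K) : ∃ w₀ : ℕ, ∀ w, w₀ ≤ w → ¬ HasIndep k K n 1 (Tw δ a S w) := by
  classical
  obtain ⟨κ, iκ, bs, hbs⟩ := basis_of' ha
  obtain ⟨z, -, hz, -⟩ := exists_crd (k := k) hn
  have hzK : IsTranscendenceBasis k (fun j => algebraMap L K (z j)) := hz.algebraMap_comp
  obtain ⟨EZ, hEZ⟩ := Pool.Agent.Y173.QA.exists_duals hzK
  obtain ⟨w₀, hw₀⟩ := neg_low hn bs hz hneg (S := insert 1 S) (Finset.mem_insert_self _ _)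
  refine ⟨w₀, fun w hw hI => ?_⟩
  obtain ⟨θ, hθ, hsec⟩ := hI
  have hli := val_indep hzK hEZ hθ fun l => (hsec l).1
  exact hli.ne_zero 0 (hw₀ w hw _ (tw_adm hbs hzK hEZ _ (fun s hs => Finset.mem_insert_of_mem hs) (hsec 0)))

end

section

variable {K : Type} [Field K] [Algebra ℂ K] {M F : IntermediateField ℂ K} {a b p : ℕ} {L : Type}
  [Field L] [Algebra ℂ L] [Algebra L K] [IsScalarTower ℂ L K] [FiniteDimensional L K]
  [Algebra.EssFiniteType ℂ K]
  {κ : Type} {η : (Fin a → Derivation ℂ F F) → F} {g : Fin a → F} {c : κ → F}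

theorem kod_zero {k R : Type} [Field k] [Field R] [Algebra k R] {n q : ℕ} (h : KodR k R n q) :
    KodR k R n 0 := by
  obtain ⟨m, hm, Φ, hΦ, D, hD, -⟩ := h
  exact ⟨m, hm, fun _ => Φ 0, fun _ => hΦ 0, D, hD,
    algebraicIndependent_empty_type_iff.2 (algebraMap k R).injective⟩

theorem kod_upper (d : Dat L F M a b p η g c) {h q : ℕ} (hq : q = a + h ∨ h = 0)
    (hL : KodR ℂ L (a + b) q) : KodR ℂ M b h := by
  have hLn : Algebra.trdeg ℂ L = (a + b : ℕ) :=
    (Pool.Agent.Y190.BV.trdeg_ext (k := ℂ) (K := L) (L := K)).symm.trans d.hab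
  have hessL : Algebra.EssFiniteType ℂ L := Pool.Agent.TH466.QG.ess_below (K := K)
  obtain ⟨y, t, Ey, Et, hZ, f, hpr⟩ := setup d.ha d.hb d.hab d.hs
  exact kod_prod hpr f hZ (fd_basis hZ) d.hab d.ha hq (kod_pull (K := K) hLn hL)

theorem num_upper (d : Dat L F M a b p η g c) {h : ℕ}
    (hM : NumLe ℂ M b (fun _ => False) h) : NumLe ℂ L (a + b) (fun _ => False) (a + h) := by
  have hLn : Algebra.trdeg ℂ L = (a + b : ℕ) :=
    (Pool.Agent.Y190.BV.trdeg_ext (k := ℂ) (K := L) (L := K)).symm.trans d.hab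
  have hessL : Algebra.EssFiniteType ℂ L := Pool.Agent.TH466.QG.ess_below (K := K)
  have hessF := Pool.Agent.N999.SX.ess_any F
  obtain ⟨y, t, Ey, Et, hZ, f, hpr⟩ := setup d.ha d.hb d.hab d.hs
  have hF : NumLe ℂ F a (fun _ => False) a := by
    have ha1 := d.a1
    obtain ⟨r, rfl⟩ : ∃ r, a = r + 1 := ⟨a - 1, by omega⟩
    exact Pool.Agent.R885.num_top f.hy (fd_basis f.hy)
  have hK := num_prod hpr f hZ (fd_basis hZ) hF hM
  rw [← numLe_iff] at hK ⊢
  refine Pool.Agent.L0h17.DN.num_down (K := K) hLn (fun Q P e h1 _ => ?_) hK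
  have : (1 : ℚ) ≤ e := by exact_mod_cast h1.1
  linarith

theorem neg_upper (d : Dat L F M a b p η g c)
    (hM : NumNeg ℂ M b (fun _ => False)) : NumNeg ℂ L (a + b) (fun _ => False) := by
  have hLn : Algebra.trdeg ℂ L = (a + b : ℕ) :=
    (Pool.Agent.Y190.BV.trdeg_ext (k := ℂ) (K := L) (L := K)).symm.trans d.hab
  have hessL : Algebra.EssFiniteType ℂ L := Pool.Agent.TH466.QG.ess_below (K := K)
  obtain ⟨y, t, Ey, Et, hZ, f, hpr⟩ := setup d.ha d.hb d.hab d.hs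
  exact neg_down (K := K) hLn (neg_prod hpr f hZ (fd_basis hZ) hM)

/-- **The transfer theorem.** -/
theorem transfer [Finite κ] (d : Dat L F M a b p η g c) :
    (∀ h, KodR ℂ L (a + b) (a + h) ↔ KodR ℂ M b h) ∧
    (KodR ℂ L (a + b) 0 ↔ KodR ℂ M b 0) ∧
    (NumNeg ℂ L (a + b) (fun _ => False) ↔ NumNeg ℂ M b (fun _ => False)) ∧
    (∀ h, NumLe ℂ L (a + b) (fun _ => False) (a + h) ↔ NumLe ℂ M b (fun _ => False) h) ∧
    (¬ NumNeg ℂ L (a + b) (fun _ => False) →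
      ∀ h, NumLe ℂ L (a + b) (fun _ => False) h → a ≤ h) :=
  ⟨fun h => ⟨kod_upper d (Or.inl rfl), kod_lower d⟩,
    ⟨kod_upper d (Or.inr rfl), fun h => kod_zero (kod_lower d h)⟩,
    ⟨neg_lower d, neg_upper d⟩, fun h => ⟨num_lower d, num_upper d⟩,
    fun hL h hh => num_ge d (fun hM => hL (neg_upper d hM)) hh⟩

end

end Pool.Agent.L0h17.KU
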