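import Pool.Agent.L0h17.KU.Ld
import Pool.Agent.W619.Y.Stm4

/-!
The Gauss extension of a place of `M` to the compositum of two linearly disjoint fields `M` and `F`
(adapted from the files of helper381, `Pool/Agent/W381/PG`, where `F` is a curve).
-/

set_option autoImplicit false
set_option linter.overlappingInstances false
set_option linter.unusedSectionVars false

open FF IntermediateField Pool.Agent.W619.PQ Pool.Agent.W619.PL Pool.Agent.W619.TW
  Pool.Agent.W603.LV

namespace Pool.Agent.L0h17.KU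

/-- `L` is generated by the linearly disjoint fields `M` and `F`. -/
structure Pr {k L : Type} [Field k] [Field L] [Algebra k L] (M F : IntermediateField k L) :
    Prop where
  ld : M.LinearDisjoint F
  sup : M ⊔ F = ⊤

section

variable {k L : Type} [Field k] [Field L] [Algebra k L] {M F : IntermediateField k L}

theorem Pr.ldr (h : Pr M F) {ι : Type} (β : ι → F) (hβ : LinearIndependent k β) :
    LinearIndependent M (fun i => (β i : L)) := h.ld.linearIndependent_right hβ

theorem Pr.symm (h : Pr M F) : Pr F M := ⟨h.ld.symm, by rw [sup_comm]; exact h.sup⟩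

/-- Every element of `L` is a quotient of elements of the ring. -/
theorem Pr.frac (h : Pr M F) (z : L) : ∃ a ∈ RR M F, ∃ b ∈ RR M F, b ≠ 0 ∧ z = a / b := by
  have hz : z ∈ IntermediateField.adjoin F (M : Set L) := by
    have h1 : (⊤ : IntermediateField k L) ≤
        (IntermediateField.adjoin F (M : Set L)).restrictScalars k := by
      rw [← h.sup, sup_le_iff]
      constructor
      · intro y hy
        rw [mem_restrictScalars]
        exact subset_adjoin F _ hy
      · intro y hy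
        rw [mem_restrictScalars]
        exact (IntermediateField.adjoin F (M : Set L)).algebraMap_mem ⟨y, hy⟩
    exact h1 (by trivial : z ∈ (⊤ : IntermediateField k L))
  rw [IntermediateField.mem_adjoin_iff_div] at hz
  obtain ⟨a, ha, b, hb, rfl⟩ := hz
  by_cases hb0 : b = 0
  · exact ⟨0, zero_mem _, 1, one_mem _, one_ne_zero, by rw [hb0]; simp⟩
  · exact ⟨a, ha, b, hb, hb0, rfl⟩

end

section

variable {k M : Type} [Field k] [Field M] [Algebra k M] [IsAlgClosed k]

/-- The elements of positive order. -/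
def pI (u : Place k M) (T : Finset M) (hT : ∀ x ∈ Algebra.adjoin k (T : Set M), Ge u 0 x) :
    Ideal (Algebra.adjoin k (T : Set M)) where
  carrier := {x | Ge u 1 (x : M)}
  add_mem' := fun {a b} ha hb => Ge.add ha hb
  zero_mem' := Ge.zero
  smul_mem' := fun c x hx => by
    have h1 := (hT c c.2).mul hx
    rw [zero_add] at h1
    exact h1

theorem pI_prime (u : Place k M) (T : Finset M)
    (hT : ∀ x ∈ Algebra.adjoin k (T : Set M), Ge u 0 x) : (pI u T hT).IsPrime := by
  constructor
  · intro h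
    have h1 : (1 : Algebra.adjoin k (T : Set M)) ∈ pI u T hT := by rw [h]; trivial
    have h2 : Ge u 1 (1 : M) := h1
    rcases h2 with h2 | h2
    · exact one_ne_zero h2
    · rw [u.ord_one] at h2
      omega
  · intro x y hxy
    have h1 : Ge u 1 ((x : M) * (y : M)) := hxy
    rcases h1 with h1 | h1
    · rcases mul_eq_zero.1 h1 with h2 | h2
      · left; exact Or.inl h2
      · right; exact Or.inl h2
    · by_cases hx : (x : M) = 0
      · left; exact Or.inl hx
      by_cases hy : (y : M) = 0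
      · right; exact Or.inl hy
      rw [u.ord_mul hx hy] at h1
      have h2 := (hT x x.2).resolve_left hx
      have h3 := (hT y y.2).resolve_left hy
      by_cases h4 : 1 ≤ u.ord (x : M)
      · left; exact Or.inr h4
      · right
        refine Or.inr ?_
        omega

theorem spec (u : Place k M) (T : Finset M)
    (hT : ∀ x ∈ Algebra.adjoin k (T : Set M), Ge u 0 x)
    (a : Algebra.adjoin k (T : Set M)) (ha : ¬ Ge u 1 (a : M)) :
    ∃ φ : Algebra.adjoin k (T : Set M) →ₐ[k] k,
      (∀ x : Algebra.adjoin k (T : Set M), Ge u 1 (x : M) → φ x = 0) ∧ φ a ≠ 0 := by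
  have hp := pI_prime u T hT
  have hft : Algebra.FiniteType k (Algebra.adjoin k (T : Set M)) :=
    (Subalgebra.fg_iff_finiteType _).1 (Subalgebra.fg_adjoin_finset T)
  have hjac : IsJacobsonRing (Algebra.adjoin k (T : Set M)) := isJacobsonRing_of_finiteType (A := k)
  have h1 : (pI u T hT).jacobson = pI u T hT := hjac.out' _ hp.isRadical
  have h2 : a ∉ (pI u T hT).jacobson := by rw [h1]; exact ha
  unfold Ideal.jacobson at h2
  rw [Ideal.mem_sInf] at h2
  push Not at h2
  obtain ⟨m, ⟨hm1, hm2⟩, hm3⟩ := h2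
  let := Ideal.Quotient.field m
  have hfin : Module.Finite k (Algebra.adjoin k (T : Set M) ⧸ m) :=
    finite_of_finite_type_of_isJacobsonRing k _
  have hb : Function.Bijective (algebraMap k (Algebra.adjoin k (T : Set M) ⧸ m)) :=
    IsAlgClosed.algebraMap_bijective_of_isIntegral
  let e : k ≃ₐ[k] (Algebra.adjoin k (T : Set M) ⧸ m) :=
    AlgEquiv.ofBijective (Algebra.ofId k _) hb
  refine ⟨(e.symm : (Algebra.adjoin k (T : Set M) ⧸ m) →ₐ[k] k).comp (Ideal.Quotient.mkₐ k m),
    fun x hx => ?_, fun h => ?_⟩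
  · have h3 : x ∈ m := hm1 hx
    show e.symm (Ideal.Quotient.mk m x) = 0
    rw [Ideal.Quotient.eq_zero_iff_mem.2 h3, map_zero]
  · have h3 : e.symm (Ideal.Quotient.mk m a) = 0 := h
    have h4 : (Ideal.Quotient.mk m a) = 0 := by
      have := congrArg e h3
      rwa [AlgEquiv.apply_symm_apply, map_zero] at this
    exact hm3 (Ideal.Quotient.eq_zero_iff_mem.1 h4)

end



section

variable {k L : Type} [Field k] [Field L] [Algebra k L] {M F : IntermediateField k L}

/-- The elements of order at least `n`. -/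
def GG (F : IntermediateField k L) (u : Place k M) (n : ℤ) : Submodule F L :=
  Submodule.span F ((fun μ : M => (μ : L)) '' {μ | Ge u n μ})

variable {u : Place k M} {n m : ℤ} {z w : L}

theorem GG_M {μ : M} (h : Ge u n μ) : (μ : L) ∈ GG F u n :=
  Submodule.subset_span ⟨μ, h, rfl⟩

theorem GG_ind {p : L → Prop} (h0 : p 0) (hadd : ∀ x y, p x → p y → p (x + y))
    (hs : ∀ (β : F) (μ : M), Ge u n μ → p ((β : L) * (μ : L))) (hz : z ∈ GG F u n) : p z := by
  unfold GG at hz
  induction hz using Submodule.closure_induction with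
  | zero => exact h0
  | add x y _ _ hx hy => exact hadd x y hx hy
  | smul_mem r x h =>
    obtain ⟨μ, hμ, rfl⟩ := h
    exact hs r μ hμ

theorem GG_mul_M {μ : M} (h : Ge u m μ) (hz : z ∈ GG F u n) : z * (μ : L) ∈ GG F u (n + m) := by
  refine GG_ind (p := fun z => z * (μ : L) ∈ GG F u (n + m)) ?_ ?_ ?_ hz
  · rw [zero_mul]; exact zero_mem _
  · intro x y hx hy
    rw [add_mul]; exact add_mem hx hy
  · intro β ν hν
    have h1 : ((ν * μ : M) : L) ∈ GG F u (n + m) := GG_M (hν.mul h)
    have h2 := Submodule.smul_mem _ β h1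
    have h3 : (β : L) * (ν : L) * (μ : L) = β • ((ν * μ : M) : L) := by
      rw [Algebra.smul_def]
      push_cast
      rw [mul_assoc]
      rfl
    rw [h3]
    exact h2

theorem GG_mul_F (β : F) (hz : z ∈ GG F u n) : z * (β : L) ∈ GG F u n := by
  have h2 := Submodule.smul_mem _ β hz
  rw [Algebra.smul_def, mul_comm] at h2
  exact h2

theorem GG_mul (hz : z ∈ GG F u n) (hw : w ∈ GG F u m) : z * w ∈ GG F u (n + m) := by
  refine GG_ind (p := fun w => z * w ∈ GG F u (n + m)) ?_ ?_ ?_ hw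
  · rw [mul_zero]; exact zero_mem _
  · intro x y hx hy
    rw [mul_add]; exact add_mem hx hy
  · intro β μ hμ
    have h1 := GG_mul_M hμ (GG_mul_F β hz)
    rw [mul_assoc] at h1
    exact h1

theorem GG_mono (h : m ≤ n) (hz : z ∈ GG F u n) : z ∈ GG F u m := by
  refine GG_ind (p := fun z => z ∈ GG F u m) (zero_mem _) (fun x y hx hy => add_mem hx hy) ?_ hz
  intro β μ hμ
  have h1 : (μ : L) ∈ GG F u m := GG_M (hμ.mono h)
  have h2 := Submodule.smul_mem _ β h1
  rw [Algebra.smul_def] at h2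
  exact h2

theorem GG_F (β : F) : (β : L) ∈ GG F u 0 := by
  have h1 : ((1 : M) : L) ∈ GG F u 0 := GG_M Ge.one
  have h2 := GG_mul_F β h1
  rwa [OneMemClass.coe_one, one_mul] at h2

theorem GG_RR (hz : z ∈ GG F u n) : z ∈ RR M F := by
  refine GG_ind (p := fun z => z ∈ RR M F) (zero_mem _) (fun x y hx hy => add_mem hx hy) ?_ hz
  intro β μ _
  exact mul_mem (RR.right β.2) (RR.left μ.2)

theorem RR_GG (hz : z ∈ RR M F) : ∃ n, z ∈ GG F u n := by
  have h := RR.mem_span hz
  clear hz
  induction h using Submodule.closure_induction with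
  | zero => exact ⟨0, zero_mem _⟩
  | add x y _ _ hx hy =>
    obtain ⟨n, hn⟩ := hx
    obtain ⟨m, hm⟩ := hy
    exact ⟨min n m, add_mem (GG_mono (min_le_left _ _) hn) (GG_mono (min_le_right _ _) hm)⟩
  | smul_mem r x h =>
    refine ⟨u.ord ⟨x, h⟩, ?_⟩
    exact Submodule.smul_mem _ r (GG_M (μ := ⟨x, h⟩) (Or.inr le_rfl))

theorem mul_expand {ι : Type} (b : Module.Basis ι k F) (β : F) (μ : M) :
    (β : L) * (μ : L) = Finsupp.linearCombination M (fun i => (b i : L))
      ((b.repr β).mapRange (fun c => c • μ) (zero_smul _ _)) := by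
  rw [Finsupp.linearCombination_apply, Finsupp.sum_mapRange_index
    (h := fun i (a : M) => a • (b i : L)) (fun i => zero_smul M (b i : L))]
  have h1 : (β : L) = (b.repr β).sum fun i c => c • (b i : L) := by
    conv_lhs => rw [← b.linearCombination_repr β, Finsupp.linearCombination_apply]
    rw [Finsupp.sum, Finsupp.sum, AddSubmonoidClass.coe_finsetSum]
    rfl
  rw [h1, Finsupp.sum, Finsupp.sum, Finset.sum_mul]
  refine Finset.sum_congr rfl fun i _ => ?_
  rw [Algebra.smul_def, Algebra.smul_def (b.repr β i • μ), Algebra.smul_def]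
  have h2 : algebraMap M L (algebraMap k M (b.repr β i) * μ) =
      algebraMap k L (b.repr β i) * (μ : L) := by
    rw [map_mul, ← IsScalarTower.algebraMap_apply]
    rfl
  rw [h2]
  ring

/-- Expansion in a basis. -/
theorem GG_expand {ι : Type} (b : Module.Basis ι k F) (hz : z ∈ GG F u n) :
    ∃ f : ι →₀ M, (∀ i, Ge u n (f i)) ∧
      z = Finsupp.linearCombination M (fun i => (b i : L)) f := by
  refine GG_ind (p := fun z => ∃ f : ι →₀ M, (∀ i, Ge u n (f i)) ∧
      z = Finsupp.linearCombination M (fun i => (b i : L)) f) ?_ ?_ ?_ hz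
  · exact ⟨0, fun i => Ge.zero, by rw [map_zero]⟩
  · rintro x y ⟨f, hf, rfl⟩ ⟨g, hg, rfl⟩
    exact ⟨f + g, fun i => (hf i).add (hg i), by rw [map_add]⟩
  · intro β μ hμ
    refine ⟨(b.repr β).mapRange (fun c => c • μ) (zero_smul _ _), fun i => ?_,
      mul_expand b β μ⟩
    rw [Finsupp.mapRange_apply, Algebra.smul_def]
    have h1 := (Ge.const (P := u) (b.repr β i)).mul hμ
    rwa [zero_add] at h1

end

section

variable {k L : Type} [Field k] [Field L] [Algebra k L] [CharZero k] [IsAlgClosed k]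
  {M F : IntermediateField k L} {u : Place k M} {n m : ℤ} {z w : L}

theorem GG_coef (h : Pr M F) {ι : Type} (b : Module.Basis ι k F) (f : ι →₀ M)
    (hf : Finsupp.linearCombination M (fun i => (b i : L)) f ∈ GG F u n) (i : ι) :
    Ge u n (f i) := by
  obtain ⟨g, hg, e⟩ := GG_expand b hf
  have h1 : Function.Injective (Finsupp.linearCombination M (fun i => (b i : L))) :=
    h.ldr b b.linearIndependent
  rw [h1 e]
  exact hg i

theorem GG_fam (h : Pr M F) {r : ℕ} (β : Fin r → F) (μ : Fin r → M)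
    (hβ : LinearIndependent k β) (hz : ∑ i, (β i : L) * (μ i : L) ∈ GG F u n) (i : Fin r) :
    Ge u n (μ i) := by
  classical
  set b := Module.Basis.extend (hβ.linearIndepOn_id) with hb
  have hmem : ∀ i, β i ∈ hβ.linearIndepOn_id.extend (Set.subset_univ (Set.range β)) := fun i =>
    hβ.linearIndepOn_id.subset_extend _ ⟨i, rfl⟩
  have hbi : ∀ i, b ⟨β i, hmem i⟩ = β i := fun i => Module.Basis.extend_apply_self _ _
  set f : (hβ.linearIndepOn_id.extend (Set.subset_univ (Set.range β))) →₀ M :=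
    ∑ i, Finsupp.single ⟨β i, hmem i⟩ (μ i) with hfdef
  have hf : Finsupp.linearCombination M (fun i => (b i : L)) f =
      ∑ i, (β i : L) * (μ i : L) := by
    rw [hfdef, map_sum]
    refine Finset.sum_congr rfl fun i _ => ?_
    rw [Finsupp.linearCombination_single, hbi, Algebra.smul_def, mul_comm]
    rfl
  rw [← hf] at hz
  have h1 := GG_coef h b f hz ⟨β i, hmem i⟩
  have h2 : f ⟨β i, hmem i⟩ = μ i := by
    rw [hfdef, Finsupp.finsetSum_apply, Finset.sum_eq_single i]
    · rw [Finsupp.single_eq_same]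
    · intro j _ hj
      rw [Finsupp.single_apply, if_neg]
      intro e
      exact hj (hβ.injective (Subtype.mk.inj e))
    · intro h; exact absurd (Finset.mem_univ i) h
  rwa [h2] at h1

end



section

variable {k L : Type} [Field k] [Field L] [Algebra k L] [CharZero k] [IsAlgClosed k]
  {M F : IntermediateField k L} {u : Place k M} {n m : ℤ} {z w : L}

theorem exists_low {ι : Type} (b : ι → F) (f : ι →₀ M)
    (hf : Finsupp.linearCombination M (fun i => (b i : L)) f ∉ GG F u n) : ∃ i, ¬ Ge u n (f i) := by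
  by_contra hc
  push Not at hc
  apply hf
  rw [Finsupp.linearCombination_apply, Finsupp.sum]
  refine Submodule.sum_mem _ fun i _ => ?_
  have h1 : (f i : L) ∈ GG F u n := GG_M (hc i)
  have h2 := GG_mul_F (b i) h1
  rw [Algebra.smul_def]
  exact h2

theorem not_ge_mul {x y : M} (hx : ¬ Ge u 1 x)
    (hy : ¬ Ge u 1 y) : ¬ Ge u 1 (x * y) := by
  intro h
  have h1 : x ≠ 0 := fun h => hx (Or.inl h)
  have h2 : y ≠ 0 := fun h => hy (Or.inl h)
  have h3 := h.resolve_left (mul_ne_zero h1 h2)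
  rw [u.ord_mul h1 h2] at h3
  have h4 : u.ord x < 1 := by
    by_contra h; exact hx (Or.inr (not_lt.1 h))
  have h5 : u.ord y < 1 := by
    by_contra h; exact hy (Or.inr (not_lt.1 h))
  omega

theorem GG_prime (h : Pr M F) (hz : z ∈ GG F u 0) (hw : w ∈ GG F u 0)
    (hzw : z * w ∈ GG F u 1) : z ∈ GG F u 1 ∨ w ∈ GG F u 1 := by
  classical
  set b := Module.Basis.ofVectorSpace k F with hb
  obtain ⟨f, hf, ez⟩ := GG_expand b hz
  obtain ⟨g, hg, ew⟩ := GG_expand b hw
  by_contra hcon
  push Not at hcon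
  obtain ⟨hz1, hw1⟩ := hcon
  obtain ⟨i0, hi0⟩ := exists_low b f (ez ▸ hz1)
  obtain ⟨j0, hj0⟩ := exists_low b g (ew ▸ hw1)
  set T : Finset M := f.support.image f ∪ g.support.image g with hTdef
  have hTge : ∀ x ∈ T, Ge u 0 x := by
    intro x hx
    rw [hTdef, Finset.mem_union, Finset.mem_image, Finset.mem_image] at hx
    rcases hx with ⟨i, -, rfl⟩ | ⟨i, -, rfl⟩
    · exact hf i
    · exact hg i
  have hT : ∀ x ∈ Algebra.adjoin k (T : Set M), Ge u 0 x := by
    intro x hx
    induction hx using Algebra.adjoin_induction with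
    | mem x hx => exact hTge x (Finset.mem_coe.1 hx)
    | algebraMap c => exact Ge.const c
    | add x y _ _ hx hy => exact hx.add hy
    | mul x y _ _ hx hy =>
      have h1 := hx.mul hy
      rwa [zero_add] at h1
  have hfA : ∀ i, f i ∈ Algebra.adjoin k (T : Set M) := by
    intro i
    by_cases h0 : f i = 0
    · rw [h0]; exact zero_mem _
    · exact Algebra.subset_adjoin (Finset.mem_coe.2 (Finset.mem_union_left _
        (Finset.mem_image_of_mem f (Finsupp.mem_support_iff.2 h0))))
  have hgA : ∀ i, g i ∈ Algebra.adjoin k (T : Set M) := by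
    intro i
    by_cases h0 : g i = 0
    · rw [h0]; exact zero_mem _
    · exact Algebra.subset_adjoin (Finset.mem_coe.2 (Finset.mem_union_right _
        (Finset.mem_image_of_mem g (Finsupp.mem_support_iff.2 h0))))
  set f' : _ → Algebra.adjoin k (T : Set M) := fun i => ⟨f i, hfA i⟩ with hf'
  set g' : _ → Algebra.adjoin k (T : Set M) := fun i => ⟨g i, hgA i⟩ with hg'
  obtain ⟨φ, hφ1, hφ2⟩ := spec u T hT (f' i0 * g' j0)
    (not_ge_mul hi0 hj0)
  -- the coefficients of the product
  set G : _ →₀ M := ∑ i ∈ f.support, ∑ j ∈ g.support,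
    (b.repr (b i * b j)).mapRange (fun c => c • (f i * g j)) (zero_smul _ _) with hG
  have hzwG : z * w = Finsupp.linearCombination M (fun i => (b i : L)) G := by
    rw [ez, ew, hG, map_sum, Finsupp.linearCombination_apply, Finsupp.linearCombination_apply,
      Finsupp.sum, Finsupp.sum, Finset.sum_mul_sum]
    refine Finset.sum_congr rfl fun i _ => ?_
    rw [map_sum]
    refine Finset.sum_congr rfl fun j _ => ?_
    rw [← mul_expand, Algebra.smul_def, Algebra.smul_def]
    show (f i : L) * (b i : L) * ((g j : L) * (b j : L)) = _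
    push_cast
    ring
  have hGl : ∀ l, Ge u 1 (G l) := by
    intro l
    rw [hzwG] at hzw
    exact GG_coef h b G hzw l
  have hGφ : ∀ l, ∑ i ∈ f.support, ∑ j ∈ g.support,
      b.repr (b i * b j) l * (φ (f' i) * φ (g' j)) = 0 := by
    intro l
    have h1 : ((∑ i ∈ f.support, ∑ j ∈ g.support,
        (b.repr (b i * b j) l) • (f' i * g' j) : Algebra.adjoin k (T : Set M)) : M) = G l := by
      rw [hG, Finsupp.finsetSum_apply, AddSubmonoidClass.coe_finsetSum]
      refine Finset.sum_congr rfl fun i _ => ?_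
      rw [Finsupp.finsetSum_apply, AddSubmonoidClass.coe_finsetSum]
      refine Finset.sum_congr rfl fun j _ => ?_
      rw [Finsupp.mapRange_apply]
      rfl
    have h2 := hφ1 _ (h1 ▸ hGl l)
    rw [map_sum] at h2
    rw [← h2]
    refine Finset.sum_congr rfl fun i _ => ?_
    rw [map_sum]
    refine Finset.sum_congr rfl fun j _ => ?_
    rw [map_smul, map_mul φ, smul_eq_mul]
  have hPQ : (∑ i ∈ f.support, φ (f' i) • b i) * (∑ j ∈ g.support, φ (g' j) • b j) = 0 := by
    apply b.repr.injective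
    rw [map_zero]
    ext l
    rw [Finset.sum_mul_sum, map_sum, Finsupp.finsetSum_apply, Finsupp.zero_apply, ← hGφ l]
    refine Finset.sum_congr rfl fun i _ => ?_
    rw [map_sum, Finsupp.finsetSum_apply]
    refine Finset.sum_congr rfl fun j _ => ?_
    rw [smul_mul_smul_comm, map_smul, Finsupp.smul_apply, smul_eq_mul, mul_comm]
  have hi0' : i0 ∈ f.support := by
    rw [Finsupp.mem_support_iff]
    exact fun h => hi0 (Or.inl h)
  have hj0' : j0 ∈ g.support := by
    rw [Finsupp.mem_support_iff]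
    exact fun h => hj0 (Or.inl h)
  apply hφ2
  rw [map_mul]
  rcases mul_eq_zero.1 hPQ with h1 | h1
  · rw [linearIndependent_iff'.1 b.linearIndependent _ _ h1 i0 hi0', zero_mul]
  · rw [linearIndependent_iff'.1 b.linearIndependent _ _ h1 j0 hj0', mul_zero]

end



section

variable {k L : Type} [Field k] [Field L] [Algebra k L] [CharZero k] [IsAlgClosed k]
  {M F : IntermediateField k L} {u : Place k M} {n m : ℤ} {z w : L}

theorem GG_coe_M (h : Pr M F) {μ : M} (hμ : (μ : L) ∈ GG F u n) : Ge u n μ := by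
  have h1 := GG_fam h (u := u) (n := n) (r := 1) (fun _ => (1 : F)) (fun _ => μ)
    (LinearIndependent.of_subsingleton (0 : Fin 1) one_ne_zero) (by
      rw [Finset.univ_unique, Finset.sum_singleton]
      show ((1 : F) : L) * (μ : L) ∈ GG F u n
      rw [OneMemClass.coe_one, one_mul]
      exact hμ) 0
  exact h1

theorem GG_coe_F (h : Pr M F) {β : F} (h0 : β ≠ 0) (hβ : (β : L) ∈ GG F u n) : n ≤ 0 := by
  have h1 := GG_fam h (u := u) (n := n) (r := 1) (fun _ => β) (fun _ => (1 : M))
    (LinearIndependent.of_subsingleton (0 : Fin 1) h0) (by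
      rw [Finset.univ_unique, Finset.sum_singleton]
      show (β : L) * ((1 : M) : L) ∈ GG F u n
      rw [OneMemClass.coe_one, mul_one]
      exact hβ) 0
  rcases h1 with h1 | h1
  · exact absurd h1 one_ne_zero
  · rwa [u.ord_one] at h1

/-- `z` has order `n`. -/
def Nr (F : IntermediateField k L) (u : Place k M) (z : L) (n : ℤ) : Prop :=
  z ∈ GG F u n ∧ z ∉ GG F u (n + 1)

theorem Nr.le (hz : Nr F u z n) (hm : z ∈ GG F u m) : m ≤ n := by
  by_contra hc
  exact hz.2 (GG_mono (by omega) hm)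

theorem Nr.unique (hz : Nr F u z n) (hz' : Nr F u z m) : n = m :=
  le_antisymm (hz'.le hz.1) (hz.le hz'.1)

theorem Nr.ne (hz : Nr F u z n) : z ≠ 0 := by
  rintro rfl
  exact hz.2 (zero_mem _)

theorem Nr.mem (hz : Nr F u z n) : z ∈ RR M F := GG_RR hz.1

theorem Nr.exists (h : Pr M F) (u : Place k M) (hz : z ∈ RR M F) (h0 : z ≠ 0) :
    ∃ n, Nr F u z n := by
  classical
  obtain ⟨n0, hn0⟩ := RR_GG (u := u) hz
  obtain ⟨f, hf, e⟩ := GG_expand (Module.Basis.ofVectorSpace k F) hn0
  have hf0 : f ≠ 0 := by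
    rintro rfl
    rw [map_zero] at e
    exact h0 e
  obtain ⟨i, hi⟩ := Finsupp.ne_iff.1 hf0
  have hi' : f i ≠ 0 := hi
  obtain ⟨n, hn, hmax⟩ := Int.exists_greatest_of_bdd (P := fun n => z ∈ GG F u n)
    ⟨u.ord (f i), fun m hm => by
      have h1 := GG_coef h (Module.Basis.ofVectorSpace k F) f (e ▸ hm) i
      exact h1.resolve_left hi'⟩ ⟨n0, hn0⟩
  exact ⟨n, hn, fun hc => by have := hmax _ hc; omega⟩

theorem Nr.scale {μ : M} (hμ : μ ≠ 0) (hz : Nr F u z n) : Nr F u (z * (μ : L)) (n + u.ord μ) := by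
  refine ⟨GG_mul_M (Or.inr le_rfl) hz.1, fun hc => hz.2 ?_⟩
  have h1 : Ge u (-u.ord μ) μ⁻¹ := Or.inr (by rw [u.ord_inv])
  have h2 := GG_mul_M h1 hc
  have h3 : z * (μ : L) * ((μ⁻¹ : M) : L) = z := by
    have h4 : (μ : L) ≠ 0 := fun h => hμ (Subtype.ext h)
    push_cast
    rw [mul_assoc, mul_inv_cancel₀ h4, mul_one]
  rw [h3] at h2
  exact GG_mono (by omega) h2

theorem Nr.mul (h : Pr M F) (hz : Nr F u z n) (hw : Nr F u w m) : Nr F u (z * w) (n + m) := by
  refine ⟨GG_mul hz.1 hw.1, fun hc => ?_⟩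
  obtain ⟨t, ht0, ht⟩ := u.surj
  have h1 := hz.scale (zpow_ne_zero (-n) ht0)
  have h2 := hw.scale (zpow_ne_zero (-m) ht0)
  rw [u.ord_zpow, ht, mul_one, add_neg_cancel] at h1 h2
  have h3 : Ge u (-n + -m) (t ^ (-n) * t ^ (-m)) := by
    right
    rw [u.ord_mul (zpow_ne_zero _ ht0) (zpow_ne_zero _ ht0), u.ord_zpow, u.ord_zpow, ht, mul_one,
      mul_one]
  have h4 := GG_mul_M h3 hc
  have h5 : z * w * ((t ^ (-n) * t ^ (-m) : M) : L) =
      (z * ((t ^ (-n) : M) : L)) * (w * ((t ^ (-m) : M) : L)) := by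
    push_cast
    ring
  rw [h5] at h4
  rcases GG_prime h h1.1 h2.1 (GG_mono (by omega) h4) with h6 | h6
  · exact h1.2 (GG_mono (by omega) h6)
  · exact h2.2 (GG_mono (by omega) h6)

theorem Nr.of_M (h : Pr M F) {μ : M} (hμ : μ ≠ 0) : Nr F u (μ : L) (u.ord μ) := by
  refine ⟨GG_M (Or.inr le_rfl), fun hc => ?_⟩
  have h1 := (GG_coe_M h hc).resolve_left hμ
  omega

theorem Nr.of_F (h : Pr M F) {β : F} (hβ : β ≠ 0) : Nr F u (β : L) 0 := by
  refine ⟨GG_F β, fun hc => ?_⟩
  have h1 := GG_coe_F h hβ hc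
  omega

/-- `z` is a fraction of order `n`. -/
def Or' (F : IntermediateField k L) (u : Place k M) (z : L) (n : ℤ) : Prop :=
  ∃ (a b : L) (p q : ℤ), Nr F u a p ∧ Nr F u b q ∧ z = a / b ∧ n = p - q

theorem Or'.unique (h : Pr M F) (hz : Or' F u z n) (hz' : Or' F u z m) : n = m := by
  obtain ⟨a, b, p, q, ha, hb, rfl, rfl⟩ := hz
  obtain ⟨a', b', p', q', ha', hb', e, rfl⟩ := hz'
  have h1 : a * b' = a' * b := by
    have := hb.ne
    have := hb'.ne
    rw [div_eq_div_iff (by assumption) (by assumption)] at e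
    exact e
  have h2 := (ha.mul h hb').unique (h1 ▸ ha'.mul h hb)
  omega

theorem Or'.exists (h : Pr M F) (u : Place k M) (h0 : z ≠ 0) : ∃ n, Or' F u z n := by
  obtain ⟨a, ha, b, hb, hb0, rfl⟩ := h.frac z
  have ha0 : a ≠ 0 := by
    rintro rfl
    exact h0 (zero_div _)
  obtain ⟨p, hp⟩ := Nr.exists h u ha ha0
  obtain ⟨q, hq⟩ := Nr.exists h u hb hb0
  exact ⟨p - q, a, b, p, q, hp, hq, rfl, rfl⟩

theorem Nr.one (h : Pr M F) : Nr F u 1 0 := by
  have h1 := Nr.of_F (u := u) h (one_ne_zero (α := F))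
  exact h1

theorem Nr.or (h : Pr M F) (hz : Nr F u z n) : Or' F u z n :=
  ⟨z, 1, n, 0, hz, Nr.one h, (div_one z).symm, (sub_zero n).symm⟩

theorem Or'.mul (h : Pr M F) (hz : Or' F u z n) (hw : Or' F u w m) :
    Or' F u (z * w) (n + m) := by
  obtain ⟨a, b, p, q, ha, hb, rfl, rfl⟩ := hz
  obtain ⟨a', b', p', q', ha', hb', rfl, rfl⟩ := hw
  exact ⟨a * a', b * b', p + p', q + q', ha.mul h ha', hb.mul h hb', div_mul_div_comm _ _ _ _,
    by ring⟩

theorem Or'.add (h : Pr M F) (hz : Or' F u z n) (hw : Or' F u w m) (h0 : z + w ≠ 0) :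
    ∃ r, Or' F u (z + w) r ∧ min n m ≤ r := by
  obtain ⟨a, b, p, q, ha, hb, rfl, rfl⟩ := hz
  obtain ⟨a', b', p', q', ha', hb', rfl, rfl⟩ := hw
  have e : a / b + a' / b' = (a * b' + b * a') / (b * b') := div_add_div _ _ hb.ne hb'.ne
  have hne : a * b' + b * a' ≠ 0 := by
    intro hc
    rw [e, hc, zero_div] at h0
    exact h0 rfl
  have h1 := ha.mul h hb'
  have h2 := hb.mul h ha'
  obtain ⟨s, hs⟩ := Nr.exists h u (add_mem h1.mem h2.mem) hne
  have h3 : min (p + q') (q + p') ≤ s :=
    hs.le (add_mem (GG_mono (min_le_left _ _) h1.1) (GG_mono (min_le_right _ _) h2.1))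
  refine ⟨s - (q + q'), ⟨_, _, s, q + q', hs, hb.mul h hb', e, rfl⟩, ?_⟩
  rcases min_choice (p + q') (q + p') with h4 | h4
  · refine (min_le_left _ _).trans ?_
    omega
  · refine (min_le_right _ _).trans ?_
    omega

open Classical in
/-- The order. -/
noncomputable def od (h : Pr M F) (u : Place k M) (z : L) : ℤ :=
  if h0 : z = 0 then 0 else (Or'.exists h u h0).choose

theorem od_eq (h : Pr M F) (hz : Or' F u z n) : od h u z = n := by
  have h0 : z ≠ 0 := by
    obtain ⟨a, b, p, q, ha, hb, rfl, rfl⟩ := hz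
    exact div_ne_zero ha.ne hb.ne
  unfold od
  rw [dif_neg h0]
  exact (Or'.exists h u h0).choose_spec.unique h hz

/-- The Gauss extension. -/
noncomputable def UU (h : Pr M F) (u : Place k M) : Place k L where
  ord := od h u
  ord_zero := by
    unfold od
    rw [dif_pos rfl]
  ord_mul := fun {f g} hf hg => by
    obtain ⟨n, hn⟩ := Or'.exists h u hf
    obtain ⟨m, hm⟩ := Or'.exists h u hg
    rw [od_eq h hn, od_eq h hm, od_eq h (hn.mul h hm)]
  ord_add := fun {f g} hf hg hfg => by
    obtain ⟨n, hn⟩ := Or'.exists h u hf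
    obtain ⟨m, hm⟩ := Or'.exists h u hg
    obtain ⟨r, hr, hr2⟩ := hn.add h hm hfg
    rw [od_eq h hn, od_eq h hm, od_eq h hr]
    exact hr2
  ord_const := fun {c} hc => by
    have h1 : algebraMap k M c ≠ 0 := by simpa using hc
    have h2 := Nr.of_M (F := F) (u := u) h h1
    rw [u.ord_const hc] at h2
    exact od_eq h (h2.or h)
  surj := by
    obtain ⟨t, ht0, ht⟩ := u.surj
    have h2 := Nr.of_M (F := F) (u := u) h ht0
    rw [ht] at h2
    exact ⟨t, h2.ne, od_eq h (h2.or h)⟩

theorem UU_M (h : Pr M F) (u : Place k M) (μ : M) : (UU h u).ord (μ : L) = u.ord μ := by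
  by_cases h0 : μ = 0
  · rw [h0, u.ord_zero]
    exact (UU h u).ord_zero
  · exact od_eq h ((Nr.of_M h h0).or h)

theorem UU_F (h : Pr M F) (u : Place k M) (β : F) : (UU h u).ord (β : L) = 0 := by
  by_cases h0 : β = 0
  · rw [h0]
    exact (UU h u).ord_zero
  · exact od_eq h ((Nr.of_F h h0).or h)

theorem UU_GG (h : Pr M F) (u : Place k M) (hz : z ∈ RR M F) (hn : Ge (UU h u) n z) :
    z ∈ GG F u n := by
  by_cases h0 : z = 0
  · rw [h0]; exact zero_mem _
  · obtain ⟨m, hm⟩ := Nr.exists h u hz h0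
    have h1 := hn.resolve_left h0
    have h2 : (UU h u).ord z = m := od_eq h (hm.or h)
    rw [h2] at h1
    exact GG_mono h1 hm.1

theorem GG_UU (h : Pr M F) (u : Place k M) (hz : z ∈ GG F u n) : Ge (UU h u) n z := by
  by_cases h0 : z = 0
  · exact Or.inl h0
  · obtain ⟨m, hm⟩ := Nr.exists h u (GG_RR hz) h0
    right
    have h2 : (UU h u).ord z = m := od_eq h (hm.or h)
    rw [h2]
    exact hm.le hz

theorem UU_fam (h : Pr M F) (u : Place k M) (r : ℕ) (β : Fin r → F) (μ : Fin r → M) (c : ℤ)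
    (hβ : LinearIndependent k β) (hz : Ge (UU h u) c (∑ i, (β i : L) * (μ i : L))) (i : Fin r) :
    Ge u c (μ i) := by
  refine GG_fam h β μ hβ (UU_GG h u ?_ hz) i
  exact Subalgebra.sum_mem _ fun i _ => mul_mem (RR.right (β i).2) (RR.left (μ i).2)

end

section

variable {k L : Type} [Field k] [Field L] [Algebra k L] [CharZero k] [IsAlgClosed k]
  {M F : IntermediateField k L} {n m : ℤ} {z w : L}

theorem GG_der (u : Place k M) (D : Derivation k L L)
    (hM : ∀ μ : M, u.Reg μ → ∃ μ' : M, D (μ : L) = (μ' : L) ∧ u.Reg μ')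
    (hF : ∀ β : F, ∃ β' : F, D (β : L) = (β' : L)) (hz : z ∈ GG F u 0) : D z ∈ GG F u 0 := by
  refine GG_ind (p := fun z => D z ∈ GG F u 0) ?_ ?_ ?_ hz
  · rw [map_zero]; exact zero_mem _
  · intro x y hx hy
    rw [map_add]; exact add_mem hx hy
  · intro β μ hμ
    obtain ⟨μ', h1, h2⟩ := hM μ hμ
    obtain ⟨β', h3⟩ := hF β
    rw [D.leibniz, h1, h3, smul_eq_mul, smul_eq_mul]
    refine add_mem ?_ ?_
    · rw [mul_comm]
      exact GG_mul_F β (GG_M h2)
    · exact GG_mul_F β' (GG_M hμ)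

theorem UU_pres (h : Pr M F) (u : Place k M) (D : Derivation k L L)
    (hM : ∀ μ : M, u.Reg μ → ∃ μ' : M, D (μ : L) = (μ' : L) ∧ u.Reg μ')
    (hF : ∀ β : F, ∃ β' : F, D (β : L) = (β' : L)) : Pres (UU h u) D := by
  intro z hz
  by_cases h0 : z = 0
  · rw [h0, map_zero]; exact Or.inl rfl
  obtain ⟨n, hn⟩ := Or'.exists h u h0
  have hn0 : 0 ≤ n := by
    have h1 := hz.resolve_left h0
    have h2 : (UU h u).ord z = n := od_eq h hn
    rwa [h2] at h1
  obtain ⟨a, b, p, q, ha, hb, rfl, rfl⟩ := hn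
  obtain ⟨t, ht0, ht⟩ := u.surj
  have htn : t ^ (-q) ≠ 0 := zpow_ne_zero _ ht0
  have htL : ((t ^ (-q) : M) : L) ≠ 0 := fun hc => htn (Subtype.ext hc)
  have h1 := ha.scale htn
  have h2 := hb.scale htn
  rw [u.ord_zpow, ht, mul_one] at h1 h2
  rw [add_neg_cancel] at h2
  have e1 : a / b = (a * ((t ^ (-q) : M) : L)) / (b * ((t ^ (-q) : M) : L)) :=
    (mul_div_mul_right _ _ htL).symm
  set A := a * ((t ^ (-q) : M) : L) with hA
  set B := b * ((t ^ (-q) : M) : L) with hB
  rw [e1]
  have hA0 : A ∈ GG F u 0 := GG_mono (by omega) h1.1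
  have hB0 : B ∈ GG F u 0 := h2.1
  have hDA := GG_der u D hM hF hA0
  have hDB := GG_der u D hM hF hB0
  have hnum : B * D A - A * D B ∈ GG F u 0 := by
    have h3 := GG_mul hB0 hDA
    have h4 := GG_mul hA0 hDB
    rw [add_zero] at h3 h4
    exact sub_mem h3 h4
  have hnum' := GG_UU h u hnum
  have hBord : (UU h u).ord B = 0 := od_eq h (h2.or h)
  rw [D.leibniz_div, smul_eq_mul, smul_eq_mul, smul_eq_mul]
  have hinv : Ge (UU h u) 0 (B⁻¹ ^ 2) := by
    right
    rw [(UU h u).ord_pow, (UU h u).ord_inv, hBord]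
    simp
  have h5 := hinv.mul hnum'
  rw [add_zero] at h5
  exact h5

end

end Pool.Agent.L0h17.KU
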