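import Pool.Agent.L0h17.KU.Gauss

/-! The Gauss extension is divisorial. -/

set_option autoImplicit false
set_option linter.overlappingInstances false
set_option linter.unusedSectionVars false

open FF IntermediateField Pool.Agent.W619.PQ Pool.Agent.W619.PL Pool.Agent.W619.TW
  Pool.Agent.W603.LV

namespace Pool.Agent.L0h17.KU

section

variable {k K : Type} [Field k] [Field K] [Algebra k K]

theorem div_of_fintype {ι : Type} [Fintype ι] {v : Place k K} {n : ℕ} (y : ι → K)
    (hc : Fintype.card ι = n - 1) (h : ∀ p : MvPolynomial ι k, p ≠ 0 →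
      MvPolynomial.aeval y p ≠ 0 ∧ v.ord (MvPolynomial.aeval y p) = 0) : IsDivisorial v n := by
  let e : ι ≃ Fin (n - 1) := Fintype.equivFinOfCardEq hc
  refine ⟨fun i => y (e.symm i), fun p hp => ?_⟩
  have h1 : MvPolynomial.aeval (fun i => y (e.symm i)) p =
      MvPolynomial.aeval y (MvPolynomial.rename e.symm p) := by
    rw [MvPolynomial.aeval_rename]; rfl
  rw [h1]
  refine h _ fun h0 => hp ?_
  exact MvPolynomial.rename_injective _ e.symm.injective (by rw [h0, map_zero])

theorem linInd_mono {a : ℕ} {t : Fin a → K} (ht : AlgebraicIndependent k t) :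
    LinearIndependent k (fun α : Fin a →₀ ℕ => ∏ i, t i ^ α i) := by
  have h1 := (MvPolynomial.basisMonomials (Fin a) k).linearIndependent.map'
    (MvPolynomial.aeval (R := k) t).toLinearMap (LinearMap.ker_eq_bot.2 ht)
  have h3 : (fun α : Fin a →₀ ℕ => ∏ i, t i ^ α i) =
      (MvPolynomial.aeval (R := k) t).toLinearMap ∘ (MvPolynomial.basisMonomials (Fin a) k) := by
    funext α
    show _ = MvPolynomial.aeval (R := k) t (MvPolynomial.basisMonomials (Fin a) k α)
    rw [MvPolynomial.coe_basisMonomials, MvPolynomial.aeval_monomial, map_one, one_mul,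
      Finsupp.prod_fintype _ _ (fun i => pow_zero _)]
  rw [h3]
  exact h1

end

section

variable {k L : Type} [Field k] [Field L] [Algebra k L] [CharZero k] [IsAlgClosed k]
  {M F : IntermediateField k L}

theorem UU_fin (h : Pr M F) (u : Place k M) {ι : Type} (s : Finset ι) (β : ι → F) (μ : ι → M)
    (c : ℤ) (hβ : LinearIndependent k β)
    (hz : Ge (UU h u) c (∑ i ∈ s, (β i : L) * (μ i : L))) : ∀ i ∈ s, Ge u c (μ i) := by
  classical
  intro i hi
  have h1 := UU_fam h u s.card (fun j => β (s.equivFin.symm j)) (fun j => μ (s.equivFin.symm j)) c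
    (hβ.comp _ (Subtype.val_injective.comp s.equivFin.symm.injective)) (by
      rw [← Finset.sum_coe_sort] at hz
      rw [← Equiv.sum_comp s.equivFin.symm] at hz
      exact hz) (s.equivFin ⟨i, hi⟩)
  simpa using h1

theorem UU_div (h : Pr M F) (u : Place k M) {b a n : ℕ} (hb : 1 ≤ b) (hn : n = b + a)
    {t : Fin a → F} (ht : AlgebraicIndependent k t) (hu : IsDivisorial u b) :
    IsDivisorial (UU h u) n := by
  classical
  obtain ⟨y, hy⟩ := hu
  let y' : Fin (b - 1) → L := fun j => (y j : L)
  let t' : Fin a → L := fun j => (t j : L)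
  refine div_of_fintype (ι := Fin a ⊕ Fin (b - 1)) (Sum.elim t' y') (by
    rw [Fintype.card_sum, Fintype.card_fin, Fintype.card_fin]; omega) fun p hp => ?_
  set q := MvPolynomial.sumAlgEquiv k (Fin a) (Fin (b - 1)) p with hq
  have hq0 : q ≠ 0 := by
    intro h0
    apply hp
    have := congrArg (MvPolynomial.sumAlgEquiv k (Fin a) (Fin (b - 1))).symm h0
    rwa [hq, AlgEquiv.symm_apply_apply, map_zero] at this
  have hcoe : ∀ r : MvPolynomial (Fin (b - 1)) k, MvPolynomial.aeval (R := k) y' r =
      ((MvPolynomial.aeval (R := k) y r : M) : L) := by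
    intro r
    exact MvPolynomial.aeval_algebraMap_apply L y r
  have e0 : MvPolynomial.aeval (R := k) (Sum.elim t' y') p =
      MvPolynomial.eval₂Hom ((MvPolynomial.aeval (R := k) y' : _ →ₐ[k] L) : _ →+* L) t' q := by
    have h1 : ((MvPolynomial.aeval (R := k) (Sum.elim t' y') : _ →ₐ[k] L) : _ →+* L) =
        (MvPolynomial.eval₂Hom ((MvPolynomial.aeval (R := k) y' : _ →ₐ[k] L) : _ →+* L) t').comp
          (MvPolynomial.sumAlgEquiv k (Fin a) (Fin (b - 1))).toAlgHom.toRingHom := by
      apply MvPolynomial.ringHom_ext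
      · intro r
        simp
      · rintro (i | j)
        · simp
        · simp
    exact congrArg (fun f : _ →+* L => f p) h1
  have e1 : MvPolynomial.aeval (R := k) (Sum.elim t' y') p =
      ∑ α ∈ q.support, ((∏ i, t i ^ α i : F) : L) *
        ((MvPolynomial.aeval (R := k) y (q.coeff α) : M) : L) := by
    rw [e0, MvPolynomial.coe_eval₂Hom, MvPolynomial.eval₂_eq']
    refine Finset.sum_congr rfl fun α _ => ?_
    rw [mul_comm]
    congr 1
    · push_cast; rfl
    · exact hcoe _
  have hge : Ge (UU h u) 0 (MvPolynomial.aeval (R := k) (Sum.elim t' y') p) := by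
    rw [e1]
    refine Ge.sum _ _ fun α hα => ?_
    have h1 : Ge (UU h u) 0 ((MvPolynomial.aeval (R := k) y (q.coeff α) : M) : L) := by
      right
      rw [UU_M]
      exact (hy _ (MvPolynomial.mem_support_iff.1 hα)).2.ge
    have h3 : Ge (UU h u) 0 ((∏ i, t i ^ α i : F) : L) := Or.inr (UU_F h u _).ge
    have h4 := h3.mul h1
    rwa [zero_add] at h4
  have hnge : ¬ Ge (UU h u) 1 (MvPolynomial.aeval (R := k) (Sum.elim t' y') p) := by
    intro hc
    rw [e1] at hc
    obtain ⟨α, hα⟩ : ∃ α, α ∈ q.support := by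
      obtain ⟨α, hα⟩ := MvPolynomial.ne_zero_iff.1 hq0
      exact ⟨α, MvPolynomial.mem_support_iff.2 hα⟩
    have h1 := UU_fin h u q.support (fun α => ∏ i, t i ^ α i)
      (fun α => MvPolynomial.aeval (R := k) y (q.coeff α)) 1 (linInd_mono ht) hc α hα
    have h3 := hy _ (MvPolynomial.mem_support_iff.1 hα)
    rcases h1 with h1 | h1
    · exact h3.1 h1
    · have h4 := h3.2
      omega
  refine ⟨fun h0 => hnge (Or.inl h0), ?_⟩
  rcases hge with h1 | h1
  · exact absurd (Or.inl h1) hnge
  · by_contra h2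
    exact hnge (Or.inr (by
      have h3 : (UU h u).ord (MvPolynomial.aeval (R := k) (Sum.elim t' y') p) ≠ 0 := h2
      omega))

end

end Pool.Agent.L0h17.KU
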