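import Pool.Agent.L0h17.KU.Kun2
import Pool.Agent.L0h17.DN.Kod

/-!
The Kodaira dimension of a product: the upper bound.
-/

set_option autoImplicit false
set_option linter.overlappingInstances false
set_option linter.unusedSectionVars false

open FF IntermediateField Pool.Agent.W619.PQ Pool.Agent.W619.PL Pool.Agent.W619.TW
  Pool.Agent.W603.LV Pool.Agent.Y173.QA MvPolynomial Pool.Agent.TH122.AB
open Pool.Agent.W602.GT (Divisorial RegAt IsPluri DerReg)
open Pool.Agent.L0h17.DN (exists_indep ratio_eq ne_frame)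

namespace Pool.Agent.L0h17.KU

section

/-- `κ(X) ≥ h`: for some `m ≥ 1` there are `h + 1` regular `m`-canonical forms, whose ratios are
algebraically independent. -/
def KodR (k K : Type) [Field k] [Field K] [Algebra k K] (n h : ℕ) : Prop :=
  ∃ m : ℕ, 1 ≤ m ∧ ∃ Φ : Fin (h + 1) → (Fin n → Derivation k K K) → K,
    (∀ j, IsPluri m (Φ j) ∧ ∀ P : Place k K, Divisorial n P → RegAt P (Φ j)) ∧
    ∃ D, Φ 0 D ≠ 0 ∧ AlgebraicIndependent k fun j : Fin h => Φ j.succ D / Φ 0 D

end

section

variable {k K : Type} [Field k] [Field K] [Algebra k K] {n : ℕ}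

theorem sec_of_reg {m : ℕ} {ω : (Fin n → Derivation k K K) → K} (h1 : IsPluri m ω)
    (h2 : ∀ P : Place k K, Divisorial n P → RegAt P ω) :
    IsSec k K n (fun _ => False) {1} m 0 ω := by
  refine ⟨h1, fun v hv _ D hD => ?_, fun v _ h => absurd h (fun h => h)⟩
  rcases h2 v hv D hD with h3 | h3
  · exact Or.inl h3
  · exact Or.inr ⟨1, Finset.mem_singleton_self 1, one_ne_zero, by simpa using h3⟩

theorem reg_of_sec {m : ℕ} {S : Finset K} {ω : (Fin n → Derivation k K K) → K}
    (h : IsSec k K n (fun _ => False) S m 0 ω) :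
    IsPluri m ω ∧ ∀ P : Place k K, Divisorial n P → RegAt P ω := by
  refine ⟨h.1, fun P hP D hD => ?_⟩
  rcases h.2.1 P hP (fun h => h) D hD with h3 | ⟨s, -, -, h3⟩
  · exact Or.inl h3
  · right
    simpa using h3

/-- few algebraically independent elements in a subfield -/
theorem card_le {F : IntermediateField k K} {a : ℕ} (ha : Algebra.trdeg k F = a) {ι : Type}
    [Fintype ι] {b : ι → K} (hb : AlgebraicIndependent k b) (hF : ∀ i, b i ∈ F) :
    Fintype.card ι ≤ a := by
  have h1 : AlgebraicIndependent k fun i => (⟨b i, hF i⟩ : F) := by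
    refine AlgebraicIndependent.of_comp F.val ?_
    exact hb
  have h2 := h1.cardinalMk_le_trdeg
  rw [ha, Cardinal.mk_fintype] at h2
  exact_mod_cast h2

theorem indep_out {F : IntermediateField k K} {a q : ℕ} (ha : Algebra.trdeg k F = a)
    {b : Fin (a + q) → K} (hb : AlgebraicIndependent k b) :
    ∃ g : Fin q → Fin (a + q), Function.Injective g ∧ ∀ j, b (g j) ∉ F := by
  classical
  have h1 := card_le ha (ι := {i // b i ∈ F}) (b := fun i => b i)
    (hb.comp _ Subtype.val_injective) fun i => i.2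
  have h2 := Fintype.card_subtype_compl fun i => b i ∈ F
  rw [Fintype.card_fin] at h2
  have h3 : q ≤ Fintype.card {i // b i ∉ F} := by omega
  obtain ⟨g⟩ : Nonempty (Fin q ↪ {i // b i ∉ F}) :=
    Function.Embedding.nonempty_of_card_le (by rwa [Fintype.card_fin])
  exact ⟨fun j => (g j).1, fun i j hij => g.injective (Subtype.ext hij), fun j => (g j).2⟩

end

section

variable {k K : Type} [Field k] [CharZero k] [Field K] [Algebra k K]
  {M F : IntermediateField k K} {a b : ℕ}
  {y : Fin a → F} {t : Fin b → M} {Ey : Fin a → Derivation k K K}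
  {Et : Fin b → Derivation k K K}

/-- **Descent of the Kodaira dimension.** -/
theorem kod_prod [IsAlgClosed k] (h : Pr M F) (f : Frm M F y t Ey Et)
    (hZ : IsTranscendenceBasis k (ZZ y t))
    (hfd : FiniteDimensional (IntermediateField.adjoin k (Set.range (ZZ y t))) K)
    (hab : Algebra.trdeg k K = (a + b : ℕ)) (ha : Algebra.trdeg k F = a)
    {q p : ℕ} (hp : p = a + q ∨ q = 0) (hK : KodR k K (a + b) p) : KodR k M b q := by
  classical
  obtain ⟨m, hm, Φ, hΦ, D0, hD0, hind⟩ := hK
  obtain ⟨c, SM, SF, hc0, hA, -⟩ := comp1 h f hZ hfd ({1} : Finset K)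
  choose s μ hs hμ using fun j => hA m 0 (Φ j) (sec_of_reg (hΦ j).1 (hΦ j).2)
  have hfr0 : Φ 0 (fr Ey Et) ≠ 0 := ne_frame (hΦ 0).1 hD0 hZ (fr_dual f)
  have hs' : ∀ j, Φ j (fr Ey Et) =
      ∑ i ∈ s j, ((Module.Basis.ofVectorSpace k F i : F) : K) * (μ j i : K) := fun j => by
    have := hs j
    rwa [pow_zero, one_mul] at this
  obtain ⟨i0, hi0, hμ0⟩ : ∃ i ∈ s 0, μ 0 i ≠ 0 := by
    by_contra hcon
    push Not at hcon
    apply hfr0
    rw [hs']
    refine Finset.sum_eq_zero fun i hi => ?_
    rw [hcon i hi]; simp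
  have hμ0K : (μ 0 i0 : K) ≠ 0 := fun h0 => hμ0 (Subtype.ext h0)
  obtain ⟨E, hE⟩ := exists_duals f.ht
  have hdet : (Matrix.of fun p q => E p (t q)).det = 1 := by
    have : (Matrix.of fun p q => E p (t q)) = (1 : Matrix (Fin b) (Fin b) M) := by
      ext p q
      rw [Matrix.of_apply, hE, Matrix.one_apply]
    rw [this, Matrix.det_one]
  -- the forms on `M`
  have hform : ∀ μ' ∈ valSub k t SM m 0, IsPluri m (fun D : Fin b → Derivation k M M =>
      μ' * (Matrix.of fun p q => D p (t q)).det ^ m) ∧ ∀ P : Place k M, Divisorial b P →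
        RegAt P (fun D => μ' * (Matrix.of fun p q => D p (t q)).det ^ m) :=
    fun μ' h' => reg_of_sec h'
  rcases hp with rfl | rfl
  · -- the ratios
    have hrat : ∀ j : Fin (a + q), Φ j.succ D0 / Φ 0 D0 =
        Φ j.succ (fr Ey Et) / Φ 0 (fr Ey Et) := by
      intro j
      rw [ratio_eq hab (hΦ 0).1 (hΦ j.succ).1 hD0 (fr Ey Et), mul_div_assoc, div_self hfr0,
        mul_one]
    let T : Set K := (F : Set K) ∪ {x | ∃ (l : Fin (a + q + 1))
      (i : Module.Basis.ofVectorSpaceIndex k F), i ∈ s l ∧ x = ((μ l i / μ 0 i0 : M) : K)}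
    have hmem : ∀ l, Φ l (fr Ey Et) / (μ 0 i0 : K) ∈ IntermediateField.adjoin k T := by
      intro l
      rw [hs' l, Finset.sum_div]
      refine sum_mem fun i hi => ?_
      rw [mul_div_assoc]
      refine mul_mem (IntermediateField.subset_adjoin _ _ (Or.inl (SetLike.coe_mem _)))
        (IntermediateField.subset_adjoin _ _ (Or.inr ⟨l, i, hi, ?_⟩))
      push_cast
      rfl
    obtain ⟨b', hb'T, hb'⟩ := exists_indep (K := K) (L := K) T _ hind fun j => by
      have h1 : Φ j.succ D0 / Φ 0 D0 ∈ IntermediateField.adjoin k T := by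
        rw [hrat]
        have h2 := div_mem (hmem j.succ) (hmem 0)
        rwa [div_div_div_cancel_right₀ hμ0K] at h2
      exact isAlgebraic_algebraMap (⟨_, h1⟩ : IntermediateField.adjoin k T)
    obtain ⟨g, hginj, hg⟩ := indep_out ha hb'
    choose l i hi hli using fun j => (hb'T (g j)).resolve_left (hg j)
    have hval : AlgebraicIndependent k fun j : Fin q => (μ (l j) (i j) / μ 0 i0 : M) := by
      refine AlgebraicIndependent.of_comp M.val ?_
      have h1 := hb'.comp g hginj
      have h2 : (b' ∘ g) = (M.val ∘ fun j : Fin q => (μ (l j) (i j) / μ 0 i0 : M)) := by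
        funext j
        exact hli j
      rwa [h2] at h1
    refine ⟨m, hm, Fin.cases (fun D => μ 0 i0 * (Matrix.of fun p q => D p (t q)).det ^ m)
      fun j D => μ (l j) (i j) * (Matrix.of fun p q => D p (t q)).det ^ m, fun j => ?_, E, ?_, ?_⟩
    · refine Fin.cases ?_ (fun j => ?_) j
      · exact hform _ (hμ 0 i0 hi0)
      · exact hform _ (hμ (l j) (i j) (hi j))
    · change μ 0 i0 * (Matrix.of fun p q => E p (t q)).det ^ m ≠ 0
      rwa [hdet, one_pow, mul_one]
    · have h3 : (fun j : Fin q => (μ (l j) (i j) * (Matrix.of fun p q => E p (t q)).det ^ m) /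
          (μ 0 i0 * (Matrix.of fun p q => E p (t q)).det ^ m)) =
          fun j : Fin q => (μ (l j) (i j) / μ 0 i0 : M) := by
        funext j
        rw [hdet, one_pow, mul_one, mul_one]
      exact h3 ▸ hval
  · refine ⟨m, hm, fun _ D => μ 0 i0 * (Matrix.of fun p q => D p (t q)).det ^ m,
      fun _ => hform _ (hμ 0 i0 hi0), E, ?_, ?_⟩
    · change μ 0 i0 * (Matrix.of fun p q => E p (t q)).det ^ m ≠ 0
      rwa [hdet, one_pow, mul_one]
    · exact algebraicIndependent_empty_type_iff.2 (algebraMap k M).injective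

end

end Pool.Agent.L0h17.KU
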