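import Pool.Agent.L0h17.KU.Sec
import Pool.Agent.R885.Top

/-!
The Künneth bound for the numerical dimension of a product.
-/

set_option autoImplicit false
set_option linter.overlappingInstances false
set_option linter.unusedSectionVars false

open FF IntermediateField Pool.Agent.W619.PQ Pool.Agent.W619.PL Pool.Agent.W619.TW
  Pool.Agent.W603.LV Pool.Agent.Y173.QA MvPolynomial Pool.Agent.TH122.AB

namespace Pool.Agent.L0h17.KU

section

variable {k K : Type} [Field k] [Field K] [Algebra k K] {n : ℕ}

theorem Dom.add' {v : Place k K} {S : Finset K} {j : ℕ} {f g : K} (hf : Dom v S j f)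
    (hg : Dom v S j g) : Dom v S j (f + g) := by
  rcases hf with rfl | ⟨s, hs, hs0, h1⟩
  · rw [zero_add]; exact hg
  rcases hg with rfl | ⟨s', hs', hs0', h1'⟩
  · rw [add_zero]; exact Or.inr ⟨s, hs, hs0, h1⟩
  by_cases h0 : f + g = 0
  · exact Or.inl h0
  right
  by_cases hle : v.ord s ≤ v.ord s'
  · refine ⟨s, hs, hs0, ?_⟩
    have h2 : Ge v (j * v.ord s) (f + g) := Ge.add (Or.inr h1)
      (Or.inr (le_trans (mul_le_mul_of_nonneg_left hle (by positivity)) h1'))
    exact h2.resolve_left h0
  · refine ⟨s', hs', hs0', ?_⟩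
    have h2 : Ge v (j * v.ord s') (f + g) := Ge.add
      (Or.inr (le_trans (mul_le_mul_of_nonneg_left (not_le.1 hle).le (by positivity)) h1))
      (Or.inr h1')
    exact h2.resolve_left h0

theorem Dom.smul' {v : Place k K} {S : Finset K} {j : ℕ} {f : K} (hf : Dom v S j f) (c : k) :
    Dom v S j (c • f) := by
  by_cases hc : c = 0
  · rw [hc, zero_smul]; exact Or.inl rfl
  rcases hf with rfl | ⟨s, hs, hs0, h1⟩
  · rw [smul_zero]; exact Or.inl rfl
  by_cases h0 : f = 0
  · rw [h0, smul_zero]; exact Or.inl rfl
  refine Or.inr ⟨s, hs, hs0, ?_⟩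
  rw [Algebra.smul_def, v.ord_mul (by simpa using hc) h0, v.ord_const hc, zero_add]
  exact h1

/-- The form with the value `μ` on the frame dual to `z`. -/
noncomputable def vform (z : Fin n → K) (m : ℕ) (μ : K) (D : Fin n → Derivation k K K) : K :=
  μ * (Matrix.of fun p q => D p (z q)).det ^ m

/-- The values of the sections of `m K + j A` on a frame. -/
def valSub (k : Type) {K : Type} [Field k] [Field K] [Algebra k K] {n : ℕ} (z : Fin n → K)
    (S : Finset K) (m j : ℕ) : Submodule k K where
  carrier := {μ | IsSec k K n (fun _ => False) S m j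
    (fun D => μ * (Matrix.of fun p q => D p (z q)).det ^ m)}
  zero_mem' := ⟨fun A D => by simp, fun v _ _ D _ => Or.inl (by simp),
    fun v _ h => absurd h (fun h => h)⟩
  add_mem' := by
    rintro μ μ' ⟨h1, h2, -⟩ ⟨h1', h2', -⟩
    refine ⟨fun A D => ?_, fun v hv hb D hD => ?_, fun v _ h => absurd h (fun h => h)⟩
    · have e1 := h1 A D
      have e2 := h1' A D
      show (μ + μ') * _ = _ * ((μ + μ') * _)
      rw [add_mul, add_mul]
      linear_combination e1 + e2
    · show Dom v S j ((μ + μ') * _)
      rw [add_mul]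
      exact Dom.add' (h2 v hv hb D hD) (h2' v hv hb D hD)
  smul_mem' := by
    rintro c μ ⟨h1, h2, -⟩
    refine ⟨fun A D => ?_, fun v hv hb D hD => ?_, fun v _ h => absurd h (fun h => h)⟩
    · have e1 := h1 A D
      show (c • μ) * _ = _ * ((c • μ) * _)
      rw [smul_mul_assoc, smul_mul_assoc, mul_smul_comm]
      exact congrArg (c • ·) e1
    · show Dom v S j ((c • μ) * _)
      rw [smul_mul_assoc]
      exact Dom.smul' (h2 v hv hb D hD) c

/-- The dimension of the space of sections is bounded. -/
theorem val_fin [CharZero k] {z : Fin n → K} (hz : IsTranscendenceBasis k z) {h : ℕ}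
    (hnum : NumLe k K n (fun _ => False) h) (S : Finset K) : ∃ C : ℕ, ∀ m, 1 ≤ m →
      ∃ (r : ℕ) (w : Fin r → K), r ≤ C * m ^ h ∧ LinearIndependent k w ∧
        Submodule.span k (Set.range w) = valSub k z S m 1 := by
  classical
  obtain ⟨C, hC⟩ := hnum S
  refine ⟨C, fun m hm => ?_⟩
  obtain ⟨E, hE⟩ := exists_duals hz
  have hdet : (Matrix.of fun p q => E p (z q)).det = 1 := by
    have : (Matrix.of fun p q => E p (z q)) = (1 : Matrix (Fin n) (Fin n) K) := by
      ext p q
      rw [Matrix.of_apply, hE, Matrix.one_apply]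
    rw [this, Matrix.det_one]
  have hb : ∀ s : Finset (valSub k z S m 1), (LinearIndependent k fun i : s => (i : valSub k z S m 1)) →
      s.card ≤ C * m ^ h := by
    intro s hs
    refine hC m s.card hm ⟨fun l => fun D => ((s.equivFin.symm l : valSub k z S m 1) : K) *
      (Matrix.of fun p q => D p (z q)).det ^ m, ?_, fun l => (s.equivFin.symm l : valSub k z S m 1).2⟩
    rw [Fintype.linearIndependent_iff]
    intro g hg
    have h1 := congrFun hg E
    rw [Finset.sum_apply] at h1
    simp only [Pi.smul_apply, hdet, one_pow, mul_one, Pi.zero_apply] at h1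
    have h2 : LinearIndependent k fun l : Fin s.card => (s.equivFin.symm l : valSub k z S m 1) :=
      hs.comp _ s.equivFin.symm.injective
    rw [Fintype.linearIndependent_iff] at h2
    refine h2 g (Subtype.ext ?_)
    rw [AddSubmonoidClass.coe_finsetSum]
    exact h1
  have hr : Module.rank k (valSub k z S m 1) ≤ (C * m ^ h : ℕ) := rank_le hb
  have hfin : Module.Finite k (valSub k z S m 1) :=
    Module.rank_lt_aleph0_iff.1 (hr.trans_lt (Cardinal.natCast_lt_aleph0))
  refine ⟨Module.finrank k (valSub k z S m 1), fun i =>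
    ((Module.finBasis k (valSub k z S m 1) i : valSub k z S m 1) : K), ?_, ?_, ?_⟩
  · have h1 := Module.finrank_eq_rank k (valSub k z S m 1)
    rw [← h1] at hr
    exact_mod_cast hr
  · exact (Module.finBasis k (valSub k z S m 1)).linearIndependent.map'
      (valSub k z S m 1).subtype (Submodule.ker_subtype _)
  · have h1 : (Set.range fun i =>
        ((Module.finBasis k (valSub k z S m 1) i : valSub k z S m 1) : K)) =
        (valSub k z S m 1).subtype '' (Set.range (Module.finBasis k (valSub k z S m 1))) := by
      rw [← Set.range_comp]; rfl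
    rw [h1, ← Submodule.map_span, (Module.finBasis k (valSub k z S m 1)).span_eq,
      Submodule.map_top, Submodule.range_subtype]

end

end Pool.Agent.L0h17.KU
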