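import Pool.Agent.L0h17.KU.Kun

/-!
The Künneth bound for the numerical dimension of a product.
-/

set_option autoImplicit false
set_option linter.overlappingInstances false
set_option linter.unusedSectionVars false

open FF IntermediateField Pool.Agent.W619.PQ Pool.Agent.W619.PL Pool.Agent.W619.TW
  Pool.Agent.W603.LV Pool.Agent.Y173.QA MvPolynomial Pool.Agent.TH122.AB

namespace Pool.Agent.L0h17.KU

section

variable {k K : Type} [Field k] [CharZero k] [Field K] [Algebra k K]
  {M F : IntermediateField k K} {a b : ℕ}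
  {y : Fin a → F} {t : Fin b → M} {Ey : Fin a → Derivation k K K}
  {Et : Fin b → Derivation k K K}

theorem fr_flip : (fun i => fr Et Ey (finAddFlip i)) = fr Ey Et := by
  funext i
  refine Fin.addCases (fun i => ?_) (fun i => ?_) i
  · rw [finAddFlip_apply_castAdd]
    show Fin.append Et Ey _ = Fin.append Ey Et _
    rw [Fin.append_right, Fin.append_left]
  · rw [finAddFlip_apply_natAdd]
    show Fin.append Et Ey _ = Fin.append Ey Et _
    rw [Fin.append_right, Fin.append_left]

theorem flip_sec {S : Finset K} {m j : ℕ} {ω : (Fin (a + b) → Derivation k K K) → K}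
    (hω : IsSec k K (a + b) (fun _ => False) S m j ω) :
    IsSec k K (b + a) (fun _ => False) S m j (fun D => ω (fun i => D (finAddFlip i))) := by
  classical
  refine ⟨fun A D => ?_, fun v hv hb D hD => ?_, fun v _ h => absurd h (fun h => h)⟩
  · have h1 := hω.1 (A.submatrix finAddFlip finAddFlip) (fun i => D (finAddFlip i))
    rw [Matrix.det_submatrix_equiv_self] at h1
    rw [← h1]
    refine congrArg ω ?_
    funext i
    exact (Equiv.sum_comp (finAddFlip : Fin (a + b) ≃ Fin (b + a))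
      (fun j => A (finAddFlip i) j • D j)).symm
  · exact hω.2.1 v ((Nat.add_comm b a) ▸ hv) hb _ fun l => hD _

/-- Components. -/
theorem comp1 [IsAlgClosed k] (h : Pr M F) (f : Frm M F y t Ey Et)
    (hZ : IsTranscendenceBasis k (ZZ y t))
    (hfd : FiniteDimensional (IntermediateField.adjoin k (Set.range (ZZ y t))) K) (S : Finset K) :
    ∃ (c : K) (SM : Finset M) (SF : Finset F), c ≠ 0 ∧
      (∀ (m j : ℕ) (ω : (Fin (a + b) → Derivation k K K) → K),
      IsSec k K (a + b) (fun _ => False) S m j ω →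
        ∃ (s : Finset (Module.Basis.ofVectorSpaceIndex k F))
          (μ : Module.Basis.ofVectorSpaceIndex k F → M),
          c ^ j * ω (fr Ey Et) = ∑ i ∈ s, ((Module.Basis.ofVectorSpace k F i : F) : K) * (μ i : K) ∧
            ∀ i ∈ s, μ i ∈ valSub k t SM m j) ∧
      ∀ (m j : ℕ) (ω : (Fin (a + b) → Derivation k K K) → K),
      IsSec k K (a + b) (fun _ => False) S m j ω → ∀ {ι : Type} (s : Finset ι) (w : ι → M)
        (e : ι → F), LinearIndependent k w →
        c ^ j * ω (fr Ey Et) = ∑ i ∈ s, (e i : K) * (w i : K) → ∀ i ∈ s, e i ∈ valSub k y SF m j := by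
  obtain ⟨c, hc0, -, hcm⟩ := sec_mem h f hZ hfd S
  obtain ⟨SM, hSM⟩ := desc h f S hc0
  obtain ⟨SF, hSF⟩ := desc h.symm f.symm S hc0
  refine ⟨c, SM, SF, hc0, fun m j ω hω => ?_, fun m j ω hω ι s w e hw he i hi => ?_⟩
  · obtain ⟨s, μ, hs⟩ := RR.expand (RR.swap (hcm m j ω hω))
    exact ⟨s, μ, hs, fun i hi => hSM m j ω hω s _ μ
      (Module.Basis.ofVectorSpace k F).linearIndependent hs i hi⟩
  · refine hSF m j _ (flip_sec hω) s w e hw ?_ i hi
    show c ^ j * ω (fun i => fr Et Ey (finAddFlip i)) = _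
    rw [fr_flip, he]
    exact Finset.sum_congr rfl fun i _ => mul_comm _ _

/-- the derivations are combinations of the frame -/
theorem fr_span (f : Frm M F y t Ey Et) (hZ : IsTranscendenceBasis k (ZZ y t))
    (D : Derivation k K K) : ∃ c : Fin (a + b) → K, D = ∑ i, c i • fr Ey Et i :=
  ⟨_, der_expand hZ (fr_dual f) D⟩

/-- **Künneth bound.** -/
theorem num_prod [IsAlgClosed k] (h : Pr M F) (f : Frm M F y t Ey Et)
    (hZ : IsTranscendenceBasis k (ZZ y t))
    (hfd : FiniteDimensional (IntermediateField.adjoin k (Set.range (ZZ y t))) K) {h1 h2 : ℕ}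
    (hF : NumLe k F a (fun _ => False) h1) (hM : NumLe k M b (fun _ => False) h2) :
    NumLe k K (a + b) (fun _ => False) (h1 + h2) := by
  classical
  intro S
  obtain ⟨c, SM, SF, hc0, hA, hB⟩ := comp1 h f hZ hfd S
  obtain ⟨C1, hC1⟩ := val_fin f.hy hF SF
  obtain ⟨C2, hC2⟩ := val_fin f.ht hM SM
  refine ⟨C1 * C2, fun m N hm => ?_⟩
  rintro ⟨ω, hω, hsec⟩
  obtain ⟨r1, u, hr1, hu, hus⟩ := hC1 m hm
  obtain ⟨r2, w, hr2, hw, hws⟩ := hC2 m hm
  have hlin := lin_frame (Φ := fr Ey Et) (fr_span f hZ) hω (fun l => (hsec l).1)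
    (pow_ne_zero 1 hc0)
  let W : Submodule k K := Submodule.span k (Set.range fun p : Fin r1 × Fin r2 =>
    (u p.1 : K) * (w p.2 : K))
  have hmem : ∀ l, c ^ 1 * ω l (fr Ey Et) ∈ W := by
    intro l
    obtain ⟨s, μ, hs, hμ⟩ := hA m 1 (ω l) (hsec l)
    have h3 : ∀ i, ∃ κ : Fin r2 → k, i ∈ s → μ i = ∑ j, κ j • w j := by
      intro i
      by_cases hi : i ∈ s
      · have h4 := hμ i hi
        rw [← hws, Submodule.mem_span_range_iff_exists_fun] at h4
        obtain ⟨κ, hκ⟩ := h4
        exact ⟨κ, fun _ => hκ.symm⟩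
      · exact ⟨0, fun h => absurd h hi⟩
    choose κ hκ using h3
    let e : Fin r2 → F := fun j => ∑ i ∈ s, κ i j • (Module.Basis.ofVectorSpace k F i : F)
    have he : c ^ 1 * ω l (fr Ey Et) = ∑ j ∈ Finset.univ, (e j : K) * (w j : K) := by
      rw [hs]
      have e1 : ∀ i ∈ s, ((Module.Basis.ofVectorSpace k F i : F) : K) * (μ i : K) =
          ∑ j, κ i j • (((Module.Basis.ofVectorSpace k F i : F) : K) * (w j : K)) := by
        intro i hi
        rw [hκ i hi, AddSubmonoidClass.coe_finsetSum, Finset.mul_sum]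
        refine Finset.sum_congr rfl fun j _ => ?_
        show _ * (κ i j • (w j : K)) = _
        rw [mul_smul_comm]
      rw [Finset.sum_congr rfl e1, Finset.sum_comm]
      refine Finset.sum_congr rfl fun j _ => ?_
      show _ = ((∑ i ∈ s, κ i j • (Module.Basis.ofVectorSpace k F i : F) : F) : K) * (w j : K)
      rw [AddSubmonoidClass.coe_finsetSum, Finset.sum_mul]
      refine Finset.sum_congr rfl fun i _ => ?_
      show _ = (κ i j • ((Module.Basis.ofVectorSpace k F i : F) : K)) * (w j : K)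
      rw [smul_mul_assoc]
    have h5 := hB m 1 (ω l) (hsec l) Finset.univ w e hw he
    rw [he]
    refine Submodule.sum_mem _ fun j hj => ?_
    have h6 := h5 j hj
    rw [← hus, Submodule.mem_span_range_iff_exists_fun] at h6
    obtain ⟨ρ, hρ⟩ := h6
    have h7 : (e j : K) * (w j : K) = ∑ i, ρ i • ((u i : K) * (w j : K)) := by
      rw [← hρ, AddSubmonoidClass.coe_finsetSum, Finset.sum_mul]
      refine Finset.sum_congr rfl fun i _ => ?_
      show (ρ i • (u i : K)) * (w j : K) = _
      rw [smul_mul_assoc]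
    rw [h7]
    exact Submodule.sum_mem _ fun i _ => Submodule.smul_mem _ _
      (Submodule.subset_span ⟨(i, j), rfl⟩)
  have hWfin : FiniteDimensional k W := FiniteDimensional.span_of_finite k (Set.finite_range _)
  have h8 : N ≤ Module.finrank k W := by
    have h9 : LinearIndependent k fun l => (⟨c ^ 1 * ω l (fr Ey Et), hmem l⟩ : W) :=
      LinearIndependent.of_comp W.subtype hlin
    have h10 := h9.fintype_card_le_finrank
    rwa [Fintype.card_fin] at h10
  have h11 : Module.finrank k W ≤ r1 * r2 := by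
    refine (finrank_range_le_card _).trans ?_
    rw [Fintype.card_prod, Fintype.card_fin, Fintype.card_fin]
  calc N ≤ r1 * r2 := h8.trans h11
    _ ≤ (C1 * m ^ h1) * (C2 * m ^ h2) := Nat.mul_le_mul hr1 hr2
    _ = C1 * C2 * m ^ (h1 + h2) := by rw [pow_add]; ring

/-- **Descent of pseudo-effectivity.** -/
theorem neg_prod [IsAlgClosed k] (h : Pr M F) (f : Frm M F y t Ey Et)
    (hZ : IsTranscendenceBasis k (ZZ y t))
    (hfd : FiniteDimensional (IntermediateField.adjoin k (Set.range (ZZ y t))) K)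
    (hM : NumNeg k M b (fun _ => False)) : NumNeg k K (a + b) (fun _ => False) := by
  classical
  intro S
  obtain ⟨c, SM, SF, hc0, hA, -⟩ := comp1 h f hZ hfd S
  obtain ⟨m0, hm0⟩ := hM SM
  refine ⟨m0, fun m hm => ?_⟩
  rintro ⟨ω, hω, hsec⟩
  apply hm0 m hm
  have hlin := lin_frame (Φ := fr Ey Et) (fr_span f hZ) hω (fun l => (hsec l).1)
    (pow_ne_zero 1 hc0)
  have hne : c ^ 1 * ω 0 (fr Ey Et) ≠ 0 := hlin.ne_zero 0
  obtain ⟨s, μ, hs, hμ⟩ := hA m 1 (ω 0) (hsec 0)
  obtain ⟨i, hi, hi0⟩ : ∃ i ∈ s, μ i ≠ 0 := by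
    by_contra hcon
    push Not at hcon
    apply hne
    rw [hs]
    refine Finset.sum_eq_zero fun i hi => ?_
    rw [hcon i hi]; simp
  obtain ⟨E, hE⟩ := exists_duals f.ht
  have hdet : (Matrix.of fun p q => E p (t q)).det = 1 := by
    have : (Matrix.of fun p q => E p (t q)) = (1 : Matrix (Fin b) (Fin b) M) := by
      ext p q
      rw [Matrix.of_apply, hE, Matrix.one_apply]
    rw [this, Matrix.det_one]
  refine ⟨fun _ => fun D => μ i * (Matrix.of fun p q => D p (t q)).det ^ m, ?_, fun _ => hμ i hi⟩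
  refine LinearIndependent.of_subsingleton (0 : Fin 1) fun h0 => hi0 ?_
  have h1 := congrFun h0 E
  change μ i * (Matrix.of fun p q => E p (t q)).det ^ m = 0 at h1
  rwa [hdet, one_pow, mul_one] at h1

end

end Pool.Agent.L0h17.KU
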