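import Pool.Agent.L0h17.KU.Gdiv
import Pool.Agent.Y173.QA.Sei
import Pool.Agent.Y173.QA.Hart
import Pool.Agent.Y173.QA.Phi
import Pool.Agent.Y172.Fld
import Pool.Agent.Y172.UpA

/-!
Functions on a product without poles along the divisors which dominate both factors.
-/

set_option autoImplicit false
set_option linter.overlappingInstances false
set_option linter.unusedSectionVars false

open FF IntermediateField Pool.Agent.W619.PQ Pool.Agent.W619.PL Pool.Agent.W619.TW
  Pool.Agent.W603.LV Pool.Agent.Y173.QA MvPolynomial Pool.Agent.TH122.AB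

namespace Pool.Agent.L0h17.KU

section

variable {k K : Type} [Field k] [CharZero k] [Field K] [Algebra k K]
  {M F : IntermediateField k K} {a b : ℕ}

/-- Coordinates `y` on the factor `F`, `t` on the factor `M`, and the coordinate vector fields. -/
structure Frm (M F : IntermediateField k K) (y : Fin a → F) (t : Fin b → M)
    (Ey : Fin a → Derivation k K K) (Et : Fin b → Derivation k K K) : Prop where
  ht : IsTranscendenceBasis k t
  hy : IsTranscendenceBasis k y
  yy : ∀ i j, Ey i (y j : K) = if i = j then 1 else 0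
  yt : ∀ i j, Ey i (t j : K) = 0
  ty : ∀ i j, Et i (y j : K) = 0
  tt : ∀ i j, Et i (t j : K) = if i = j then 1 else 0

variable {y : Fin a → F} {t : Fin b → M} {Ey : Fin a → Derivation k K K}
  {Et : Fin b → Derivation k K K}

theorem Frm.symm (f : Frm M F y t Ey Et) : Frm F M t y Et Ey :=
  ⟨f.hy, f.ht, f.tt, f.ty, f.yt, f.yy⟩

/-- `Et` kills `F`. -/
theorem Frm.kill (f : Frm M F y t Ey Et) (j : Fin b) (z : F) : Et j (z : K) = 0 := by
  have h := der_comp (K := F) (L := K) (0 : Derivation k F F) (Et j) y f.hy (fun c => by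
    show Et j (y c : K) = algebraMap F K ((0 : Derivation k F F) (y c))
    rw [f.ty, Derivation.zero_apply, map_zero]) z
  have h' : Et j (z : K) = algebraMap F K ((0 : Derivation k F F) z) := h
  rw [h', Derivation.zero_apply, map_zero]

/-- `Et` preserves `M`. -/
theorem Frm.pres (f : Frm M F y t Ey Et) : ∃ dM : Fin b → Derivation k M M,
    (∀ i j, dM i (t j) = if i = j then 1 else 0) ∧ ∀ j (z : M), Et j (z : K) = (dM j z : K) := by
  obtain ⟨dM, hdM⟩ := exists_duals f.ht
  refine ⟨dM, hdM, fun j z => ?_⟩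
  refine der_comp (K := M) (L := K) (dM j) (Et j) t f.ht (fun c => ?_) z
  show Et j (t c : K) = ((dM j (t c) : M) : K)
  rw [f.tt, hdM]
  split_ifs <;> simp

theorem RR.ind {p : K → Prop} (hF : ∀ z : F, p (z : K)) (hM : ∀ z : M, p (z : K))
    (hadd : ∀ x y, p x → p y → p (x + y)) (hmul : ∀ x y, x ∈ RR M F → y ∈ RR M F → p x → p y →
      p (x * y)) {z : K} (hz : z ∈ RR M F) : p z := by
  unfold RR at hz
  induction hz using Algebra.adjoin_induction with
  | mem x hx => exact hM ⟨x, hx⟩
  | algebraMap r => exact hF r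
  | add x y _ _ hx hy => exact hadd x y hx hy
  | mul x y hx' hy' hx hy => exact hmul x y hx' hy' hx hy

theorem RR.swap {z : K} (hz : z ∈ RR M F) : z ∈ RR F M :=
  RR.ind (fun z => RR.left z.2) (fun z => RR.right z.2) (fun _ _ => add_mem)
    (fun _ _ _ _ => mul_mem) hz

/-- `Et` preserves the ring. -/
theorem Frm.ring (f : Frm M F y t Ey Et) (j : Fin b) {z : K} (hz : z ∈ RR M F) :
    Et j z ∈ RR M F := by
  obtain ⟨dM, -, hdM⟩ := f.pres
  refine RR.ind (p := fun z => Et j z ∈ RR M F) (fun z => ?_) (fun z => ?_) (fun x y hx hy => ?_)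
    (fun x y hx' hy' hx hy => ?_) hz
  · show Et j (z : K) ∈ _
    rw [f.kill]; exact zero_mem _
  · show Et j (z : K) ∈ _
    rw [hdM]; exact RR.left (dM j z).2
  · show Et j (x + y) ∈ _
    rw [map_add]; exact add_mem hx hy
  · show Et j (x * y) ∈ _
    rw [(Et j).leibniz, smul_eq_mul, smul_eq_mul]
    exact add_mem (mul_mem hx' hy) (mul_mem hy' hx)

/-- The coordinates of the product. -/
def ZZ (y : Fin a → F) (t : Fin b → M) : Fin (a + b) → K :=
  Fin.append (fun i => (y i : K)) fun j => (t j : K)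

theorem ZZ_left (i : Fin a) : ZZ y t (Fin.castAdd b i) = (y i : K) := Fin.append_left _ _ _

theorem ZZ_right (j : Fin b) : ZZ y t (Fin.natAdd a j) = (t j : K) := Fin.append_right _ _ _

theorem ZZ_mem (i : Fin (a + b)) : ZZ y t i ∈ RR M F := by
  refine Fin.addCases (fun i => ?_) (fun j => ?_) i
  · rw [ZZ_left]; exact RR.right (y i).2
  · rw [ZZ_right]; exact RR.left (t j).2

theorem const_mem (c : k) : algebraMap k K c ∈ RR M F := RR.right (F.algebraMap_mem c)

theorem pol_mem (q : MvPolynomial (Fin (a + b)) k) : aeval (ZZ y t) q ∈ RR M F := by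
  rw [aeval_def]
  exact eval₂_mem (fun i _ => const_mem _) ZZ_mem

/-- both kinds of variables occur -/
def Mx (p : MvPolynomial (Fin (a + b)) k) : Prop :=
  (∃ i : Fin a, degreeOf (Fin.castAdd b i) p ≠ 0) ∧ ∃ j : Fin b, degreeOf (Fin.natAdd a j) p ≠ 0

/-- `z` has no poles along the divisors which dominate both factors. -/
def Good (y : Fin a → F) (t : Fin b → M) (z : K) : Prop :=
  ∀ p : MvPolynomial (Fin (a + b)) k, Irreducible p → Mx p → ∀ P : Place k K,
    Adic (ZZ y t) p P → P.Reg z

/-- a polynomial without the variables `t` -/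
theorem pure_left {p : MvPolynomial (Fin (a + b)) k} (hp : ∀ j, degreeOf (Fin.natAdd a j) p = 0) :
    aeval (ZZ y t) p ∈ F := by
  rw [aeval_def, eval₂_eq']
  refine sum_mem fun α hα => mul_mem (F.algebraMap_mem _) ?_
  rw [Fin.prod_univ_add]
  refine mul_mem (prod_mem fun i _ => pow_mem ?_ _) (prod_mem fun j _ => ?_)
  · rw [ZZ_left]; exact (y i).2
  · have h1 := monomial_le_degreeOf (Fin.natAdd a j) hα
    rw [hp j] at h1
    have h2 : α (Fin.natAdd a j) = 0 := by omega
    rw [h2, pow_zero]; exact one_mem _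

theorem pure_right {p : MvPolynomial (Fin (a + b)) k}
    (hp : ∀ j, degreeOf (Fin.castAdd b j) p = 0) : aeval (ZZ y t) p ∈ M := by
  rw [aeval_def, eval₂_eq']
  refine sum_mem fun α hα => mul_mem (M.algebraMap_mem _) ?_
  rw [Fin.prod_univ_add]
  refine mul_mem (prod_mem fun j _ => ?_) (prod_mem fun i _ => pow_mem ?_ _)
  · have h1 := monomial_le_degreeOf (Fin.castAdd b j) hα
    rw [hp j] at h1
    have h2 : α (Fin.castAdd b j) = 0 := by omega
    rw [h2, pow_zero]; exact one_mem _
  · rw [ZZ_right]; exact (t i).2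

theorem pol_left (q : MvPolynomial (Fin a) k) :
    aeval (ZZ y t) (rename (Fin.castAdd b) q) = ((aeval y q : F) : K) := by
  rw [aeval_rename]
  have h1 : (ZZ y t ∘ Fin.castAdd b) = fun i => algebraMap F K (y i) := by
    funext i
    exact ZZ_left i
  rw [h1]
  exact aeval_algebraMap_apply K y q

theorem pol_right (q : MvPolynomial (Fin b) k) :
    aeval (ZZ y t) (rename (Fin.natAdd a) q) = ((aeval t q : M) : K) := by
  rw [aeval_rename]
  have h1 : (ZZ y t ∘ Fin.natAdd a) = fun i => algebraMap M K (t i) := by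
    funext i
    exact ZZ_right i
  rw [h1]
  exact aeval_algebraMap_apply K t q

/-- A place trivial on the polynomials in `y` is trivial on `F`. -/
theorem triv_of {N : IntermediateField k K} {c : ℕ} {x : Fin c → N}
    (hx : IsTranscendenceBasis k x) {P : Place k K}
    (hP : ∀ q : MvPolynomial (Fin c) k, q ≠ 0 → P.ord ((aeval x q : N) : K) = 0) (z : N) :
    P.ord (z : K) = 0 := by
  have halg : Algebra.IsAlgebraic (IntermediateField.adjoin k (Set.range x)) N :=
    hx.isAlgebraic_field
  refine ord_eq_zero_of_alg (K0 := IntermediateField.adjoin k (Set.range x)) (K1 := N) (K2 := K)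
    P ?_ z
  rintro ⟨f, hf⟩
  show P.ord (f : K) = 0
  have hf' := hf
  rw [IntermediateField.mem_adjoin_range_iff] at hf'
  obtain ⟨r, s, rfl⟩ := hf'
  by_cases hr : aeval x r = 0
  · rw [hr, zero_div]
    exact P.ord_zero
  by_cases hs : aeval x s = 0
  · rw [hs, div_zero]
    exact P.ord_zero
  have h1 : r ≠ 0 := by rintro rfl; exact hr (map_zero _)
  have h2 : s ≠ 0 := by rintro rfl; exact hs (map_zero _)
  have e1 : (((aeval x r / aeval x s : N)) : K) = ((aeval x r : N) : K) / ((aeval x s : N) : K) :=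
    map_div₀ (algebraMap N K) _ _
  rw [e1, P.ord_div (fun h => hr (Subtype.ext h)) (fun h => hs (Subtype.ext h)), hP r h1, hP s h2,
    sub_zero]

theorem degreeOf_rename_zero {σ τ : Type} {f : σ → τ} {i : τ} (hi : i ∉ Set.range f)
    (q : MvPolynomial σ k) : degreeOf i (rename f q) = 0 := by
  classical
  apply degreeOf_notMem
  intro h
  have h1 := vars_rename f q h
  rw [Finset.mem_image] at h1
  obtain ⟨s, -, rfl⟩ := h1
  exact hi ⟨s, rfl⟩

theorem castAdd_ne (i : Fin a) (j : Fin b) : Fin.castAdd b i ≠ Fin.natAdd a j := by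
  intro h
  have := congrArg Fin.val h
  simp at this
  omega

variable (f : Frm M F y t Ey Et) {p : MvPolynomial (Fin (a + b)) k} (hm : Mx p)
  {P : Place k K} (hP : Adic (ZZ y t) p P)

include f hm hP in
theorem trivF (z : F) : P.ord (z : K) = 0 := by
  refine triv_of f.hy (fun q hq => ?_) z
  obtain ⟨-, j, hj⟩ := hm
  rw [← pol_left (y := y) (t := t) q]
  refine (hP _ ?_).2.2 (not_dvd_of_degreeOf hj ?_ ?_)
  · intro h0
    exact hq (rename_injective _ (Fin.castAdd_injective a b) (by rw [h0, map_zero]))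
  · refine degreeOf_rename_zero ?_ q
    rintro ⟨i, hi⟩
    exact castAdd_ne i j hi
  · intro h0
    exact hq (rename_injective _ (Fin.castAdd_injective a b) (by rw [h0, map_zero]))

include f hm hP in
theorem trivM (z : M) : P.ord (z : K) = 0 := by
  refine triv_of f.ht (fun q hq => ?_) z
  obtain ⟨⟨i, hi⟩, -⟩ := hm
  rw [← pol_right (y := y) (t := t) q]
  refine (hP _ ?_).2.2 (not_dvd_of_degreeOf hi ?_ ?_)
  · intro h0
    exact hq (rename_injective _ (Fin.natAdd_injective b a) (by rw [h0, map_zero]))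
  · refine degreeOf_rename_zero ?_ q
    rintro ⟨j, hj⟩
    exact castAdd_ne i j hj.symm
  · intro h0
    exact hq (rename_injective _ (Fin.natAdd_injective b a) (by rw [h0, map_zero]))

include f hm hP in
theorem ring_reg {z : K} (hz : z ∈ RR M F) : P.Reg z :=
  RR.ind (p := fun z => P.Reg z) (fun z => Or.inr (trivF f hm hP z).ge)
    (fun z => Or.inr (trivM f hm hP z).ge) (fun _ _ hx hy => P.reg_add hx hy)
    (fun _ _ _ _ hx hy => P.reg_mul hx hy) hz

end

end Pool.Agent.L0h17.KU
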