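import Pool.Agent.L0h17.KU.Mix

/-!
Functions on a product without poles along the divisors which dominate both factors are sums of
products of functions on the factors.
-/

set_option autoImplicit false
set_option linter.overlappingInstances false
set_option linter.unusedSectionVars false

open FF IntermediateField Pool.Agent.W619.PQ Pool.Agent.W619.PL Pool.Agent.W619.TW
  Pool.Agent.W603.LV Pool.Agent.Y173.QA MvPolynomial Pool.Agent.TH122.AB

namespace Pool.Agent.L0h17.KU

section

variable {k K : Type} [Field k] [CharZero k] [Field K] [Algebra k K]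
  {M F : IntermediateField k K} {a b : ℕ}
  {y : Fin a → F} {t : Fin b → M} {Ey : Fin a → Derivation k K K}
  {Et : Fin b → Derivation k K K}

/-- The localization of the ring. -/
def loc (M F : IntermediateField k K) (y : Fin a → F) (t : Fin b → M)
    {p : MvPolynomial (Fin (a + b)) k} (hp : Prime p) : Subring K where
  carrier := {z | ∃ q : MvPolynomial (Fin (a + b)) k, ¬ p ∣ q ∧ z * aeval (ZZ y t) q ∈ RR M F}
  mul_mem' := by
    rintro x x' ⟨q, h1, h2⟩ ⟨q', h1', h2'⟩
    refine ⟨q * q', fun h => ?_, ?_⟩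
    · rcases hp.2.2 _ _ h with h | h
      · exact h1 h
      · exact h1' h
    · have h3 := mul_mem h2 h2'
      rw [map_mul]
      have h4 : x * x' * (aeval (ZZ y t) q * aeval (ZZ y t) q') =
        x * aeval (ZZ y t) q * (x' * aeval (ZZ y t) q') := by ring
      rw [h4]
      exact h3
  one_mem' := ⟨1, fun h => hp.2.1 (isUnit_of_dvd_one h), by
    rw [map_one, mul_one]; exact one_mem _⟩
  add_mem' := by
    rintro x x' ⟨q, h1, h2⟩ ⟨q', h1', h2'⟩
    refine ⟨q * q', fun h => ?_, ?_⟩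
    · rcases hp.2.2 _ _ h with h | h
      · exact h1 h
      · exact h1' h
    · rw [map_mul]
      have h4 : (x + x') * (aeval (ZZ y t) q * aeval (ZZ y t) q') =
        x * aeval (ZZ y t) q * aeval (ZZ y t) q' + x' * aeval (ZZ y t) q' * aeval (ZZ y t) q := by
        ring
      rw [h4]
      exact add_mem (mul_mem h2 (pol_mem _)) (mul_mem h2' (pol_mem _))
  zero_mem' := ⟨1, fun h => hp.2.1 (isUnit_of_dvd_one h), by rw [zero_mul]; exact zero_mem _⟩
  neg_mem' := by
    rintro x ⟨q, h1, h2⟩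
    exact ⟨q, h1, by rw [neg_mul]; exact neg_mem h2⟩

theorem sub_loc {p : MvPolynomial (Fin (a + b)) k} (hp : Prime p) {z : K} (hz : z ∈ RR M F) :
    z ∈ loc M F y t hp :=
  ⟨1, fun h => hp.2.1 (isUnit_of_dvd_one h), by rw [map_one, mul_one]; exact hz⟩

variable (h : Pr M F) (f : Frm M F y t Ey Et) (hZ : IsTranscendenceBasis k (ZZ y t))
  (hfd : FiniteDimensional (IntermediateField.adjoin k (Set.range (ZZ y t))) K)
  {p : MvPolynomial (Fin (a + b)) k} (hp : Irreducible p) (hm : Mx p)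
  {P : Place k K} (hP : Adic (ZZ y t) p P)

include h f hZ hfd hp hm hP in
/-- The coordinate vector fields are regular along the divisors which dominate both factors. -/
theorem pres_mx' {D : Derivation k K K} (hD : ∀ z ∈ RR M F, D z ∈ RR M F) : Pres P D := by
  classical
  set K0 := IntermediateField.adjoin k (Set.range (ZZ y t)) with hK0
  let X : Fin (a + b) → K0 := fun i => ⟨ZZ y t i, IntermediateField.subset_adjoin k _ ⟨i, rfl⟩⟩
  have hX : Gens (k := k) X := Pool.Agent.Y172.gens_of hZ.1 rfl (fun _ => rfl)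
  have hae : ∀ q : MvPolynomial (Fin (a + b)) k, ((aeval X q : K0) : K) = aeval (ZZ y t) q := by
    intro q
    exact (aeval_algebraMap_apply K X q).symm
  have hinj : ∀ q : MvPolynomial (Fin (a + b)) k, aeval (ZZ y t) q = 0 → q = 0 := fun q hq =>
    hZ.1 (by rw [hq, map_zero])
  have hne : P.ord (aeval (ZZ y t) p) ≠ 0 := fun h0 => ((hP p hp.ne_zero).2.1 h0) dvd_rfl
  obtain ⟨e, v, hv⟩ := FF.exists_over (K := K0) P ⟨aeval X p, by
    show P.ord ((aeval X p : K0) : K) ≠ 0
    rw [hae]; exact hne⟩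
  have he : (0 : ℤ) < e := by exact_mod_cast hv.1
  have hv' : ∀ q : MvPolynomial (Fin (a + b)) k, q ≠ 0 →
      0 ≤ v.ord (aeval X q) ∧ (v.ord (aeval X q) = 0 ↔ ¬ p ∣ q) := by
    intro q hq
    have h1 := hP q hq
    have h2 : P.ord (aeval (ZZ y t) q) = e * v.ord (aeval X q) := by
      rw [← hae]; exact hv.2 _
    rw [h2] at h1
    refine ⟨nonneg_of_mul_nonneg_right h1.1 he, ?_⟩
    rw [← h1.2]
    constructor
    · intro h3; rw [h3, mul_zero]
    · intro h3
      rcases mul_eq_zero.1 h3 with h4 | h4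
      · omega
      · exact h4
  refine sei hv D (loc M F y t hp.prime) ?_ ?_ ?_ ?_
  · intro x hx
    obtain ⟨r, s, hs, hps, rfl⟩ := frac_of_reg hX hp hv' hx
    refine ⟨s, hps, ?_⟩
    have e1 : algebraMap K0 K (aeval X r / aeval X s) = aeval (ZZ y t) r / aeval (ZZ y t) s := by
      rw [map_div₀]
      show ((aeval X r : K0) : K) / ((aeval X s : K0) : K) = _
      rw [hae, hae]
    have hs0 : aeval (ZZ y t) s ≠ 0 := fun h0 => hs (hinj s h0)
    rw [e1, div_mul_cancel₀ _ hs0]
    exact pol_mem r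
  · rintro z ⟨q, hq, hz⟩
    have hq0 : q ≠ 0 := by rintro rfl; exact hq (dvd_zero p)
    have h1 := ring_reg f hm hP hz
    have h2 := (hP q hq0).2.2 hq
    by_cases hz0 : z = 0
    · rw [hz0]; exact P.reg_zero
    have hq1 : aeval (ZZ y t) q ≠ 0 := fun h0 => hq0 (hinj q h0)
    have h3 := (P.reg_iff (mul_ne_zero hz0 hq1)).1 h1
    rw [P.ord_mul hz0 hq1, h2, add_zero] at h3
    exact Or.inr h3
  · rintro z ⟨q, hq, hz⟩
    refine ⟨q * q, fun hd => ?_, ?_⟩
    · rcases hp.prime.2.2 _ _ hd with h | h <;> exact hq h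
    · rw [map_mul]
      have h1 := hD _ hz
      rw [D.leibniz, smul_eq_mul, smul_eq_mul] at h1
      have h2 : D z * (aeval (ZZ y t) q * aeval (ZZ y t) q) =
          aeval (ZZ y t) q * (z * D (aeval (ZZ y t) q) + aeval (ZZ y t) q * D z) -
            (z * aeval (ZZ y t) q) * D (aeval (ZZ y t) q) := by ring
      rw [h2]
      exact sub_mem (mul_mem (pol_mem q) h1) (mul_mem hz (hD _ (pol_mem q)))
  · intro z
    obtain ⟨r, hr, s, hs, hs0, rfl⟩ := h.frac z
    exact ⟨s, sub_loc _ hs, hs0, by rw [mul_div_cancel₀ _ hs0]; exact sub_loc _ hr⟩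

include h f hZ hfd hp hm hP in
theorem pres_mx (j : Fin b) : Pres P (Et j) :=
  pres_mx' h f hZ hfd hp hm hP fun _ hz => f.ring j hz

include h f hZ hfd in
theorem Good.der {z : K} (hz : Good y t z) (j : Fin b) : Good y t (Et j z) :=
  fun p hp hm P hP => pres_mx h f hZ hfd hp hm hP j z (hz p hp hm P hP)

/-- Pure factors. -/
theorem exists_pure (B : MvPolynomial (Fin (a + b)) k → Prop)
    (hB : ∀ p q, Irreducible p → Irreducible q → p ∣ q → B p → B q)
    {Q : MvPolynomial (Fin (a + b)) k} (hQ : Q ≠ 0) (U : K → Prop) (hU1 : U 1)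
    (hU : ∀ x x', U x → U x' → U (x * x')) (hBU : ∀ p, Irreducible p → B p → U (aeval (ZZ y t) p)) :
    ∃ r Q' : MvPolynomial (Fin (a + b)) k, U (aeval (ZZ y t) r) ∧ Q = r * Q' ∧
      ∀ p, Irreducible p → B p → ¬ p ∣ Q' := by
  classical
  induction Q using UniqueFactorizationMonoid.induction_on_prime with
  | h₁ => exact absurd rfl hQ
  | h₂ x hx => exact ⟨1, x, by rw [map_one]; exact hU1, (one_mul _).symm,
      fun p hp _ hd => hp.not_isUnit (isUnit_of_dvd_unit hd hx)⟩
  | h₃ x q hx hq ih =>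
    obtain ⟨r, Q', h1, h2, h3⟩ := ih hx
    by_cases hBq : B q
    · exact ⟨q * r, Q', by rw [map_mul]; exact hU _ _ (hBU q hq.irreducible hBq) h1,
        by rw [h2, mul_assoc], h3⟩
    · refine ⟨r, q * Q', h1, by rw [h2]; ring, fun p hp hBp hd => ?_⟩
      rcases hp.prime.2.2 _ _ hd with h4 | h4
      · exact hBq (hB p q hp hq.irreducible h4 hBp)
      · exact h3 p hp hBp h4

theorem pure_dvd {p q : MvPolynomial (Fin (a + b)) k} (hp : Irreducible p) (hq : Irreducible q)
    (hd : p ∣ q) (hB : ¬ Mx p) : ¬ Mx q := by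
  obtain ⟨u, rfl⟩ := hd
  have hu : IsUnit u := (hq.isUnit_or_isUnit rfl).resolve_left hp.not_isUnit
  obtain ⟨c, hc, rfl⟩ := MvPolynomial.isUnit_iff_eq_C_of_isReduced.1 hu
  rintro ⟨⟨i, hi⟩, j, hj⟩
  have h1 : ∀ i, degreeOf i (p * C c) ≤ degreeOf i p := by
    intro i
    refine (degreeOf_mul_le _ _ _).trans ?_
    rw [degreeOf_C, add_zero]
  refine hB ⟨⟨i, fun h0 => hi ?_⟩, j, fun h0 => hj ?_⟩
  · have := h1 (Fin.castAdd b i); omega
  · have := h1 (Fin.natAdd a j); omega

end

end Pool.Agent.L0h17.KU
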