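import Pool.Agent.L0h17.KU.Mix2

/-!
Functions on a product without poles along the divisors which dominate both factors are sums of
products of functions on the factors.
-/

set_option autoImplicit false
set_option linter.overlappingInstances false
set_option linter.unusedSectionVars false

open FF IntermediateField Pool.Agent.W619.PQ Pool.Agent.W619.PL Pool.Agent.W619.TW
  Pool.Agent.W603.LV Pool.Agent.Y173.QA MvPolynomial Pool.Agent.TH122.AB

namespace Pool.Agent.L0h17.KU

section

variable {k K : Type} [Field k] [CharZero k] [Field K] [Algebra k K]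
  {M F : IntermediateField k K} {a b : ℕ}
  {y : Fin a → F} {t : Fin b → M} {Ey : Fin a → Derivation k K K}
  {Et : Fin b → Derivation k K K}

/-- common denominators -/
theorem exists_den (h : Pr M F) (S : Finset K) : ∃ c ∈ RR M F, c ≠ 0 ∧ ∀ z ∈ S, c * z ∈ RR M F := by
  classical
  induction S using Finset.induction_on with
  | empty => exact ⟨1, one_mem _, one_ne_zero, fun z hz => absurd hz (Finset.notMem_empty z)⟩
  | insert x S hx ih =>
    obtain ⟨c, hc, hc0, hcS⟩ := ih
    obtain ⟨r, hr, s, hs, hs0, rfl⟩ := h.frac x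
    refine ⟨c * s, mul_mem hc hs, mul_ne_zero hc0 hs0, fun z hz => ?_⟩
    rcases Finset.mem_insert.1 hz with rfl | hz
    · rw [mul_assoc, mul_div_cancel₀ _ hs0]
      exact mul_mem hc hr
    · rw [mul_comm c s, mul_assoc]
      exact mul_mem hs (hcS z hz)

open IntermediateField.algebraAdjoinAdjoin in
theorem exists_cond (h : Pr M F) (hZ : IsTranscendenceBasis k (ZZ y t))
    (hfd : FiniteDimensional (IntermediateField.adjoin k (Set.range (ZZ y t))) K) :
    ∃ c ∈ RR M F, c ≠ 0 ∧ ∀ z : K, IsIntegral (Algebra.adjoin k (Set.range (ZZ y t))) z →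
      c * z ∈ RR M F := by
  classical
  set A := Algebra.adjoin k (Set.range (ZZ y t)) with hA
  set K0 := IntermediateField.adjoin k (Set.range (ZZ y t)) with hK0
  have hAI : IsIntegrallyClosed A :=
    IsIntegrallyClosed.of_equiv (hZ.1.aevalEquiv).toRingEquiv
  have hfr : IsFractionRing A K0 := inferInstance
  have hc0 : CharZero K0 := charZero_of_injective_algebraMap (algebraMap k K0).injective
  obtain ⟨s, bs, hbs⟩ := FiniteDimensional.exists_is_basis_integral A K0 K
  have h1 := integralClosure_le_span_dualBasis (A := A) (K := K0) (L := K) bs hbs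
  set b' := (Algebra.traceForm K0 K).dualBasis (traceForm_nondegenerate K0 K) bs with hb'
  obtain ⟨c, hc, hc0, hcS⟩ := exists_den h (Finset.univ.image b')
  refine ⟨c, hc, hc0, fun z hz => ?_⟩
  have h2 : z ∈ Submodule.span A (Set.range b') := h1 hz
  have hAm : ∀ r : A, (r : K) ∈ RR M F := by
    rintro ⟨r, hr⟩
    rw [hA, Algebra.adjoin_range_eq_range_aeval] at hr
    obtain ⟨q, rfl⟩ := hr
    exact pol_mem q
  clear hz
  induction h2 using Submodule.span_induction with
  | mem x hx =>
    obtain ⟨i, rfl⟩ := hx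
    exact hcS _ (Finset.mem_image_of_mem _ (Finset.mem_univ i))
  | zero => rw [mul_zero]; exact zero_mem _
  | add x y _ _ hx hy =>
    rw [mul_add]; exact add_mem hx hy
  | smul r x _ hx =>
    have h3 : r • x = (r : K) * x := rfl
    rw [h3, mul_left_comm]
    exact mul_mem (hAm r) hx

theorem good_mul (hZ : IsTranscendenceBasis k (ZZ y t))
    (hfd : FiniteDimensional (IntermediateField.adjoin k (Set.range (ZZ y t))) K) {z : K}
    (hz : Good y t z) : ∃ w ∈ RR M F, ∃ w' ∈ RR M F, w' * w = 1 ∧
      IsIntegral (Algebra.adjoin k (Set.range (ZZ y t))) (w * z) := by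
  classical
  set A := Algebra.adjoin k (Set.range (ZZ y t)) with hA
  have hinj : ∀ q : MvPolynomial (Fin (a + b)) k, aeval (ZZ y t) q = 0 → q = 0 := fun q hq =>
    hZ.1 (by rw [hq, map_zero])
  -- a denominator
  obtain ⟨Q, hQ, hQz⟩ : ∃ Q : MvPolynomial (Fin (a + b)) k, Q ≠ 0 ∧
      IsIntegral A (aeval (ZZ y t) Q * z) := by
    have h1 : IsAlgebraic A z := hZ.isAlgebraic.isAlgebraic z
    obtain ⟨x, hx, hx'⟩ := h1.exists_integral_multiple
    have hxm : (x : K) ∈ (aeval (R := k) (ZZ y t)).range := by
      rw [← Algebra.adjoin_range_eq_range_aeval]; exact x.2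
    obtain ⟨Q, hQ⟩ := hxm
    have hQ' : aeval (ZZ y t) Q = (x : K) := hQ
    refine ⟨Q, ?_, ?_⟩
    · rintro rfl
      rw [map_zero] at hQ'
      exact hx (Subtype.ext hQ'.symm)
    · rw [hQ']; exact hx'
  obtain ⟨r, Q', h1, h2, h3⟩ := exists_pure (a := a) (b := b) (y := y) (t := t) (M := M) (F := F)
    (fun p => ¬ Mx p) (fun p q hp hq hd hB => pure_dvd hp hq hd hB) hQ
    (fun w => w ∈ RR M F ∧ ∃ w' ∈ RR M F, w' * w = 1) ⟨one_mem _, 1, one_mem _, one_mul _⟩
    (by
      rintro x x' ⟨h1, w, h2, h3⟩ ⟨h1', w', h2', h3'⟩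
      refine ⟨mul_mem h1 h1', w * w', mul_mem h2 h2', ?_⟩
      calc w * w' * (x * x') = (w * x) * (w' * x') := by ring
        _ = 1 := by rw [h3, h3', one_mul])
    (by
      intro p hp hB
      have hp0 : aeval (ZZ y t) p ≠ 0 := fun h0 => hp.ne_zero (hinj p h0)
      refine ⟨pol_mem p, (aeval (ZZ y t) p)⁻¹, ?_, inv_mul_cancel₀ hp0⟩
      by_cases hB1 : ∃ i : Fin a, degreeOf (Fin.castAdd b i) p ≠ 0
      · have hB2 : ∀ j : Fin b, degreeOf (Fin.natAdd a j) p = 0 := by
          intro j
          by_contra hj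
          exact hB ⟨hB1, j, hj⟩
        exact RR.right (inv_mem (pure_left hB2))
      · push Not at hB1
        exact RR.left (inv_mem (pure_right hB1)))
  obtain ⟨h1, w', h1', h1''⟩ := h1
  refine ⟨_, h1, w', h1', h1'', int_of_reg hZ hfd fun p hp P hP => ?_⟩
  have hreg : ∀ q : MvPolynomial (Fin (a + b)) k, P.Reg (aeval (ZZ y t) q) := fun q =>
    adic_reg hP q
  by_cases hm : Mx p
  · exact P.reg_mul (hreg r) (hz p hp hm P hP)
  · -- the place is over a pure polynomial
    have h4 : P.Reg (aeval (ZZ y t) Q * z) := by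
      refine P.reg_of_isIntegral (A := A) ?_ hQz
      rintro ⟨x, hx⟩
      rw [hA, Algebra.adjoin_range_eq_range_aeval] at hx
      obtain ⟨q, rfl⟩ := hx
      exact hreg q
    have hQ'0 : Q' ≠ 0 := by
      rintro rfl
      exact hQ (by rw [h2, mul_zero])
    have h5 := (hP Q' hQ'0).2.2 (h3 p hp hm)
    have hQ'1 : aeval (ZZ y t) Q' ≠ 0 := fun h0 => hQ'0 (hinj _ h0)
    have h6 : aeval (ZZ y t) r * z = (aeval (ZZ y t) Q')⁻¹ * (aeval (ZZ y t) Q * z) := by
      rw [h2, map_mul]
      field_simp
    rw [h6]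
    refine P.reg_mul (Or.inr ?_) h4
    rw [P.ord_inv, h5, neg_zero]

/-- The ring has no nontrivial ideal which is stable under the vector fields `Et`. -/
theorem simple [IsAlgClosed k] (h : Pr M F) (f : Frm M F y t Ey Et) (I : K → Prop)
    (hI : ∀ z, I z → z ∈ RR M F) (hmul : ∀ r ∈ RR M F, ∀ z, I z → I (r * z))
    (hder : ∀ j z, I z → I (Et j z)) (hne : ∃ z, I z ∧ z ≠ 0) : I 1 := by
  classical
  obtain ⟨dM, hdM, hdM'⟩ := f.pres
  let bF := Module.Basis.ofVectorSpace k F
  have hlin := h.ldr bF bF.linearIndependent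
  have key : ∀ (n : ℕ) (s : Finset (Module.Basis.ofVectorSpaceIndex k F))
      (μ : Module.Basis.ofVectorSpaceIndex k F → M), s.card ≤ n →
      I (∑ i ∈ s, (bF i : K) * (μ i : K)) → (∑ i ∈ s, (bF i : K) * (μ i : K)) ≠ 0 → I 1 := by
    intro n
    induction n with
    | zero =>
      intro s μ hs _ h0
      rw [Finset.card_eq_zero.1 (Nat.le_zero.1 hs), Finset.sum_empty] at h0
      exact absurd rfl h0
    | succ n ih =>
      intro s μ hs hIz h0
      obtain ⟨i0, hi0, hi0'⟩ : ∃ i ∈ s, μ i ≠ 0 := by
        by_contra hcon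
        push Not at hcon
        apply h0
        refine Finset.sum_eq_zero fun i hi => ?_
        rw [hcon i hi]; simp
      -- normalize
      let μ' : Module.Basis.ofVectorSpaceIndex k F → M := fun i => (μ i0)⁻¹ * μ i
      have h1 : I (∑ i ∈ s, (bF i : K) * (μ' i : K)) := by
        have h2 := hmul (((μ i0)⁻¹ : M) : K) (RR.left (SetLike.coe_mem _)) _ hIz
        convert h2 using 1
        rw [Finset.mul_sum]
        refine Finset.sum_congr rfl fun i _ => ?_
        show (bF i : K) * (((μ i0)⁻¹ * μ i : M) : K) = _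
        push_cast
        ring
      by_cases hconst : ∀ i ∈ s, ∃ c : k, μ' i = algebraMap k M c
      · choose! c hc using hconst
        have h3 : ∑ i ∈ s, (bF i : K) * (μ' i : K) = ((∑ i ∈ s, c i • bF i : F) : K) := by
          rw [AddSubmonoidClass.coe_finsetSum]
          refine Finset.sum_congr rfl fun i hi => ?_
          rw [hc i hi]
          show (bF i : K) * algebraMap k K (c i) = c i • (bF i : K)
          rw [Algebra.smul_def, mul_comm]
        have h4 : (∑ i ∈ s, c i • bF i : F) ≠ 0 := by
          intro h5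
          have h6 := linearIndependent_iff'.1 bF.linearIndependent s c h5 i0 hi0
          have h7 := hc i0 hi0
          rw [h6, map_zero] at h7
          exact (mul_ne_zero (inv_ne_zero hi0') hi0') h7
        rw [h3] at h1
        have h5 := hmul (((∑ i ∈ s, c i • bF i : F)⁻¹ : F) : K) (RR.right (SetLike.coe_mem _)) _ h1
        have h6 : (((∑ i ∈ s, c i • bF i : F)⁻¹ : F) : K) * ((∑ i ∈ s, c i • bF i : F) : K) = 1 := by
          rw [← MulMemClass.coe_mul, inv_mul_cancel₀ h4]; rfl
        rwa [h6] at h5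
      · push Not at hconst
        obtain ⟨i1, hi1, hi1'⟩ := hconst
        obtain ⟨j, hj⟩ : ∃ j, dM j (μ' i1) ≠ 0 := by
          by_contra hcon
          push Not at hcon
          obtain ⟨c, hc⟩ := const_of_all (z := μ' i1) (fun D => by
            rw [der_expand f.ht hdM D, Pool.Agent.Y172.sum_smul_apply]
            refine Finset.sum_eq_zero fun b _ => ?_
            rw [hcon b, mul_zero])
          exact hi1' c hc
        have h2 : Et j (∑ i ∈ s, (bF i : K) * (μ' i : K)) =
            ∑ i ∈ s.erase i0, (bF i : K) * ((dM j (μ' i) : M) : K) := by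
          rw [map_sum, ← Finset.sum_erase_add s _ hi0]
          have h3 : Et j ((bF i0 : K) * (μ' i0 : K)) = 0 := by
            have h4 : μ' i0 = 1 := inv_mul_cancel₀ hi0'
            rw [(Et j).leibniz, f.kill, hdM', h4, Derivation.map_one_eq_zero]
            simp
          rw [h3, add_zero]
          refine Finset.sum_congr rfl fun i _ => ?_
          rw [(Et j).leibniz, f.kill, hdM']
          simp
        refine ih (s.erase i0) (fun i => dM j (μ' i)) ?_ ?_ ?_
        · rw [Finset.card_erase_of_mem hi0]; omega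
        · rw [← h2]; exact hder j _ h1
        · intro h3
          have hi1e : i1 ∈ s.erase i0 := by
            refine Finset.mem_erase.2 ⟨?_, hi1⟩
            rintro rfl
            refine hi1' 1 ?_
            rw [map_one]
            exact inv_mul_cancel₀ hi0'
          have h4 : ∑ i ∈ s.erase i0, (dM j (μ' i)) • (bF i : K) = 0 := by
            rw [← h3]
            refine Finset.sum_congr rfl fun i _ => ?_
            rw [Algebra.smul_def, mul_comm]
            rfl
          exact hj (linearIndependent_iff'.1 hlin _ _ h4 i1 hi1e)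
  obtain ⟨z, hz, hz0⟩ := hne
  obtain ⟨s, μ, hs⟩ := RR.expand (RR.swap (hI z hz))
  rw [hs] at hz hz0
  exact key s.card s μ le_rfl hz hz0

/-- **Functions without poles along the divisors which dominate both factors.** -/
theorem good_mem [IsAlgClosed k] (h : Pr M F) (f : Frm M F y t Ey Et)
    (hZ : IsTranscendenceBasis k (ZZ y t))
    (hfd : FiniteDimensional (IntermediateField.adjoin k (Set.range (ZZ y t))) K) {z : K}
    (hz : Good y t z) : z ∈ RR M F := by
  have hT : ∀ z ∈ RR M F, Good y t z := fun z hz p hp hm P hP => ring_reg f hm hP hz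
  have h1 := simple h f (fun c => c ∈ RR M F ∧ ∀ g, Good y t g → c * g ∈ RR M F)
    (fun z hz => hz.1) (fun r hr z hz => ⟨mul_mem hr hz.1, fun g hg => by
      rw [mul_assoc]; exact mul_mem hr (hz.2 g hg)⟩) (fun j z hz => ⟨f.ring j hz.1, fun g hg => by
      have h2 := f.ring j (hz.2 g hg)
      rw [(Et j).leibniz, smul_eq_mul, smul_eq_mul] at h2
      have h3 : Et j z * g = z * Et j g + g * Et j z - z * Et j g := by ring
      rw [h3]
      exact sub_mem h2 (hz.2 _ (hg.der h f hZ hfd j))⟩) (by
      obtain ⟨c, hc, hc0, hcS⟩ := exists_cond h hZ hfd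
      refine ⟨c, ⟨hc, fun g hg => ?_⟩, hc0⟩
      obtain ⟨w, hw, w', hw', hww, hint⟩ := good_mul hZ hfd hg
      have h2 : c * g = w' * (c * (w * g)) := by
        calc c * g = (w' * w) * (c * g) := by rw [hww, one_mul]
          _ = w' * (c * (w * g)) := by ring
      rw [h2]
      exact mul_mem hw' (hcS _ hint))
  have h2 := h1.2 z hz
  rwa [one_mul] at h2

end

end Pool.Agent.L0h17.KU
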