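import Pool.Agent.L0h17.KU.Prd
import Pool.Agent.L0h17.KU.Cf

/-!
Products of forms on two varieties: sections.
-/

set_option autoImplicit false
set_option linter.overlappingInstances false
set_option linter.unusedSectionVars false

open FF IntermediateField Pool.Agent.W619.PQ Pool.Agent.W619.PL Pool.Agent.W619.TW
  Pool.Agent.W603.LV MvPolynomial Pool.Agent.Y172
open Pool.Agent.W602.GT (Divisorial RegAt IsPluri DerReg)

namespace Pool.Agent.L0h17.KU

section

variable {K : Type} [Field K] [Algebra ℂ K] {n : ℕ}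

/-- sums of sections of `m K + A` where `1` belongs to the functions which generate `A` -/
theorem sec_dom {S : Finset K} (hS : (1 : K) ∈ S) {w : ℕ} {α : (Fin n → Derivation ℂ K K) → K}
    (hα : IsSec ℂ K n (fun _ => False) S w 1 α) {P : Place ℂ K} (hP : Divisorial n P)
    {D : Fin n → Derivation ℂ K K} (hD : ∀ i, DerReg P (D i)) :
    ∃ s ∈ S, s ≠ 0 ∧ Ge P (P.ord s) (α D) := by
  rcases hα.2.1 P hP (fun h => h) D hD with h | ⟨s, hs, hs0, h⟩
  · exact ⟨1, hS, one_ne_zero, Or.inl h⟩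
  · refine ⟨s, hs, hs0, Or.inr ?_⟩
    push_cast at h
    linarith

theorem pull_dom {F : IntermediateField ℂ K} {a : ℕ} [Algebra.EssFiniteType ℂ F]
    (ha : Algebra.trdeg ℂ F = a) (hn : Algebra.trdeg ℂ K = n) {y : Fin a → F}
    (hy : IsTranscendenceBasis ℂ y) {E : Fin a → Derivation ℂ F F}
    (hE : ∀ i j, E i (y j) = if i = j then 1 else 0) {w : ℕ} {S : Finset F} (hS : (1 : F) ∈ S)
    {α : (Fin a → Derivation ℂ F F) → F} (hα : IsSec ℂ F a (fun _ => False) S w 1 α)
    {Q : Place ℂ K} (hQ : Divisorial n Q) {D : Fin a → Derivation ℂ K K}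
    (hD : ∀ i, DerReg Q (D i)) :
    ∃ s ∈ S, s ≠ 0 ∧ Ge Q (Q.ord (s : K))
      ((Matrix.of fun i j => D i (y j : K)).det ^ w * (α E : K)) := by
  classical
  by_cases htriv : ∃ f : F, Q.ord (f : K) ≠ 0
  · obtain ⟨e, P, hP⟩ := exists_over (K := F) Q htriv
    have hPd : Divisorial a P := Pool.Agent.Y71.NT.t_abh F K a n ha hn Q P e hP hQ
    obtain ⟨yP, EP, i0, hl⟩ := exists_loc ha hPd
    have h1 := Pool.Agent.W73.PG.PULL.form_eq (L := K) y yP hy hl.bas E EP hE hl.dual
      (m := w) α hα.1 D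
    have h1' : (Matrix.of fun i j => D i (y j : K)).det ^ w * (α E : K) =
      (Matrix.of fun i j => D i (yP j : K)).det ^ w * (α EP : K) := h1
    obtain ⟨s, hs, hs0, h2⟩ := sec_dom hS hα hPd hl.pres
    refine ⟨s, hs, hs0, ?_⟩
    rw [h1']
    have h9 : Ge Q 0 (Matrix.of fun a c => D a (yP c : K) : Matrix (Fin a) (Fin a) K).det :=
      Pool.Agent.W619.PQ.ge_det Q _ fun a b => hD a _ (hP.reg.2 (hl.reg b))
    have h10 := h9.pow w
    rw [mul_zero] at h10
    have h3 : Ge Q (Q.ord (s : K)) (α EP : K) := by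
      rcases h2 with h2 | h2
      · left
        rw [h2]; rfl
      · right
        have h4 := hP.2 s
        have h5 := hP.2 (α EP)
        change Q.ord (s : K) = _ at h4
        change Q.ord (α EP : K) = _ at h5
        rw [h4, h5]
        exact mul_le_mul_of_nonneg_left h2 (by positivity)
    have h4 := h10.mul h3
    rwa [zero_add] at h4
  · push Not at htriv
    refine ⟨1, hS, one_ne_zero, ?_⟩
    have h0 : ∀ f : F, Q.Reg (f : K) := fun f => Or.inr (htriv f).ge
    have h9 : Ge Q 0 (Matrix.of fun i j => D i (y j : K) : Matrix (Fin a) (Fin a) K).det :=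
      Pool.Agent.W619.PQ.ge_det Q _ fun a b => hD a _ (h0 _)
    have h10 := h9.pow w
    rw [mul_zero] at h10
    have h3 : Ge Q 0 (α E : K) := h0 _
    have h4 := h10.mul h3
    have h5 : Q.ord ((1 : F) : K) = 0 := htriv 1
    rw [h5]
    rwa [zero_add] at h4

end

section

variable {K : Type} [Field K] [Algebra ℂ K]
  {M F : IntermediateField ℂ K} {a b : ℕ}
  {y : Fin a → F} {t : Fin b → M}

/-- **Products of sections.** -/
theorem prod_sec [Algebra.EssFiniteType ℂ F] [Algebra.EssFiniteType ℂ M]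
    (ha : Algebra.trdeg ℂ F = a) (hb : Algebra.trdeg ℂ M = b)
    (hab : Algebra.trdeg ℂ K = (a + b : ℕ))
    (hy : IsTranscendenceBasis ℂ y) (ht : IsTranscendenceBasis ℂ t)
    {E : Fin a → Derivation ℂ F F} (hE : ∀ i j, E i (y j) = if i = j then 1 else 0)
    {E' : Fin b → Derivation ℂ M M} (hE' : ∀ i j, E' i (t j) = if i = j then 1 else 0)
    {w : ℕ} {S : Finset F} (hS : (1 : F) ∈ S) {T : Finset M} (hT : (1 : M) ∈ T)
    {α : (Fin a → Derivation ℂ F F) → F} (hα : IsSec ℂ F a (fun _ => False) S w 1 α)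
    {β : (Fin b → Derivation ℂ M M) → M} (hβ : IsSec ℂ M b (fun _ => False) T w 1 β)
    {Q : Place ℂ K} (hQ : Divisorial (a + b) Q) {D : Fin (a + b) → Derivation ℂ K K}
    (hD : ∀ i, DerReg Q (D i)) :
    ∃ s ∈ S, s ≠ 0 ∧ ∃ u ∈ T, u ≠ 0 ∧ Ge Q (Q.ord ((s : K) * (u : K)))
      (cf (ZZ y t) w ((α E : K) * (β E' : K)) D) := by
  classical
  by_cases hdet : (Matrix.of fun i j => D i (ZZ y t j)).det ^ w = 0
  · refine ⟨1, hS, one_ne_zero, 1, hT, one_ne_zero, Or.inl ?_⟩
    unfold cf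
    rw [hdet, zero_mul]
  by_cases hdet' : (Matrix.of fun i j => D i (ZZ y t j)).det = 0
  · have hw : w = 0 := by
      by_contra h
      exact hdet (by rw [hdet', zero_pow h])
    subst hw
    obtain ⟨s, hs, hs0, h1⟩ := pull_dom ha hab hy hE hS hα hQ (D := fun _ => 0)
      (fun _ f _ => Q.reg_zero)
    obtain ⟨u, hu, hu0, h2⟩ := pull_dom hb hab ht hE' hT hβ hQ (D := fun _ => 0)
      (fun _ f _ => Q.reg_zero)
    refine ⟨s, hs, hs0, u, hu, hu0, ?_⟩
    have h3 := h1.mul h2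
    rw [pow_zero, one_mul, pow_zero, one_mul] at h3
    unfold cf
    rw [pow_zero, one_mul, Q.ord_mul (fun h => hs0 (Subtype.ext h)) (fun h => hu0 (Subtype.ext h))]
    exact h3
  obtain ⟨D₁, D₂, ε, h1, h2, h3⟩ := det_split Q (DerReg Q) (derReg_sub Q)
    (fun i => (y i : K)) (fun j => (t j : K)) D hD hdet'
  obtain ⟨s, hs, hs0, h4⟩ := pull_dom ha hab hy hE hS hα hQ h1
  obtain ⟨u, hu, hu0, h5⟩ := pull_dom hb hab ht hE' hT hβ hQ h2
  refine ⟨s, hs, hs0, u, hu, hu0, ?_⟩
  have h6 := h4.mul h5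
  rw [Q.ord_mul (fun h => hs0 (Subtype.ext h)) (fun h => hu0 (Subtype.ext h))]
  have h7 : (((ε : ℤ) : K)) ^ w * cf (ZZ y t) w ((α E : K) * (β E' : K)) D =
      (Matrix.of fun i j => D₁ i (y j : K)).det ^ w * (α E : K) *
        ((Matrix.of fun i j => D₂ i (t j : K)).det ^ w * (β E' : K)) := by
    unfold cf ZZ
    rw [← mul_assoc, ← mul_pow, ← h3, mul_pow]
    ring
  rw [← h7] at h6
  have h8 : (((ε : ℤ) : K)) ^ w = 1 ∨ (((ε : ℤ) : K)) ^ w = -1 := by
    rcases Int.units_eq_one_or ε with h | h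
    · left
      rw [h]; simp
    · rw [h]
      rcases Nat.even_or_odd w with hw | hw
      · left
        simp [hw.neg_one_pow]
      · right
        simp [hw.neg_one_pow]
  rcases h8 with h8 | h8
  · rwa [h8, one_mul] at h6
  · rw [h8] at h6
    have h9 := h6.neg
    simpa using h9

end

end Pool.Agent.L0h17.KU
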