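import Pool.Agent.L0h17.KU.Setup
import Pool.Agent.N999.SX.FG

/-!
Products: forms on the product which satisfy the multiplier conditions.
-/

set_option autoImplicit false
set_option linter.overlappingInstances false
set_option linter.unusedSectionVars false

open FF IntermediateField Pool.Agent.W619.PQ Pool.Agent.W619.PL Pool.Agent.W619.TW
  Pool.Agent.W603.LV MvPolynomial Pool.Agent.Y172
open Pool.Agent.W602.GT (Divisorial RegAt IsPluri DerReg)
open Pool.Agent.L0h17.DN (GeQ OrdAt PairNumNeg geQ_int)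

namespace Pool.Agent.L0h17.KU

section

variable {k K : Type} [Field k] [Field K] [Algebra k K] {n : ℕ}

theorem pair_iff {S : Finset K} {m j : ℕ} {ω : (Fin n → Derivation k K K) → K} :
    IsPairSec k K n (fun _ => 0) S m j ω ↔ IsSec k K n (fun _ => False) S m j ω := by
  constructor
  · rintro ⟨h1, h2⟩
    refine ⟨h1, fun v hv _ D hD => ?_, fun v _ h => absurd h (fun h => h)⟩
    rcases h2 v hv D hD with h | ⟨s, hs, hs0, h⟩
    · exact Or.inl h
    · refine Or.inr ⟨s, hs, hs0, ?_⟩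
      rw [mul_zero, sub_zero] at h
      exact_mod_cast h
  · rintro ⟨h1, h2, -⟩
    refine ⟨h1, fun v hv D hD => ?_⟩
    rcases h2 v hv (fun h => h) D hD with h | ⟨s, hs, hs0, h⟩
    · exact Or.inl h
    · refine Or.inr ⟨s, hs, hs0, ?_⟩
      rw [mul_zero, sub_zero]
      exact_mod_cast h

theorem numLe_iff {h : ℕ} :
    PairNumLe k K n (fun _ => 0) h ↔ NumLe k K n (fun _ => False) h := by
  unfold PairNumLe NumLe
  simp only [pair_iff, HasIndep]

theorem neg_iff : PairNumNeg k K n (fun _ => 0) ↔ NumNeg k K n (fun _ => False) := by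
  unfold PairNumNeg NumNeg
  simp only [pair_iff, HasIndep]

end

section

variable {K : Type} [Field K] [Algebra ℂ K] {M F : IntermediateField ℂ K} {a b p : ℕ}

/-- positivity: the forms `c ^ (2 p) η` and `c ^ (2 p) g j η` are regular -/
def Posv {F : Type} [Field F] [Algebra ℂ F] (a p : ℕ) (η : (Fin a → Derivation ℂ F F) → F)
    (g : Fin a → F) (c : F) : Prop :=
  ∀ P : Place ℂ F, Divisorial a P → ∀ D : Fin a → Derivation ℂ F F, (∀ l, DerReg P (D l)) →
    Ge P 0 (c ^ (2 * p) * η D) ∧ ∀ j, Ge P 0 (c ^ (2 * p) * (g j * η D))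

theorem alpha_sec {F : Type} [Field F] [Algebra ℂ F] {η : (Fin a → Derivation ℂ F F) → F}
    (hη : IsPluri p η) {g : Fin a → F} {c : F} (hpos : Posv a p η g c) {J : ℕ} {γ : Fin a → ℕ}
    (hγ : ∑ i, γ i ≤ J) : IsSec ℂ F a (fun _ => False) {1} (p * J) 1
      (fun D => c ^ (2 * (p * J)) * ((∏ i, g i ^ γ i) * η D ^ J)) := by
  refine ⟨?_, fun P hP _ D hD => ?_, fun v _ h => absurd h (fun h => h)⟩
  · intro A D
    have h1 := hη A D
    change c ^ (2 * (p * J)) * ((∏ i, g i ^ γ i) * η _ ^ J) = _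
    rw [h1, mul_pow, ← pow_mul]
    ring
  · obtain ⟨h1, h2⟩ := hpos P hP D hD
    rcases mono_ge h1 h2 γ hγ with h3 | h3
    · exact Or.inl h3
    · exact Or.inr ⟨1, Finset.mem_singleton_self 1, one_ne_zero, by
        rw [P.ord_one, mul_zero]; exact h3⟩

variable {L : Type} [Field L] [Algebra ℂ L] [Algebra L K] [IsScalarTower ℂ L K]
  [FiniteDimensional L K] [Algebra.EssFiniteType ℂ K]

theorem mem_adm (ha : Algebra.trdeg ℂ F = a) (hb : Algebra.trdeg ℂ M = b)
    (hab : Algebra.trdeg ℂ K = (a + b : ℕ)) {y : Fin a → F} {t : Fin b → M}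
    (hy : IsTranscendenceBasis ℂ y) (ht : IsTranscendenceBasis ℂ t)
    {E : Fin a → Derivation ℂ F F} (hE : ∀ i j, E i (y j) = if i = j then 1 else 0)
    {E' : Fin b → Derivation ℂ M M} (hE' : ∀ i j, E' i (t j) = if i = j then 1 else 0)
    {η : (Fin a → Derivation ℂ F F) → F}
    (hη : IsPluri p η) {g : Fin a → F} {ι : Type} {bs : ι → K}
    (hbs : ∀ i, ∃ c : F, bs i = c ∧ Posv a p η g c) {Z : Fin (a + b) → K}
    (hZ : IsTranscendenceBasis ℂ Z) {EZ : Fin (a + b) → Derivation ℂ K K}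
    (hEZ : ∀ i j, EZ i (Z j) = if i = j then 1 else 0) {S : Finset M} (hS : (1 : M) ∈ S)
    {S' : Finset K} (hS' : (1 : K) ∈ S') (hSS : ∀ s ∈ S, (s : K) ∈ S') {J : ℕ} {γ : Fin a → ℕ}
    (hγ : ∑ i, γ i ≤ J) {β : M}
    (hβ : IsSec ℂ M b (fun _ => False) S (p * J) 1 (cf (k := ℂ) t (p * J) β)) :
    (((∏ i, g i ^ γ i) * η E ^ J : F) : K) * (β : K) *
      (Matrix.of fun i j => EZ i (ZZ y t j)).det ^ (p * J) ∈
      adm (fun _ : Place ℂ L => (0 : ℚ)) bs Z S' hS' (p * J) := by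
  have hessF := Pool.Agent.N999.SX.ess_any F
  have hessM := Pool.Agent.N999.SX.ess_any M
  intro Q P e hQP hQ i G hG
  obtain ⟨c, hc, hpos⟩ := hbs i
  obtain ⟨s, hs, hs0, u, hu, hu0, h1⟩ := prod_sec ha hb hab hy ht hE hE'
    (Finset.mem_singleton_self (1 : F)) hS (alpha_sec hη hpos hγ) hβ hQ hG
  rw [Finset.mem_singleton] at hs
  subst hs
  refine ⟨(u : K), hSS u hu, fun h => hu0 (Subtype.ext h), ?_⟩
  have h2 : cf (k := ℂ) Z (p * J) ((((∏ i, g i ^ γ i) * η E ^ J : F) : K) * (β : K) *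
      (Matrix.of fun i j => EZ i (ZZ y t j)).det ^ (p * J)) G =
      cf (k := ℂ) (ZZ y t) (p * J) ((((∏ i, g i ^ γ i) * η E ^ J : F) : K) * (β : K)) G := by
    have h3 := congrFun (cf_of (k := ℂ) hZ hEZ (cf_pluri (k := ℂ) (ZZ y t) (p * J)
      ((((∏ i, g i ^ γ i) * η E ^ J : F) : K) * (β : K)))) G
    rw [h3]
    congr 1
    unfold cf
    ring
  rw [h2, hc]
  have h3 : (c : K) ^ (2 * (p * J)) * cf (k := ℂ) (ZZ y t) (p * J)
      ((((∏ i, g i ^ γ i) * η E ^ J : F) : K) * (β : K)) G =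
      cf (k := ℂ) (ZZ y t) (p * J)
      (((c ^ (2 * (p * J)) * ((∏ i, g i ^ γ i) * η E ^ J) : F) : K) *
        ((cf (k := ℂ) t (p * J) β E' : M) : K)) G := by
    rw [cf_frame hE']
    unfold cf
    push_cast
    ring
  rw [h3]
  have h4 := geQ_int.2 h1
  refine h4.mono ?_
  push_cast
  rw [mul_zero, sub_zero, one_mul]

end

end Pool.Agent.L0h17.KU
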