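import Pool.Agent.L0h17.KU.Pt2
import Pool.Agent.L0h17.DN.Main

/-!
Products: lower bounds for the numerical dimension and the Kodaira dimension of the image.
-/

set_option autoImplicit false
set_option linter.overlappingInstances false
set_option linter.unusedSectionVars false

open FF IntermediateField Pool.Agent.W619.PQ Pool.Agent.W619.PL Pool.Agent.W619.TW
  Pool.Agent.W603.LV MvPolynomial Pool.Agent.Y172
open Pool.Agent.W602.GT (Divisorial RegAt IsPluri DerReg)
open Pool.Agent.L0h17.DN (GeQ OrdAt PairNumNeg geQ_int ne_frame ratio_eq)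

namespace Pool.Agent.L0h17.KU

section

variable {K : Type} [Field K] [Algebra ℂ K]

/-- The data: `K` is the function field of `Y × S`, `F` and `M` those of `Y` and `S`, `L ⊆ K` that of
the image, `η` a `p`-canonical form on `Y`, and `c i` functions on `Y` which span `K` over `L`. -/
structure Dat (L : Type) [Field L] [Algebra L K] (F M : IntermediateField ℂ K) (a b p : ℕ)
    {κ : Type} (η : (Fin a → Derivation ℂ F F) → F) (g : Fin a → F) (c : κ → F) : Prop where
  ha : Algebra.trdeg ℂ F = a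
  hb : Algebra.trdeg ℂ M = b
  hab : Algebra.trdeg ℂ K = (a + b : ℕ)
  hs : M ⊔ F = ⊤
  a1 : 1 ≤ a
  p1 : 1 ≤ p
  hη : IsPluri p η
  hη0 : ∃ D, η D ≠ 0
  hg : AlgebraicIndependent ℂ g
  hc : Submodule.span L (Set.range fun i => (c i : K)) = ⊤
  hpos : ∀ i, Posv a p η g (c i)

variable {M F : IntermediateField ℂ K} {a b p : ℕ} {L : Type} [Field L] [Algebra ℂ L]
  [Algebra L K] [IsScalarTower ℂ L K] [FiniteDimensional L K] [Algebra.EssFiniteType ℂ K]
  {κ : Type} {η : (Fin a → Derivation ℂ F F) → F} {g : Fin a → F} {c : κ → F}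

theorem basis_of [Finite κ] (hc : Submodule.span L (Set.range fun i => (c i : K)) = ⊤) :
    ∃ (ι : Type) (_ : Fintype ι) (bs : Module.Basis ι L K), ∀ i, ∃ j, bs i = (c j : K) := by
  classical
  obtain ⟨s, hs, hs2, hs3⟩ := exists_linearIndependent L (Set.range fun i => (c i : K))
  rw [hc] at hs2
  have hfin : Finite s := (Set.finite_range fun i => (c i : K)).subset hs
  refine ⟨s, Fintype.ofFinite s, Module.Basis.mk hs3 ?_, fun i => ?_⟩
  · rw [Subtype.range_coe_subtype, Set.ofPred_mem_eq, hs2]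
  · obtain ⟨j, hj⟩ := hs i.2
    exact ⟨j, by rw [Module.Basis.mk_apply]; exact hj.symm⟩

theorem val_indep {n m N : ℕ} {k R : Type} [Field k] [CharZero k] [Field R] [Algebra k R]
    {t : Fin n → R} (ht : IsTranscendenceBasis k t) {E : Fin n → Derivation k R R}
    (hE : ∀ i j, E i (t j) = if i = j then 1 else 0) {ω : Fin N → (Fin n → Derivation k R R) → R}
    (hω : LinearIndependent k ω) (hp : ∀ l, IsPluri m (ω l)) :
    LinearIndependent k fun l => ω l E := by
  rw [Fintype.linearIndependent_iff] at hω ⊢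
  intro r hr
  refine hω r ?_
  funext D
  rw [Finset.sum_apply, Pi.zero_apply]
  have h1 : ∀ l, (r l • ω l) D = (Matrix.of fun i j => D i (t j)).det ^ m * (r l • ω l E) := by
    intro l
    rw [Pi.smul_apply, pluri_coord ht hE (hp l) D, mul_smul_comm]
  rw [Finset.sum_congr rfl fun l _ => h1 l, ← Finset.mul_sum, hr, mul_zero]

/-- **The count.** -/
theorem low_mn [Finite κ] (d : Dat L F M a b p η g c) :
    ∀ S : Finset M, ∃ (S' : Finset K) (hS' : (1 : K) ∈ S') (ι : Type) (_ : Fintype ι)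
      (bs : Module.Basis ι L K) (z : Fin (a + b) → L), IsTranscendenceBasis ℂ z ∧
      ∀ m N : ℕ, 1 ≤ m → HasIndep ℂ M b N (IsSec ℂ M b (fun _ => False) S m 1) →
      ∃ j : ℕ, 1 ≤ j ∧ m ≤ p * (a * j) ∧ j ≤ m ∧ ∃ V : Submodule ℂ K, FiniteDimensional ℂ V ∧
        V ≤ adm (fun _ : Place ℂ L => (0 : ℚ)) bs (fun i => algebraMap L K (z i)) S' hS'
          (p * (a * j)) ∧ Module.finrank ℂ V = (j + 1) ^ a * N := by
  classical
  intro S
  have hL : Algebra.trdeg ℂ L = (a + b : ℕ) :=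
    (Pool.Agent.Y190.BV.trdeg_ext (k := ℂ) (K := L) (L := K)).symm.trans d.hab
  obtain ⟨y, t, Ey, Et, hZ, f, hpr⟩ := setup d.ha d.hb d.hab d.hs
  obtain ⟨E, hE⟩ := Pool.Agent.Y173.QA.exists_duals f.hy
  obtain ⟨E', hE'⟩ := Pool.Agent.Y173.QA.exists_duals f.ht
  obtain ⟨z, Ez, hz, hEz⟩ := exists_crd (k := ℂ) hL
  have hzK : IsTranscendenceBasis ℂ (fun j => algebraMap L K (z j)) := hz.algebraMap_comp
  obtain ⟨EZ, hEZ⟩ := Pool.Agent.Y173.QA.exists_duals hzK
  obtain ⟨ι, iι, bs, hbs⟩ := basis_of (L := L) d.hc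
  obtain ⟨T, hT1, hT⟩ := adjust (k := ℂ) f.ht hE' S (p * a)
  have hTK : (1 : K) ∈ T.image fun s : M => (s : K) :=
    Finset.mem_image.2 ⟨1, hT1, rfl⟩
  refine ⟨T.image fun s : M => (s : K), hTK, ι, iι, bs, z, hz, fun m N hm hI => ?_⟩
  obtain ⟨ω, hω, hsec⟩ := hI
  have hq : 1 ≤ p * a := Nat.mul_pos d.p1 d.a1
  obtain ⟨j, hj⟩ : ∃ j, j = (m + p * a - 1) / (p * a) := ⟨_, rfl⟩
  have hdm := Nat.div_add_mod (m + p * a - 1) (p * a)
  have hmod := Nat.mod_lt (m + p * a - 1) hq
  rw [← hj] at hdm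
  have hw : p * (a * j) = p * a * j := by ring
  have hj1 : 1 ≤ j := by
    rcases Nat.eq_zero_or_pos j with h0 | h0
    · rw [h0, mul_zero, zero_add] at hdm
      omega
    · exact h0
  have hmw : m ≤ p * (a * j) := by
    rw [hw]
    omega
  have hwm : p * (a * j) ≤ m + p * a := by
    rw [hw]
    omega
  have hjm : j ≤ m := by
    by_contra hcon
    have h1 : p * a * (m + 1) ≤ p * a * j := Nat.mul_le_mul_left _ (by omega)
    have h2 : p * a * (m + 1) = p * a * m + p * a := by ring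
    have h3 : m ≤ p * a * m := Nat.le_mul_of_pos_left _ hq
    omega
  refine ⟨j, hj1, hmw, hjm, ?_⟩
  obtain ⟨r, hr⟩ : ∃ r, p * (a * j) = m + r := ⟨p * (a * j) - m, by omega⟩
  have hrq : r ≤ p * a := by omega
  have hβ : ∀ l, IsSec ℂ M b (fun _ => False) T (p * (a * j)) 1
      (cf (k := ℂ) t (p * (a * j)) (ω l E')) := by
    intro l
    rw [hr]
    exact hT m r hrq (ω l) (hsec l)
  -- the family
  obtain ⟨Δ, hΔ⟩ : ∃ Δ, Δ = (Matrix.of fun i j => EZ i (ZZ y t j)).det := ⟨_, rfl⟩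
  have hΔ0 : Δ ≠ 0 := by
    have h1 := ne_frame (cf_pluri (k := ℂ) (ZZ y t) 1 (1 : K)) (D := fr Ey Et)
      (by rw [cf_frame (fr_dual f)]; exact one_ne_zero) hzK hEZ
    intro h0
    apply h1
    unfold cf
    rw [← hΔ, h0]
    simp
  obtain ⟨D0, hD0⟩ := d.hη0
  have hηE : η E ≠ 0 := ne_frame d.hη hD0 f.hy hE
  let u : (Fin a → Fin (j + 1)) → F := fun γ =>
    (∏ i, g i ^ (γ i : ℕ)) * η E ^ (a * j)
  have hu : LinearIndependent ℂ u := by
    have h1 := (linInd_mono d.hg).comp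
      (fun γ : Fin a → Fin (j + 1) => Finsupp.equivFunOnFinite.symm fun i => (γ i : ℕ))
      (fun γ γ' h => by
        funext i
        exact Fin.ext (congrFun (Finsupp.equivFunOnFinite.symm.injective h) i))
    have h2 := h1.map' (LinearMap.mulRight ℂ (η E ^ (a * j))) (by
      rw [LinearMap.ker_eq_bot]
      intro x x' h
      exact mul_right_cancel₀ (pow_ne_zero _ hηE) h)
    exact h2
  have hv : LinearIndependent ℂ fun l => ω l E' :=
    val_indep f.ht hE' hω fun l => (hsec l).1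
  have huv := lin_mul hpr hu hv
  let x : (Fin a → Fin (j + 1)) × Fin N → K := fun q =>
    (u q.1 : K) * ((ω q.2 E' : M) : K) * Δ ^ (p * (a * j))
  have hx : LinearIndependent ℂ x := by
    have h2 := huv.map' (LinearMap.mulRight ℂ (Δ ^ (p * (a * j)))) (by
      rw [LinearMap.ker_eq_bot]
      intro x x' h
      exact mul_right_cancel₀ (pow_ne_zero _ hΔ0) h)
    exact h2
  refine ⟨Submodule.span ℂ (Set.range x), FiniteDimensional.span_of_finite ℂ (Set.finite_range x),
    ?_, ?_⟩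
  · rw [Submodule.span_le]
    rintro _ ⟨⟨γ, l⟩, rfl⟩
    have hγ : ∑ i, (γ i : ℕ) ≤ a * j := by
      calc ∑ i, (γ i : ℕ) ≤ ∑ _i : Fin a, j :=
            Finset.sum_le_sum fun i _ => by have := (γ i).2; omega
        _ = a * j := by rw [Finset.sum_const, Finset.card_univ, Fintype.card_fin, smul_eq_mul]
    have h1 := mem_adm (L := L) d.ha d.hb d.hab f.hy f.ht hE hE' d.hη (g := g) (bs := bs)
      (fun i => by
        obtain ⟨j', hj'⟩ := hbs i
        exact ⟨c j', hj', d.hpos j'⟩) hzK hEZ hT1 hTK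
      (fun s hs => Finset.mem_image_of_mem _ hs) hγ (hβ l)
    rw [← hΔ] at h1
    exact h1
  · rw [finrank_span_eq_card hx, Fintype.card_prod, Fintype.card_fun, Fintype.card_fin,
      Fintype.card_fin, Fintype.card_fin]

/-- **The numerical dimension, lower bound.** -/
theorem num_lower [Finite κ] (d : Dat L F M a b p η g c) {h : ℕ}
    (hnum : NumLe ℂ L (a + b) (fun _ => False) (a + h)) : NumLe ℂ M b (fun _ => False) h := by
  classical
  have hL : Algebra.trdeg ℂ L = (a + b : ℕ) :=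
    (Pool.Agent.Y190.BV.trdeg_ext (k := ℂ) (K := L) (L := K)).symm.trans d.hab
  have hessL : Algebra.EssFiniteType ℂ L := Pool.Agent.TH466.QG.ess_below (K := K)
  intro S
  obtain ⟨S', hS', ι, iι, bs, z, hz, hcount⟩ := low_mn d S
  obtain ⟨C, hC⟩ := num_low hL bs hz (numLe_iff.2 hnum) hS'
  refine ⟨C * (p * a) ^ (a + h), fun m N hm hI => ?_⟩
  obtain ⟨j, hj1, hmw, hjm, V, hVf, hV, hrk⟩ := hcount m N hm hI
  have hw1 : 1 ≤ p * (a * j) := hm.trans hmw
  have h1 := hC _ hw1 V hVf hV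
  rw [hrk] at h1
  have h2 : (j + 1) ^ a * N ≤ (j + 1) ^ a * (C * (p * a) ^ (a + h) * m ^ h) := by
    calc (j + 1) ^ a * N ≤ C * (p * (a * j)) ^ (a + h) := h1
      _ = C * (p * a) ^ (a + h) * (j ^ a * j ^ h) := by
          rw [← mul_assoc p a j, mul_pow (p * a) j, pow_add j a h]
          ring
      _ ≤ C * (p * a) ^ (a + h) * ((j + 1) ^ a * m ^ h) := by
          refine Nat.mul_le_mul_left _ (Nat.mul_le_mul (Nat.pow_le_pow_left (by omega) _)
            (Nat.pow_le_pow_left hjm _))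
      _ = _ := by ring
  exact Nat.le_of_mul_le_mul_left h2 (by positivity)

/-- the numerical dimension is at least the dimension of `Y` -/
theorem num_ge [Finite κ] (d : Dat L F M a b p η g c) {h : ℕ}
    (hM : ¬ NumNeg ℂ M b (fun _ => False)) (hnum : NumLe ℂ L (a + b) (fun _ => False) h) :
    a ≤ h := by
  classical
  have hL : Algebra.trdeg ℂ L = (a + b : ℕ) :=
    (Pool.Agent.Y190.BV.trdeg_ext (k := ℂ) (K := L) (L := K)).symm.trans d.hab
  have hessL : Algebra.EssFiniteType ℂ L := Pool.Agent.TH466.QG.ess_below (K := K)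
  by_contra hlt
  push Not at hlt
  apply hM
  intro S
  obtain ⟨S', hS', ι, iι, bs, z, hz, hcount⟩ := low_mn d S
  obtain ⟨C, hC⟩ := num_low hL bs hz (numLe_iff.2 hnum) hS'
  refine ⟨p * a * (C * (p * a) ^ h) + 1, fun m hm hI => ?_⟩
  obtain ⟨j, hj1, hmw, hjm, V, hVf, hV, hrk⟩ := hcount m 1 (by omega) hI
  have hw1 : 1 ≤ p * (a * j) := by
    have := Nat.mul_pos d.p1 (Nat.mul_pos d.a1 hj1)
    omega
  have h1 := hC _ hw1 V hVf hV
  rw [hrk, mul_one] at h1
  have h2 : (j + 1) ^ (a - 1) * (j + 1) ≤ (j + 1) ^ (a - 1) * (C * (p * a) ^ h) := by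
    calc (j + 1) ^ (a - 1) * (j + 1) = (j + 1) ^ a := by
          rw [← pow_succ]
          congr 1
          have := d.a1
          omega
      _ ≤ C * (p * (a * j)) ^ h := h1
      _ = C * (p * a) ^ h * j ^ h := by rw [← mul_assoc p a j, mul_pow (p * a) j]; ring
      _ ≤ C * (p * a) ^ h * (j + 1) ^ (a - 1) := by
          refine Nat.mul_le_mul_left _ ?_
          calc j ^ h ≤ (j + 1) ^ h := Nat.pow_le_pow_left (by omega) _
            _ ≤ (j + 1) ^ (a - 1) := Nat.pow_le_pow_right (by omega) (by omega)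
      _ = _ := by ring
  have h3 := Nat.le_of_mul_le_mul_left h2 (by positivity)
  have h4 : p * (a * j) ≤ p * a * (C * (p * a) ^ h) := by
    rw [← mul_assoc]
    exact Nat.mul_le_mul_left _ (by omega)
  omega

/-- **Pseudo-effectivity.** -/
theorem neg_lower [Finite κ] (d : Dat L F M a b p η g c)
    (hneg : NumNeg ℂ L (a + b) (fun _ => False)) : NumNeg ℂ M b (fun _ => False) := by
  classical
  have hL : Algebra.trdeg ℂ L = (a + b : ℕ) :=
    (Pool.Agent.Y190.BV.trdeg_ext (k := ℂ) (K := L) (L := K)).symm.trans d.hab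
  have hessL : Algebra.EssFiniteType ℂ L := Pool.Agent.TH466.QG.ess_below (K := K)
  intro S
  obtain ⟨S', hS', ι, iι, bs, z, hz, hcount⟩ := low_mn d S
  obtain ⟨w₀, hw₀⟩ := neg_low hL bs hz (neg_iff.2 hneg) hS'
  refine ⟨w₀ + 1, fun m hm hI => ?_⟩
  obtain ⟨j, hj1, hmw, hjm, V, hVf, hV, hrk⟩ := hcount m 1 (by omega) hI
  have h1 : V = ⊥ := by
    rw [eq_bot_iff]
    intro x hx
    exact hw₀ _ (by omega) x (hV hx)
  rw [h1, finrank_bot, mul_one] at hrk
  have : 0 < (j + 1) ^ a := by positivity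
  omega

end

end Pool.Agent.L0h17.KU
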