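import Pool.Agent.L0h17.KU.Pt3

/-!
Products: the Kodaira dimension of the image, and the upper bounds.
-/

set_option autoImplicit false
set_option linter.overlappingInstances false
set_option linter.unusedSectionVars false

open FF IntermediateField Pool.Agent.W619.PQ Pool.Agent.W619.PL Pool.Agent.W619.TW
  Pool.Agent.W603.LV MvPolynomial Pool.Agent.Y172
open Pool.Agent.W602.GT (Divisorial RegAt IsPluri DerReg)
open Pool.Agent.L0h17.DN (GeQ OrdAt PairNumNeg geQ_int ne_frame ratio_eq pb pb_pluri pb_lft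
  pb_order pb_sec_ord lft lft_apply)

namespace Pool.Agent.L0h17.KU

section

variable {k L K : Type} [Field k] [CharZero k] [Field L] [Field K] [Algebra k L] [Algebra k K]
  [Algebra L K] [IsScalarTower k L K] [FiniteDimensional L K] [Algebra.EssFiniteType k L]
  [Algebra.EssFiniteType k K] {n : ℕ}

/-- pull-backs: the Kodaira dimension -/
theorem kod_pull (hn : Algebra.trdeg k L = n) {q : ℕ} (hL : KodR k L n q) : KodR k K n q := by
  classical
  obtain ⟨m, hm, Φ, hΦ, D0, hD0, hind⟩ := hL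
  obtain ⟨z, E, hz, hE⟩ := exists_crd (k := k) hn
  have hE0 := ne_frame (hΦ 0).1 hD0 hz hE
  refine ⟨m, hm, fun j => pb (K := K) m z E (Φ j), fun j => ⟨pb_pluri m z E (Φ j),
    fun Q hQ G hG => ?_⟩, fun i => lft (K := K) hn (E i), ?_, ?_⟩
  · obtain ⟨P, e, hQe⟩ := exists_below (k := k) (K := L) (L := K) Q
    have hP := divisorial_down hQe hQ
    have h1 : OrdAt P 0 (Φ j) := fun D hD => by
      have h2 := geQ_int.2 (show Ge P 0 (Φ j D) from (hΦ j).2 P hP D hD)
      exact_mod_cast h2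
    have h2 := pb_order (K := K) hz hE hn (hΦ j).1 hP hQe h1 G hG
    have h3 : GeQ Q ((0 : ℤ) : ℚ) (pb (K := K) m z E (Φ j) G) := by
      refine h2.mono ?_
      have he : (1 : ℚ) ≤ e := by exact_mod_cast hQe.1
      have hm0 : (0 : ℚ) ≤ m := by positivity
      have := mul_nonneg hm0 (sub_nonneg.2 he)
      push_cast
      linarith
    exact geQ_int.1 h3
  · change pb (K := K) m z E (Φ 0) (fun i => lft (K := K) hn (E i)) ≠ 0
    rw [pb_lft hE hn]
    exact (_root_.map_ne_zero _).2 hE0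
  · have h1 : (fun j : Fin q => pb (K := K) m z E (Φ j.succ) (fun i => lft (K := K) hn (E i)) /
        pb (K := K) m z E (Φ 0) (fun i => lft (K := K) hn (E i))) =
        (IsScalarTower.toAlgHom k L K) ∘ fun j => Φ j.succ D0 / Φ 0 D0 := by
      funext j
      rw [pb_lft hE hn, pb_lft hE hn, Function.comp_apply,
        ratio_eq hn (hΦ 0).1 (hΦ j.succ).1 hD0 E, map_mul, mul_div_assoc, div_self
        ((_root_.map_ne_zero _).2 hE0), mul_one]
      rfl
    have h2 := hind.map' (f := IsScalarTower.toAlgHom k L K) (RingHom.injective _)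
    rw [← h1] at h2
    exact h2

/-- pull-backs: the case `ν = -∞` -/
theorem neg_down (hn : Algebra.trdeg k L = n) (hneg : NumNeg k K n (fun _ => False)) :
    NumNeg k L n (fun _ => False) := by
  classical
  rw [← neg_iff] at hneg ⊢
  obtain ⟨y, E, hy, hE⟩ := exists_crd (k := k) hn
  intro S
  obtain ⟨m0, hm0⟩ := hneg (S.image (algebraMap L K))
  refine ⟨m0, fun m hm hI => hm0 m hm ?_⟩
  obtain ⟨ω, hli, hω⟩ := hI
  have hne : ∃ D, ω 0 D ≠ 0 := by
    by_contra hc
    push Not at hc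
    exact hli.ne_zero 0 (funext hc)
  obtain ⟨D, hD⟩ := hne
  have hE0 := ne_frame (hω 0).1 hD hy hE
  refine ⟨fun _ => pb (K := K) m y E (ω 0), ?_, fun _ => ⟨pb_pluri m y E (ω 0), ?_⟩⟩
  · refine LinearIndependent.of_subsingleton (0 : Fin 1) fun h0 => ?_
    have h1 := congrFun h0 (fun i => lft (K := K) hn (E i))
    change pb (K := K) m y E (ω 0) (fun i => lft (K := K) hn (E i)) = 0 at h1
    rw [pb_lft hE hn] at h1
    exact (_root_.map_ne_zero _).2 hE0 h1
  · intro Q hQ G hG
    obtain ⟨P, e, hQe⟩ := exists_below (k := k) (K := L) (L := K) Q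
    obtain ⟨s, hs, hs0, h2⟩ := pb_sec_ord (K := K) hn (hω 0) hD hy hE hQe hQ
    rcases h2 G hG with h3 | h3
    · exact Or.inl h3
    · refine Or.inr ⟨algebraMap L K s, Finset.mem_image_of_mem _ hs,
        (_root_.map_ne_zero _).2 hs0, le_trans ?_ h3⟩
      have he : (1 : ℚ) ≤ e := by exact_mod_cast hQe.1
      have h6 : (0 : ℚ) ≤ m := by positivity
      have := mul_nonneg h6 (sub_nonneg.2 he)
      push_cast
      linarith

end

section

variable {K : Type} [Field K] [Algebra ℂ K] {M F : IntermediateField ℂ K} {a b p : ℕ} {L : Type}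
  [Field L] [Algebra ℂ L] [Algebra L K] [IsScalarTower ℂ L K] [FiniteDimensional L K]
  [Algebra.EssFiniteType ℂ K]
  {κ : Type} {η : (Fin a → Derivation ℂ F F) → F} {g : Fin a → F} {c : κ → F}

theorem beta_sec {R : Type} [Field R] [Algebra ℂ R] {m : ℕ} (hp : 1 ≤ p)
    {Φ Φ' : (Fin b → Derivation ℂ R R) → R} (hΦ : IsPluri m Φ) (hΦ' : IsPluri m Φ')
    (h1 : ∀ P : Place ℂ R, Divisorial b P → RegAt P Φ)
    (h2 : ∀ P : Place ℂ R, Divisorial b P → RegAt P Φ') :
    IsSec ℂ R b (fun _ => False) {1} (p * m) 1 (fun D => Φ D ^ (p - 1) * Φ' D) := by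
  refine ⟨fun A D => ?_, fun P hP _ D hD => ?_, fun v _ h => absurd h (fun h => h)⟩
  · have e1 := hΦ A D
    have e2 := hΦ' A D
    change Φ _ ^ (p - 1) * Φ' _ = _
    rw [e1, e2]
    obtain ⟨r, rfl⟩ : ∃ r, p = r + 1 := ⟨p - 1, by omega⟩
    rw [Nat.add_sub_cancel, mul_pow, ← pow_mul, add_mul, one_mul, pow_add, mul_comm m r]
    ring
  · have h3 : Ge P 0 (Φ D) := h1 P hP D hD
    have h4 : Ge P 0 (Φ' D) := h2 P hP D hD
    have h5 := (h3.pow (p - 1)).mul h4
    rw [mul_zero, zero_add] at h5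
    rcases h5 with h5 | h5
    · exact Or.inl h5
    · exact Or.inr ⟨1, Finset.mem_singleton_self 1, one_ne_zero, by
        rw [P.ord_one, mul_zero]; exact h5⟩

/-- **The Kodaira dimension, lower bound.** -/
theorem kod_lower [Finite κ] (d : Dat L F M a b p η g c) {h : ℕ} (hM : KodR ℂ M b h) :
    KodR ℂ L (a + b) (a + h) := by
  classical
  have hL : Algebra.trdeg ℂ L = (a + b : ℕ) :=
    (Pool.Agent.Y190.BV.trdeg_ext (k := ℂ) (K := L) (L := K)).symm.trans d.hab
  have hessL : Algebra.EssFiniteType ℂ L := Pool.Agent.TH466.QG.ess_below (K := K)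
  have hessF := Pool.Agent.N999.SX.ess_any F
  have hessM := Pool.Agent.N999.SX.ess_any M
  obtain ⟨m, hm, Φ, hΦ, D0, hD0, hind⟩ := hM
  obtain ⟨y, t, Ey, Et, hZ, f, hpr⟩ := setup d.ha d.hb d.hab d.hs
  obtain ⟨E, hE⟩ := Pool.Agent.Y173.QA.exists_duals f.hy
  obtain ⟨E', hE'⟩ := Pool.Agent.Y173.QA.exists_duals f.ht
  obtain ⟨Dη, hDη⟩ := d.hη0
  have hηE : η E ≠ 0 := ne_frame d.hη hDη f.hy hE
  have hΦE : Φ 0 E' ≠ 0 := ne_frame (hΦ 0).1 hD0 f.ht hE'
  obtain ⟨r, hr⟩ : ∃ r : Fin h → M, r = fun j => Φ j.succ D0 / Φ 0 D0 := ⟨_, rfl⟩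
  rw [← hr] at hind
  have hrE : ∀ j, Φ j.succ E' = r j * Φ 0 E' := fun j => by
    rw [hr]
    exact ratio_eq d.hb (hΦ 0).1 (hΦ j.succ).1 hD0 E'
  have hgr := indep_append hpr d.hg hind
  have htop : ∀ x : K, x ∈ (⊤ : IntermediateField ℂ K) := fun x => trivial
  let g' : Fin (a + h) → (⊤ : IntermediateField ℂ K) := fun j =>
    ⟨Fin.append (fun i => (g i : K)) (fun j => (r j : K)) j, htop _⟩
  have hg' : AlgebraicIndependent ℂ g' := by
    refine AlgebraicIndependent.of_comp (⊤ : IntermediateField ℂ K).val ?_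
    exact hgr
  obtain ⟨Ω, hΩ⟩ : ∃ Ω, Ω = cf (k := ℂ) (ZZ y t) (p * m)
    (((η E ^ m : F) : K) * ((Φ 0 E' ^ p : M) : K)) := ⟨_, rfl⟩
  have hΩp : IsPluri (p * m) Ω := hΩ ▸ cf_pluri _ _ _
  have hΩ0 : Ω (fr Ey Et) ≠ 0 := by
    rw [hΩ, cf_frame (fr_dual f)]
    refine mul_ne_zero (fun h0 => pow_ne_zero m hηE (Subtype.ext h0))
      (fun h0 => pow_ne_zero p hΦE (Subtype.ext h0))
  -- regularity
  have hreg : ∀ (i : κ) (γ : Fin a → ℕ), ∑ i, γ i ≤ m → ∀ l : Fin (h + 1), ∀ Q : Place ℂ K,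
      Divisorial (a + b) Q → ∀ G : Fin (a + b) → Derivation ℂ K K, (∀ l, DerReg Q (G l)) →
      Ge Q 0 (cf (k := ℂ) (ZZ y t) (p * m)
        (((c i ^ (2 * (p * m)) * ((∏ i, g i ^ γ i) * η E ^ m) : F) : K) *
          ((Φ 0 E' ^ (p - 1) * Φ l E' : M) : K)) G) := by
    intro i γ hγ l Q hQ G hG
    obtain ⟨s, hs, -, u, hu, -, h1⟩ := prod_sec d.ha d.hb d.hab f.hy f.ht hE hE'
      (Finset.mem_singleton_self (1 : F)) (Finset.mem_singleton_self (1 : M))
      (alpha_sec d.hη (d.hpos i) hγ)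
      (beta_sec d.p1 (hΦ 0).1 (hΦ l).1 (hΦ 0).2 (hΦ l).2) hQ hG
    rw [Finset.mem_singleton] at hs hu
    subst hs
    subst hu
    have h2 : Q.ord (((1 : F) : K) * ((1 : M) : K)) = 0 := by
      have h3 : (((1 : F) : K) * ((1 : M) : K)) = 1 := by push_cast; ring
      rw [h3, Q.ord_one]
    rw [h2] at h1
    exact h1
  have hpp : ∀ x : M, x ^ (p - 1) * x = x ^ p := by
    intro x
    rw [← pow_succ]
    congr 1
    have := d.p1
    omega
  have hfin : Fintype κ := Fintype.ofFinite κ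
  obtain ⟨Ψ, h1, h2, D, h3, h4⟩ := Pool.Agent.L0h17.DN.main_aux (k := ℂ) hL
    (⊤ : IntermediateField ℂ K) (δ := fun _ => 0) hΩp hΩ0 hg'
    (fun i : κ => ⟨(c i : K), htop _⟩)
    (by
      intro x _
      have h5 := d.hc
      change x ∈ Submodule.span L (Set.range fun i => (c i : K))
      rw [h5]
      trivial)
    (fun Q _ hh P e _ => by
      obtain ⟨t, ht0, ht⟩ := Q.surj
      have h5 := hh ⟨t, htop t⟩ (fun h0 => ht0 (congrArg Subtype.val h0))
      change Q.ord t = 0 at h5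
      omega)
    (fun Q hQ p' ε hp' P e hP i => by
      have hε : ε = 1 := by
        obtain ⟨t, ht0, ht⟩ := Q.surj
        have h5 := hp'.2 ⟨t, htop t⟩
        change Q.ord t = _ at h5
        rw [ht] at h5
        have h6 : (ε : ℤ) ∣ 1 := ⟨_, h5⟩
        exact Nat.dvd_one.1 (by exact_mod_cast h6)
      have h7 : ((p * m : ℕ) : ℚ) * ((ε : ℚ) - 1) - (p * m : ℕ) * e * 0 = ((0 : ℤ) : ℚ) := by
        rw [hε]
        push_cast
        ring
      rw [h7]
      refine ⟨fun G hG => ?_, fun j G hG => ?_⟩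
      · refine geQ_int.2 ?_
        have h8 := hreg i (fun _ => 0) (by simp) 0 Q hQ G hG
        convert h8 using 1
        change (c i : K) ^ (2 * (p * m)) * Ω G = _
        rw [hΩ, hpp]
        unfold cf
        simp only [pow_zero, Finset.prod_const_one, one_mul]
        push_cast
        ring
      · refine geQ_int.2 ?_
        change Ge Q 0 ((c i : K) ^ (2 * (p * m)) *
          (Fin.append (fun i => (g i : K)) (fun j => (r j : K)) j * Ω G))
        refine Fin.addCases (fun j => ?_) (fun j => ?_) j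
        · rw [Fin.append_left]
          have h8 := hreg i (fun i => if i = j then 1 else 0) (by simp; omega) 0 Q hQ G hG
          convert h8 using 1
          rw [hΩ, hpp]
          have h9 : ∏ i, g i ^ (if i = j then 1 else 0) = g j := by
            rw [Finset.prod_eq_single j]
            · simp
            · intro i _ hi
              simp [hi]
            · intro h; exact absurd (Finset.mem_univ j) h
          rw [h9]
          unfold cf
          push_cast
          ring
        · rw [Fin.append_right]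
          have h8 := hreg i (fun _ => 0) (by simp) j.succ Q hQ G hG
          convert h8 using 1
          rw [hΩ, hrE, ← hpp (Φ 0 E')]
          unfold cf
          simp only [pow_zero, Finset.prod_const_one, one_mul]
          push_cast
          ring)
  refine ⟨p * m * Module.finrank L K, Nat.mul_pos (Nat.mul_pos d.p1 hm) Module.finrank_pos, Ψ,
    fun j => ⟨h1 j, fun P hP G hG => ?_⟩, D, h3, h4⟩
  have h5 := h2 P hP j G hG
  rw [mul_zero, neg_zero] at h5
  exact geQ_int.1 (by exact_mod_cast h5)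

end

end Pool.Agent.L0h17.KU
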