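import Pool.Agent.L0h17.KU.Cf

/-!
The linear coefficient of the norm, and lower bounds by functions on the base.
-/

set_option autoImplicit false
set_option linter.overlappingInstances false
set_option linter.unusedSectionVars false

open FF Polynomial Pool.Agent.W602.GT Pool.Agent.W603.LV Pool.Agent.W619.PQ Pool.Agent.Y172
open Pool.Agent.L0h17.DN

namespace Pool.Agent.L0h17.KU

section

theorem interp (k : Type) [Field k] [CharZero k] {d : ℕ} (hd : 1 ≤ d) :
    ∃ v lam : Fin (d + 1) → k, ∀ (L : Type) [Field L] [Algebra k L] (p : Polynomial L),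
      p.natDegree ≤ d →
      p.coeff 1 = ∑ i, algebraMap k L (lam i) * p.eval (algebraMap k L (v i)) := by
  classical
  let v : Fin (d + 1) → k := fun i => ((i : ℕ) : k)
  have hv : Function.Injective v := fun i j hij => by
    have h1 : ((i : ℕ) : k) = ((j : ℕ) : k) := hij
    exact Fin.ext (by exact_mod_cast h1)
  have hdet : (Matrix.vandermonde v).det ≠ 0 := Matrix.det_vandermonde_ne_zero_iff.2 hv
  have hinv : (Matrix.vandermonde v)⁻¹ * Matrix.vandermonde v = 1 :=
    Matrix.nonsing_inv_mul _ (isUnit_iff_ne_zero.2 hdet)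
  obtain ⟨one', hone⟩ : ∃ o : Fin (d + 1), (o : ℕ) = 1 := ⟨⟨1, by omega⟩, rfl⟩
  refine ⟨v, fun i => (Matrix.vandermonde v)⁻¹ one' i, fun L _ _ p hp => ?_⟩
  have h1 : ∀ i : Fin (d + 1), p.eval (algebraMap k L (v i)) =
      ∑ j : Fin (d + 1), p.coeff j * algebraMap k L (v i ^ (j : ℕ)) := by
    intro i
    rw [Polynomial.eval_eq_sum_range' (n := d + 1) (by omega), Finset.sum_range]
    refine Finset.sum_congr rfl fun j _ => ?_
    rw [map_pow]
  have h2 : ∀ j : Fin (d + 1), ∑ i, algebraMap k L ((Matrix.vandermonde v)⁻¹ one' i) *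
      algebraMap k L (v i ^ (j : ℕ)) = if one' = j then 1 else 0 := by
    intro j
    have h3 := congrFun (congrFun hinv one') j
    rw [Matrix.mul_apply, Matrix.one_apply] at h3
    rw [← map_one (algebraMap k L), ← map_zero (algebraMap k L),
      ← apply_ite (algebraMap k L), ← h3, map_sum]
    refine Finset.sum_congr rfl fun i _ => ?_
    rw [Matrix.vandermonde_apply, map_mul]
  simp_rw [h1, Finset.mul_sum]
  rw [Finset.sum_comm]
  have h4 : ∀ j : Fin (d + 1), ∑ i, algebraMap k L ((Matrix.vandermonde v)⁻¹ one' i) *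
      (p.coeff j * algebraMap k L (v i ^ (j : ℕ))) = if one' = j then p.coeff j else 0 := by
    intro j
    have h5 : ∑ i, algebraMap k L ((Matrix.vandermonde v)⁻¹ one' i) *
      (p.coeff j * algebraMap k L (v i ^ (j : ℕ))) = p.coeff j *
        ∑ i, algebraMap k L ((Matrix.vandermonde v)⁻¹ one' i) *
      algebraMap k L (v i ^ (j : ℕ)) := by
      rw [Finset.mul_sum]
      exact Finset.sum_congr rfl fun i _ => by ring
    rw [h5, h2]
    split_ifs
    · rw [mul_one]
    · rw [mul_zero]
  rw [Finset.sum_congr rfl fun j _ => h4 j, Finset.sum_ite_eq, if_pos (Finset.mem_univ _), hone]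

variable {k L K : Type} [Field k] [CharZero k] [Field L] [Field K] [Algebra k L] [Algebra k K]
  [Algebra L K] [IsScalarTower k L K] [FiniteDimensional L K]

theorem norm_poly {ι : Type} [Fintype ι] [DecidableEq ι] (b : Module.Basis ι L K) (u : K) :
    ∃ p : Polynomial L, p.natDegree ≤ Fintype.card ι ∧ p.coeff 1 = Algebra.trace L K u ∧
      ∀ c : L, p.eval c = Algebra.norm L (1 + algebraMap L K c * u) := by
  obtain ⟨B, hB⟩ : ∃ B, B = Algebra.leftMulMatrix b u := ⟨_, rfl⟩
  refine ⟨(1 + (X : Polynomial L) • B.map C).det, ?_, ?_, fun c => ?_⟩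
  · have h1 := Polynomial.natDegree_det_X_add_C_le B (1 : Matrix ι ι L)
    have h2 : (1 : Matrix ι ι L).map (C : L →+* Polynomial L) = 1 :=
      Matrix.map_one _ (map_zero _) (map_one _)
    rw [h2, add_comm] at h1
    exact h1
  · rw [Matrix.det_one_add_X_smul]
    rw [Polynomial.coeff_add, Polynomial.coeff_add, Polynomial.coeff_one, if_neg one_ne_zero,
      Polynomial.coeff_smul, Polynomial.coeff_X_one, Polynomial.coeff_mul_X_pow',
      if_neg (by omega), zero_add, add_zero, smul_eq_mul, mul_one, hB,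
      Algebra.trace_eq_matrix_trace b]
  · rw [Algebra.norm_eq_matrix_det b, map_add, map_one, map_mul]
    have h1 : Algebra.leftMulMatrix b (algebraMap L K c) = algebraMap L (Matrix ι ι L) c :=
      AlgHom.commutes _ c
    rw [h1, ← hB, ← Polynomial.coe_evalRingHom, RingHom.map_det]
    congr 1
    ext i j
    rw [RingHom.mapMatrix_apply, Matrix.map_apply, Matrix.add_apply, Matrix.add_apply,
      Matrix.smul_apply, Matrix.map_apply, ← Algebra.smul_def, Matrix.smul_apply, map_add,
      smul_eq_mul, map_mul]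
    by_cases hij : i = j
    · subst hij
      simp
    · rw [Matrix.one_apply_ne hij, Matrix.one_apply_ne hij]
      simp

theorem norm_lin : ∃ v lam : Fin (Module.finrank L K + 1) → k, ∀ x z : K, x ≠ 0 →
    Algebra.norm L x * Algebra.trace L K (z / x) =
      ∑ i, algebraMap k L (lam i) * Algebra.norm L (x + algebraMap k K (v i) * z) := by
  classical
  obtain ⟨v, lam, h⟩ := interp k (d := Module.finrank L K) Module.finrank_pos
  refine ⟨v, lam, fun x z hx => ?_⟩
  obtain ⟨p, h1, h2, h3⟩ := norm_poly (Module.finBasis L K) (z / x)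
  rw [Fintype.card_fin] at h1
  rw [← h2, h L p h1, Finset.mul_sum]
  refine Finset.sum_congr rfl fun i _ => ?_
  rw [h3, ← mul_assoc, mul_comm (Algebra.norm L x), mul_assoc, ← map_mul]
  congr 2
  rw [← IsScalarTower.algebraMap_apply]
  field_simp

/-- a function is bounded from below by functions on the base -/
theorem lower_one {x : K} (hx : x ≠ 0) : ∃ T : Finset L, ∀ Q : Place k K,
    ∃ t ∈ T, t ≠ 0 ∧ Q.ord (algebraMap L K t) ≤ Q.ord x := by
  classical
  have hint : IsIntegral L x := Algebra.IsIntegral.isIntegral x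
  obtain ⟨q, hq⟩ : ∃ q, q = minpoly L x := ⟨_, rfl⟩
  have hmon : q.Monic := hq ▸ minpoly.monic hint
  have hroot : aeval x q = 0 := hq ▸ minpoly.aeval L x
  have hdeg : 0 < q.natDegree := hq ▸ minpoly.natDegree_pos hint
  refine ⟨insert 1 ((Finset.range q.natDegree).image q.coeff), fun Q => ?_⟩
  by_contra hcon
  push Not at hcon
  have h0 : Q.ord x < 0 := by
    have h1 := hcon 1 (Finset.mem_insert_self _ _) one_ne_zero
    rwa [map_one, Q.ord_one] at h1
  have h1 : x ^ q.natDegree = -∑ i ∈ Finset.range q.natDegree, algebraMap L K (q.coeff i) * x ^ i := by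
    have h2 := hroot
    rw [Polynomial.aeval_eq_sum_range, Finset.sum_range_succ, hmon.coeff_natDegree, one_smul] at h2
    rw [eq_neg_iff_add_eq_zero, add_comm]
    rw [← h2]
    congr 1
    exact Finset.sum_congr rfl fun i _ => (Algebra.smul_def _ _).symm
  have h2 : Ge Q (q.natDegree * Q.ord x + 1) (x ^ q.natDegree) := by
    rw [h1]
    refine Ge.neg (Ge.sum _ _ fun i hi => ?_)
    rw [Finset.mem_range] at hi
    by_cases hc : q.coeff i = 0
    · left
      rw [hc, map_zero, zero_mul]
    right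
    have hc' : algebraMap L K (q.coeff i) ≠ 0 := (_root_.map_ne_zero _).2 hc
    rw [Q.ord_mul hc' (pow_ne_zero _ hx), Q.ord_pow]
    have h3 := hcon (q.coeff i) (Finset.mem_insert_of_mem
      (Finset.mem_image_of_mem _ (Finset.mem_range.2 hi))) hc
    have h4 : ((i : ℤ) + 1) ≤ q.natDegree := by exact_mod_cast hi
    nlinarith
  rcases h2 with h2 | h2
  · exact pow_ne_zero _ hx h2
  · rw [Q.ord_pow] at h2
    omega

theorem lower_fin (S : Finset K) : ∃ T : Finset L, (1 : L) ∈ T ∧ (∀ t ∈ T, t ≠ 0) ∧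
    ∀ (Q : Place k K) (s : K), s ∈ S → s ≠ 0 →
      ∃ t ∈ T, Q.ord (algebraMap L K t) ≤ Q.ord s := by
  classical
  choose! T hT using fun (s : K) (hs : s ≠ 0) => lower_one (k := k) (L := L) hs
  refine ⟨insert 1 ((S.biUnion T).filter fun t => t ≠ 0), Finset.mem_insert_self _ _,
    fun t ht => ?_, fun Q s hs hs0 => ?_⟩
  · rcases Finset.mem_insert.1 ht with rfl | ht
    · exact one_ne_zero
    · exact (Finset.mem_filter.1 ht).2
  · obtain ⟨t, ht, ht0, h⟩ := hT s hs0 Q
    exact ⟨t, Finset.mem_insert_of_mem (Finset.mem_filter.2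
      ⟨Finset.mem_biUnion.2 ⟨s, hs, ht⟩, ht0⟩), h⟩

end

end Pool.Agent.L0h17.KU
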