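import Pool.Agent.L0h17.KU.Tn1

/-!
Transfer of sections: lower bounds for the number of sections on the image.
-/

set_option autoImplicit false
set_option linter.overlappingInstances false
set_option linter.unusedSectionVars false

open FF Polynomial Pool.Agent.W602.GT Pool.Agent.W603.LV Pool.Agent.W619.PQ Pool.Agent.Y172
open Pool.Agent.W619.TW (IsPairSec PairNumLe PairKodGe HasIndep)
open Pool.Agent.L0h17.DN

namespace Pool.Agent.L0h17.KU

section

variable {k L K : Type} [Field k] [CharZero k] [Field L] [Field K] [Algebra k L] [Algebra k K]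
  [Algebra L K] [IsScalarTower k L K] [FiniteDimensional L K] [Algebra.EssFiniteType k L]
  [Algebra.EssFiniteType k K] {n : ℕ}

theorem down_ord (hn : Algebra.trdeg k L = n) {ι : Type} [Fintype ι] [DecidableEq ι]
    (a : Module.Basis ι L K) {w : ℕ} (hw : 1 ≤ w) {W : (Fin n → Derivation k K K) → K}
    (hW : IsPluri w W) {P : Place k L} (hP : Divisorial n P) {c : ℚ}
    (h : ∀ (Q : Place k K) (e : ℕ), Over Q P e → ∀ i,
      OrdAt Q (e * c) (fun D => a i ^ (2 * w) * W D)) :
    OrdAt P (Module.finrank L K * c) (nform hn (Algebra.discr L a ^ w) W) := by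
  have hw0 : (w : ℚ) ≠ 0 := by
    have : w ≠ 0 := by omega
    exact_mod_cast this
  have h1 := down_order (M := K) hn a hW hP (δ := -c / w) fun Q P' e₁ e₂ hQ hP' i => by
    have he1 : e₁ = 1 := by
      obtain ⟨t, ht0, ht⟩ := Q.surj
      have h2 := hQ.2 t
      change Q.ord t = _ at h2
      rw [ht] at h2
      have h3 : (e₁ : ℤ) ∣ 1 := ⟨_, h2⟩
      exact Nat.dvd_one.1 (by exact_mod_cast h3)
    subst he1
    have hover : Over Q P e₂ := by
      refine ⟨hP'.1, fun f => ?_⟩
      have h2 := hQ.2 (algebraMap L K f)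
      change Q.ord (algebraMap L K f) = _ at h2
      rw [h2, hP'.2]
      push_cast
      ring
    have h3 := h Q e₂ hover i
    have h4 : (w : ℚ) * (((1 : ℕ) : ℚ) - 1) - w * (((1 : ℕ) : ℚ) * e₂) * (-c / w) = e₂ * c := by
      push_cast
      field_simp
      ring
    rw [h4]
    exact h3
  have h2 : (-(w * Module.finrank L K) * (-c / w) : ℚ) = Module.finrank L K * c := by
    field_simp
  rw [h2, Module.finrank_self, mul_one] at h1
  exact h1

theorem nform_cf (hn : Algebra.trdeg k L = n) (c : L) {z : Fin n → L} (w : ℕ) (x : K)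
    (G : Fin n → Derivation k L L) :
    nform hn c (cf (fun j => algebraMap L K (z j)) w x) G =
      cf z (w * Module.finrank L K) (c * Algebra.norm L x) G := by
  unfold nform cf
  have h1 : (Matrix.of fun p q => lft (K := K) hn (G p) (algebraMap L K (z q))).det =
      algebraMap L K (Matrix.of fun p q => G p (z q)).det := by
    rw [RingHom.map_det]
    congr 1
    ext p q
    rw [Matrix.of_apply, lft_apply]
    rfl
  rw [h1, map_mul, ← map_pow, Algebra.norm_algebraMap, ← pow_mul]
  ring

variable {ι : Type}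

/-- The values (on the frame dual to `Z`) of the forms `θ` of weight `w` on `V` such that all
`a i ^ (2 w) θ` are sections of `w (K_V + f^* Δ) + A`, for the divisor `A` generated by `S`. -/
def adm (δ : Place k L → ℚ) (a : ι → K) (Z : Fin n → K) (S : Finset K) (hS : (1 : K) ∈ S)
    (w : ℕ) : Submodule k K where
  carrier := {x | ∀ (Q : Place k K) (P : Place k L) (e : ℕ), Over Q P e → Divisorial n Q →
    ∀ i, ∀ G : Fin n → Derivation k K K, (∀ l, DerReg Q (G l)) →
      ∃ s ∈ S, s ≠ 0 ∧ GeQ Q (Q.ord s - w * e * δ P) (a i ^ (2 * w) * cf Z w x G)}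
  zero_mem' := fun Q P e _ _ i G _ => ⟨1, hS, one_ne_zero, Or.inl (by unfold cf; simp)⟩
  add_mem' := by
    intro x y hx hy Q P e hQP hQ i G hG
    obtain ⟨s, hs, hs0, h1⟩ := hx Q P e hQP hQ i G hG
    obtain ⟨u, hu, hu0, h2⟩ := hy Q P e hQP hQ i G hG
    have h3 : a i ^ (2 * w) * cf Z w (x + y) G =
        a i ^ (2 * w) * cf Z w x G + a i ^ (2 * w) * cf Z w y G := by
      unfold cf
      ring
    rw [h3]
    rcases le_total (Q.ord s) (Q.ord u) with h | h
    · exact ⟨s, hs, hs0, h1.add (h2.mono (by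
        have : (Q.ord s : ℚ) ≤ Q.ord u := by exact_mod_cast h
        linarith))⟩
    · exact ⟨u, hu, hu0, (h1.mono (by
        have : (Q.ord u : ℚ) ≤ Q.ord s := by exact_mod_cast h
        linarith)).add h2⟩
  smul_mem' := by
    intro c x hx Q P e hQP hQ i G hG
    obtain ⟨s, hs, hs0, h1⟩ := hx Q P e hQP hQ i G hG
    refine ⟨s, hs, hs0, ?_⟩
    have h3 : a i ^ (2 * w) * cf Z w (c • x) G =
        algebraMap k K c * (a i ^ (2 * w) * cf Z w x G) := by
      unfold cf
      rw [Algebra.smul_def]
      ring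
    rw [h3]
    exact h1.smul c

theorem tn_ord (hn : Algebra.trdeg k L = n) [Fintype ι] [DecidableEq ι]
    (a : Module.Basis ι L K) {δ : Place k L → ℚ} {z : Fin n → L} {S : Finset K}
    (hS : (1 : K) ∈ S) {T : Finset L} {w : ℕ} (hw : 1 ≤ w) {x₀ x : K} (hx₀ : x₀ ≠ 0)
    (h₀ : x₀ ∈ adm δ a (fun j => algebraMap L K (z j)) S hS w)
    (h₁ : x ∈ adm δ a (fun j => algebraMap L K (z j)) S hS w) {β : K} (hβ : β ≠ 0)
    (hT1 : (1 : L) ∈ T)
    (hT : ∀ (Q : Place k K) (s : K), s ∈ S → s ≠ 0 → (∃ t ∈ T, Q.ord (algebraMap L K t) ≤ Q.ord s) ∧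
      ∃ t ∈ T, Q.ord (algebraMap L K t) ≤ Q.ord (s * β))
    {P : Place k L} (hP : Divisorial n P) :
    ∃ t ∈ T, OrdAt P (P.ord (t ^ Module.finrank L K) - (w * Module.finrank L K : ℕ) * δ P)
      (cf z (w * Module.finrank L K) (Algebra.discr L a ^ w *
        (Algebra.norm L x₀ * Algebra.trace L K (β * x / x₀)))) := by
  classical
  obtain ⟨t₀, ht₀, hmin⟩ := Finset.exists_min_image T (fun t => P.ord t) ⟨1, hT1⟩
  refine ⟨t₀, ht₀, ?_⟩
  obtain ⟨v, lam, hlam⟩ := norm_lin (k := k) (L := L) (K := K)
  have hd : (0 : ℚ) ≤ Module.finrank L K := by positivity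
  -- each norm
  have h2 : ∀ c : k, OrdAt P (Module.finrank L K * ((P.ord t₀ : ℚ) - w * δ P))
      (cf z (w * Module.finrank L K) (Algebra.discr L a ^ w *
        Algebra.norm L (x₀ + algebraMap k K c * (β * x)))) := by
    intro c
    have h3 := down_ord hn a hw (cf_pluri (k := k) (fun j => algebraMap L K (z j)) w
      (x₀ + algebraMap k K c * (β * x))) hP (c := (P.ord t₀ : ℚ) - w * δ P)
      (fun Q e hQP i G hG => by
        have hQ : Divisorial n Q := divisorial_up hQP hP
        obtain ⟨s, hs, hs0, h4⟩ := h₀ Q P e hQP hQ i G hG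
        obtain ⟨u, hu, hu0, h5⟩ := h₁ Q P e hQP hQ i G hG
        obtain ⟨t₁, ht₁, h6⟩ := (hT Q s hs hs0).1
        obtain ⟨t₂, ht₂, h7⟩ := (hT Q u hu hu0).2
        have hlow : ∀ t ∈ T, (e : ℚ) * P.ord t₀ ≤ Q.ord (algebraMap L K t) := by
          intro t ht
          rw [hQP.2]
          push_cast
          have h8 : (P.ord t₀ : ℚ) ≤ P.ord t := by exact_mod_cast hmin t ht
          exact mul_le_mul_of_nonneg_left h8 (by positivity)
        have h8 : GeQ Q (e * ((P.ord t₀ : ℚ) - w * δ P))
            (a i ^ (2 * w) * cf (fun j => algebraMap L K (z j)) w x₀ G) := by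
          refine h4.mono ?_
          have h9 := hlow t₁ ht₁
          have h10 : (Q.ord (algebraMap L K t₁) : ℚ) ≤ Q.ord s := by exact_mod_cast h6
          linarith
        have h9 : GeQ Q (e * ((P.ord t₀ : ℚ) - w * δ P))
            (β * (a i ^ (2 * w) * cf (fun j => algebraMap L K (z j)) w x G)) := by
          have h10 : GeQ Q (Q.ord β : ℚ) β := Or.inr le_rfl
          refine (h10.mul h5).mono ?_
          have h11 := hlow t₂ ht₂
          have h12 : (Q.ord (algebraMap L K t₂) : ℚ) ≤ Q.ord u + Q.ord β := by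
            rw [Q.ord_mul hu0 hβ] at h7
            exact_mod_cast h7
          linarith
        have h10 : a i ^ (2 * w) * cf (fun j => algebraMap L K (z j)) w
            (x₀ + algebraMap k K c * (β * x)) G =
            a i ^ (2 * w) * cf (fun j => algebraMap L K (z j)) w x₀ G +
            algebraMap k K c * (β * (a i ^ (2 * w) *
              cf (fun j => algebraMap L K (z j)) w x G)) := by
          unfold cf
          ring
        beta_reduce
        rw [h10]
        exact h8.add (h9.smul c))
    intro G hG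
    rw [← nform_cf hn]
    exact h3 G hG
  intro G hG
  have h3 : cf z (w * Module.finrank L K) (Algebra.discr L a ^ w *
        (Algebra.norm L x₀ * Algebra.trace L K (β * x / x₀))) G =
      ∑ i, algebraMap k L (lam i) * cf z (w * Module.finrank L K) (Algebra.discr L a ^ w *
        Algebra.norm L (x₀ + algebraMap k K (v i) * (β * x))) G := by
    rw [hlam x₀ (β * x) hx₀]
    unfold cf
    rw [Finset.mul_sum, Finset.mul_sum]
    exact Finset.sum_congr rfl fun i _ => by ring
  rw [h3]
  have h4 : ∀ s : Finset (Fin (Module.finrank L K + 1)),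
      GeQ P (Module.finrank L K * ((P.ord t₀ : ℚ) - w * δ P))
      (∑ i ∈ s, algebraMap k L (lam i) * cf z (w * Module.finrank L K) (Algebra.discr L a ^ w *
        Algebra.norm L (x₀ + algebraMap k K (v i) * (β * x))) G) := by
    intro s
    induction s using Finset.induction_on with
    | empty => exact Or.inl rfl
    | insert i s hi ih =>
      rw [Finset.sum_insert hi]
      exact ((h2 (v i) G hG).smul (lam i)).add ih
  refine (h4 Finset.univ).mono (le_of_eq ?_)
  rw [P.ord_pow]
  push_cast
  ring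

end

end Pool.Agent.L0h17.KU
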